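import Pool.Agent.BdO.Par

/-!
MP_7fa120_al, bounded odd part. Real analysis for the term (L1).

Proof. Let `s ∈ Icc (sig n) n`, so `s ≥ n ^ (1/6)`. `max 2 (s / K) ≥ s / (2 K)` (natural division on the left, real on the right; true
because `s / K > x - 1` with `x = s / K` real, and `max 2 (x - 1) ≥ x / 2`). The logarithm of the summand is at most
`4 s log n + 2 s n ^ (3/4) log (2 n) + n J log n - s n ^ (7/8) / (128 K)`. As `s ≥ n ^ (1/6)`, `n J log n ≤ s n ^ (5/6) J log n`, so it is at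
most `- s n ^ (7/8) / (256 K) ≤ - n / 1` for large `n` (`s n ^ (7/8) ≥ n ^ (25/24)`), and the sum of at most `n` terms tends to `0`. (The case
`K = 0` is excluded by `1 ≤ K`.)
-/

set_option autoImplicit false

namespace Pool.Agent.BdO

open Filter

private theorem ev_log (a : ℝ) (ha : 0 < a) :
    ∀ᶠ n : ℕ in atTop, Real.log (n : ℝ) ≤ (n : ℝ) ^ a := by
  have h1 := (isLittleO_log_rpow_atTop ha).bound (c := 1) one_pos
  have h2 := tendsto_natCast_atTop_atTop (R := ℝ) |>.eventually h1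
  filter_upwards [h2] with n hn
  rw [one_mul, Real.norm_eq_abs, Real.norm_eq_abs] at hn
  calc Real.log n ≤ |Real.log n| := le_abs_self _
    _ ≤ |(n : ℝ) ^ a| := hn
    _ = (n : ℝ) ^ a := abs_of_nonneg (by positivity)

private theorem ev_pow (a C : ℝ) (ha : 0 < a) :
    ∀ᶠ n : ℕ in atTop, C ≤ (n : ℝ) ^ a :=
  ((tendsto_rpow_atTop ha).comp tendsto_natCast_atTop_atTop).eventually_ge_atTop C

theorem an_A (K J : ℕ) (hK : 1 ≤ K) : Tendsto (fun n : ℕ => ∑ s ∈ Finset.Icc (sig n) n,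
    (n : ℝ) ^ (4 * s) * (2 * s : ℝ) ^ (2 * s * bb n) * (n : ℝ) ^ (n * J) *
      Real.exp (-((max 2 (s / K) : ℕ) * (n : ℝ) ^ (7 / 8 : ℝ) / 64))) atTop (nhds 0) := by
  have hK1 : (1 : ℝ) ≤ K := by exact_mod_cast hK
  have hK0 : (0 : ℝ) < K := by linarith
  have hJ0 : (0 : ℝ) ≤ J := Nat.cast_nonneg J
  have hexp : Tendsto (fun n : ℕ => (n : ℝ) * Real.exp (-(n : ℝ))) atTop (nhds 0) := by
    have h := (Real.tendsto_pow_mul_exp_neg_atTop_nhds_zero 1).comp
      (tendsto_natCast_atTop_atTop (R := ℝ))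
    refine h.congr fun n => ?_
    simp
  refine squeeze_zero' (Eventually.of_forall fun n => by positivity) ?_ hexp
  filter_upwards [ev_log (1 / 48) (by norm_num),
    ev_pow (1 / 48) (256 * (K : ℝ) * (J + 8)) (by norm_num),
    ev_pow (1 / 24) (256 * K) (by norm_num), eventually_ge_atTop 2] with n h1 h2 h3 h4
  have hn2 : (2 : ℝ) ≤ n := by exact_mod_cast h4
  have hn1 : (1 : ℝ) ≤ n := by linarith
  have hn0 : (0 : ℝ) < n := by linarith
  set L : ℝ := Real.log n with hL
  have hL0 : 0 ≤ L := Real.log_nonneg hn1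
  set Z : ℝ := (n : ℝ) ^ (1 / 48 : ℝ) with hZ
  have hZ1 : 1 ≤ Z := Real.one_le_rpow hn1 (by norm_num)
  have e78 : (n : ℝ) ^ (7 / 8 : ℝ) = (n : ℝ) ^ (5 / 6 : ℝ) * Z * Z := by
    rw [hZ, ← Real.rpow_add hn0, ← Real.rpow_add hn0]
    norm_num
  have e34 : (n : ℝ) ^ (3 / 4 : ℝ) ≤ (n : ℝ) ^ (5 / 6 : ℝ) :=
    Real.rpow_le_rpow_of_exponent_le hn1 (by norm_num)
  have e56 : 1 ≤ (n : ℝ) ^ (5 / 6 : ℝ) := Real.one_le_rpow hn1 (by norm_num)
  set W : ℝ := (n : ℝ) ^ (5 / 6 : ℝ) with hW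
  have hbb : (bb n : ℝ) ≤ W := (Nat.floor_le (by positivity)).trans e34
  have hterm : ∀ s ∈ Finset.Icc (sig n) n,
      (n : ℝ) ^ (4 * s) * (2 * s : ℝ) ^ (2 * s * bb n) * (n : ℝ) ^ (n * J) *
      Real.exp (-((max 2 (s / K) : ℕ) * (n : ℝ) ^ (7 / 8 : ℝ) / 64)) ≤ Real.exp (-(n : ℝ)) := by
    intro s hs
    rw [Finset.mem_Icc] at hs
    obtain ⟨hs1, hs2⟩ := hs
    have hsn : (s : ℝ) ≤ n := by exact_mod_cast hs2
    have hs3 : (n : ℝ) ^ (1 / 6 : ℝ) ≤ s := by
      have h5 := Nat.lt_floor_add_one ((n : ℝ) ^ (1 / 6 : ℝ))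
      have h6 : ((sig n : ℕ) : ℝ) ≤ s := by exact_mod_cast hs1
      unfold sig at h6
      push_cast at h6
      linarith
    have hs4 : 1 ≤ (s : ℝ) := (Real.one_le_rpow hn1 (by norm_num)).trans hs3
    have hs0 : (0 : ℝ) < s := by linarith
    -- the maximum
    have hmax : (s : ℝ) / (2 * K) ≤ ((max 2 (s / K) : ℕ) : ℝ) := by
      rw [div_le_iff₀ (by positivity)]
      have h5 : s < K * (s / K + 1) := Nat.lt_mul_div_succ _ (by omega)
      have h5' : (s : ℝ) < K * (((s / K : ℕ) : ℝ) + 1) := by exact_mod_cast h5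
      have h6 : (((s / K : ℕ) : ℝ) + 1) ≤ 2 * ((max 2 (s / K) : ℕ) : ℝ) := by
        have h7 : s / K + 1 ≤ 2 * max 2 (s / K) := by omega
        exact_mod_cast h7
      nlinarith
    -- the powers
    have p1 : (n : ℝ) ^ (4 * s) = Real.exp (4 * s * L) := by
      rw [← Real.rpow_natCast, Real.rpow_def_of_pos hn0]
      congr 1
      push_cast
      ring
    have p3 : (n : ℝ) ^ (n * J) = Real.exp (n * J * L) := by
      rw [← Real.rpow_natCast, Real.rpow_def_of_pos hn0]
      congr 1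
      push_cast
      ring
    have p2 : (2 * s : ℝ) ^ (2 * s * bb n) ≤ Real.exp (4 * s * W * L) := by
      have h5 : (2 * s : ℝ) ≤ Real.exp (2 * L) := by
        have h6 : Real.exp (2 * L) = n * n := by
          rw [two_mul, Real.exp_add, hL, Real.exp_log hn0]
        rw [h6]
        nlinarith
      calc (2 * s : ℝ) ^ (2 * s * bb n) ≤ (Real.exp (2 * L)) ^ (2 * s * bb n) :=
            pow_le_pow_left₀ (by positivity) h5 _
        _ = Real.exp (4 * s * bb n * L) := by
          rw [← Real.exp_nat_mul]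
          congr 1
          push_cast
          ring
        _ ≤ _ := by
          refine Real.exp_le_exp.2 ?_
          have h6 : 4 * (s : ℝ) * bb n ≤ 4 * s * W := mul_le_mul_of_nonneg_left hbb (by positivity)
          exact mul_le_mul_of_nonneg_right h6 hL0
    have p4 : Real.exp (-((max 2 (s / K) : ℕ) * (n : ℝ) ^ (7 / 8 : ℝ) / 64)) ≤
        Real.exp (-(s * (W * Z * Z) / (128 * K))) := by
      refine Real.exp_le_exp.2 (neg_le_neg ?_)
      rw [e78]
      have h5 : (s : ℝ) / (2 * K) * (W * Z * Z) ≤ ((max 2 (s / K) : ℕ) : ℝ) * (W * Z * Z) :=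
        mul_le_mul_of_nonneg_right hmax (by positivity)
      calc s * (W * Z * Z) / (128 * K) = (s : ℝ) / (2 * K) * (W * Z * Z) / 64 := by
            field_simp
            ring
        _ ≤ _ := by linarith
    -- the exponents
    have hnsW : (n : ℝ) ≤ s * W := by
      have h5 : (n : ℝ) = (n : ℝ) ^ (1 / 6 : ℝ) * W := by
        rw [hW, ← Real.rpow_add hn0]
        norm_num
      calc (n : ℝ) = (n : ℝ) ^ (1 / 6 : ℝ) * W := h5
        _ ≤ s * W := mul_le_mul_of_nonneg_right hs3 (by positivity)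
    have hsum : 4 * s * L + 4 * s * W * L + n * J * L ≤ (J + 8) * (s * W * Z) := by
      have h5 : 4 * (s : ℝ) * L ≤ 4 * (s * W * Z) := by
        have h6 : (s : ℝ) * L ≤ s * (W * Z) := by
          refine mul_le_mul_of_nonneg_left ?_ hs0.le
          calc L ≤ Z := h1
            _ ≤ W * Z := by nlinarith
        linarith
      have h7 : 4 * (s : ℝ) * W * L ≤ 4 * (s * W * Z) := by
        have h6 : (s : ℝ) * W * L ≤ s * W * Z := mul_le_mul_of_nonneg_left h1 (by positivity)
        linarith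
      have h8 : (n : ℝ) * J * L ≤ J * (s * W * Z) := by
        have h6 : (n : ℝ) * L ≤ (s * W) * Z := mul_le_mul hnsW h1 hL0 (by positivity)
        calc (n : ℝ) * J * L = J * (n * L) := by ring
          _ ≤ J * (s * W * Z) := mul_le_mul_of_nonneg_left h6 hJ0
      linarith
    have hcmp : (J + 8) * (s * W * Z) ≤ s * (W * Z * Z) / (256 * K) := by
      rw [le_div_iff₀ (by positivity)]
      have h5 : 0 ≤ s * W * Z := by positivity
      calc (J + 8) * (s * W * Z) * (256 * K) = (256 * K * (J + 8)) * (s * W * Z) := by ring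
        _ ≤ Z * (s * W * Z) := mul_le_mul_of_nonneg_right h2 h5
        _ = _ := by ring
    have hlow : (n : ℝ) ≤ s * (W * Z * Z) / (256 * K) := by
      rw [le_div_iff₀ (by positivity)]
      have h5 : Z * Z = (n : ℝ) ^ (1 / 24 : ℝ) := by
        rw [hZ, ← Real.rpow_add hn0]
        norm_num
      calc (n : ℝ) * (256 * K) ≤ (s * W) * (Z * Z) := by
            rw [h5]
            exact mul_le_mul hnsW h3 (by positivity) (by positivity)
        _ = _ := by ring
    calc (n : ℝ) ^ (4 * s) * (2 * s : ℝ) ^ (2 * s * bb n) * (n : ℝ) ^ (n * J) *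
        Real.exp (-((max 2 (s / K) : ℕ) * (n : ℝ) ^ (7 / 8 : ℝ) / 64)) ≤
        Real.exp (4 * s * L) * Real.exp (4 * s * W * L) * Real.exp (n * J * L) *
          Real.exp (-(s * (W * Z * Z) / (128 * K))) := by
          rw [p1, p3]
          gcongr
      _ = Real.exp (4 * s * L + 4 * s * W * L + n * J * L - s * (W * Z * Z) / (128 * K)) := by
          rw [← Real.exp_add, ← Real.exp_add, ← Real.exp_add]
          congr 1
      _ ≤ Real.exp (-(n : ℝ)) := by
          refine Real.exp_le_exp.2 ?_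
          have h5 : s * (W * Z * Z) / (128 * K) = 2 * (s * (W * Z * Z) / (256 * K)) := by
            field_simp
            ring
          rw [h5]
          linarith
  calc ∑ s ∈ Finset.Icc (sig n) n,
      (n : ℝ) ^ (4 * s) * (2 * s : ℝ) ^ (2 * s * bb n) * (n : ℝ) ^ (n * J) *
      Real.exp (-((max 2 (s / K) : ℕ) * (n : ℝ) ^ (7 / 8 : ℝ) / 64)) ≤
      ∑ s ∈ Finset.Icc (sig n) n, Real.exp (-(n : ℝ)) := Finset.sum_le_sum hterm
    _ = ((Finset.Icc (sig n) n).card : ℝ) * Real.exp (-(n : ℝ)) := by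
      rw [Finset.sum_const, nsmul_eq_mul]
    _ ≤ (n : ℝ) * Real.exp (-(n : ℝ)) := by
      refine mul_le_mul_of_nonneg_right ?_ (Real.exp_pos _).le
      rw [Nat.card_Icc]
      have : n + 1 - sig n ≤ n := by
        unfold sig
        omega
      exact_mod_cast this

end Pool.Agent.BdO
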