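import Pool.Agent.BdO.Par

/-!
MP_7fa120_al, bounded odd part. Real analysis for the term (L2).

Proof. `log (n !) ≤ n log n`, so the logarithm of the numerator is at most `(J + 1) n log n`. With `g = bb n / K ≥ n ^ (3/4) / K - 2`, the
exponent `(g / 2) * (g - g / 2)` (natural division) is at least `(g ^ 2 - 1) / 4`, of order `n ^ (3/2) / (4 K ^ 2)`.
-/

set_option autoImplicit false

namespace Pool.Agent.BdO

open Filter

private theorem ev_log (a : ℝ) (ha : 0 < a) :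
    ∀ᶠ n : ℕ in atTop, Real.log (n : ℝ) ≤ (n : ℝ) ^ a := by
  have h1 := (isLittleO_log_rpow_atTop ha).bound (c := 1) one_pos
  have h2 := tendsto_natCast_atTop_atTop (R := ℝ) |>.eventually h1
  filter_upwards [h2] with n hn
  rw [one_mul, Real.norm_eq_abs, Real.norm_eq_abs] at hn
  calc Real.log n ≤ |Real.log n| := le_abs_self _
    _ ≤ |(n : ℝ) ^ a| := hn
    _ = (n : ℝ) ^ a := abs_of_nonneg (by positivity)

private theorem ev_pow (a C : ℝ) (ha : 0 < a) :
    ∀ᶠ n : ℕ in atTop, C ≤ (n : ℝ) ^ a :=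
  ((tendsto_rpow_atTop ha).comp tendsto_natCast_atTop_atTop).eventually_ge_atTop C

theorem an_M (K J : ℕ) (hK : 1 ≤ K) : Tendsto (fun n : ℕ => (n.factorial : ℝ) ^ (J + 1) /
    2 ^ ((bb n / K / 2) * (bb n / K - bb n / K / 2))) atTop (nhds 0) := by
  have hK1 : (1 : ℝ) ≤ K := by exact_mod_cast hK
  have hK0 : (0 : ℝ) < K := by linarith
  have hlog2 : (1 : ℝ) / 2 ≤ Real.log 2 := by
    have := Real.log_two_gt_d9
    linarith
  have hexp : Tendsto (fun n : ℕ => Real.exp (-(n : ℝ))) atTop (nhds 0) :=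
    Real.tendsto_exp_neg_atTop_nhds_zero.comp tendsto_natCast_atTop_atTop
  refine squeeze_zero' (Eventually.of_forall fun n => by positivity) ?_ hexp
  filter_upwards [ev_log (1 / 4) (by norm_num), ev_pow (1 / 4) (64 * (K : ℝ) ^ 2 * (J + 2)) (by norm_num),
    ev_pow (3 / 4) (4 * K + 4) (by norm_num), eventually_ge_atTop 1] with n h1 h2 h3 h4
  have hn1 : (1 : ℝ) ≤ n := by exact_mod_cast h4
  have hn0 : (0 : ℝ) < n := by linarith
  set X : ℝ := (n : ℝ) ^ (3 / 4 : ℝ) with hX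
  have hb : X - 1 < (bb n : ℝ) := by
    have := Nat.lt_floor_add_one X
    unfold bb
    linarith
  set g : ℕ := bb n / K with hg
  have hg1 : (bb n : ℝ) < K * (g + 1) := by
    have h5 : bb n < K * (bb n / K + 1) := Nat.lt_mul_div_succ _ (by omega)
    exact_mod_cast h5
  have hg2 : X / (2 * K) ≤ g := by
    rw [div_le_iff₀ (by positivity)]
    nlinarith
  have hg3 : (2 : ℝ) ≤ g := by
    refine le_trans ?_ hg2
    rw [le_div_iff₀ (by positivity)]
    nlinarith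
  set E : ℕ := (g / 2) * (g - g / 2) with hE
  have hE1 : (g : ℝ) ^ 2 / 8 ≤ (E : ℝ) := by
    have h5 : g ≤ 2 * (g / 2) + 1 := by omega
    have h6 : g ≤ 2 * (g - g / 2) := by omega
    have h5' : (g : ℝ) ≤ 2 * ((g / 2 : ℕ) : ℝ) + 1 := by exact_mod_cast h5
    have h6' : (g : ℝ) ≤ 2 * ((g - g / 2 : ℕ) : ℝ) := by exact_mod_cast h6
    rw [hE, Nat.cast_mul]
    nlinarith
  have hXX : X ^ 2 = (n : ℝ) * (n : ℝ) ^ (1 / 4 : ℝ) * (n : ℝ) ^ (1 / 4 : ℝ) := by
    rw [hX, ← Real.rpow_natCast, ← Real.rpow_mul hn0.le]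
    nth_rewrite 2 [← Real.rpow_one (n : ℝ)]
    rw [← Real.rpow_add hn0, ← Real.rpow_add hn0]
    norm_num
  have hE2 : X ^ 2 / (32 * (K : ℝ) ^ 2) ≤ E := by
    refine le_trans ?_ hE1
    have h5 : 0 ≤ X / (2 * K) := by positivity
    have h6 : (X / (2 * K)) ^ 2 ≤ (g : ℝ) ^ 2 := pow_le_pow_left₀ h5 hg2 2
    calc X ^ 2 / (32 * (K : ℝ) ^ 2) = (X / (2 * K)) ^ 2 / 8 := by
          field_simp
          ring
      _ ≤ (g : ℝ) ^ 2 / 8 := by linarith
  set Y : ℝ := (n : ℝ) ^ (1 / 4 : ℝ) with hY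
  have hY1 : 1 ≤ Y := Real.one_le_rpow hn1 (by norm_num)
  have hmain : (J + 1) * ((n : ℝ) * Real.log n) + n ≤ E * Real.log 2 := by
    have h5 : (n : ℝ) * Real.log n ≤ n * Y := mul_le_mul_of_nonneg_left h1 hn0.le
    have h6 : (n : ℝ) ≤ n * Y := by nlinarith
    have h7 : (J + 1) * ((n : ℝ) * Real.log n) + n ≤ (J + 2) * (n * Y) := by
      have : (0 : ℝ) ≤ J := Nat.cast_nonneg J
      nlinarith
    have h8 : (J + 2) * ((n : ℝ) * Y) ≤ X ^ 2 / (32 * (K : ℝ) ^ 2) * (1 / 2) := by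
      rw [hXX, div_mul_eq_mul_div, le_div_iff₀ (by positivity)]
      have h9 : 0 ≤ (n : ℝ) * Y := by positivity
      nlinarith
    have h9 : X ^ 2 / (32 * (K : ℝ) ^ 2) * (1 / 2) ≤ E * Real.log 2 :=
      mul_le_mul hE2 hlog2 (by norm_num) (Nat.cast_nonneg _)
    linarith
  have hfac : (n.factorial : ℝ) ^ (J + 1) ≤ Real.exp ((J + 1) * ((n : ℝ) * Real.log n)) := by
    have h5 : (n.factorial : ℝ) ≤ (n : ℝ) ^ n := by exact_mod_cast Nat.factorial_le_pow n
    have h6 : (n : ℝ) ^ n = Real.exp ((n : ℝ) * Real.log n) := by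
      rw [← Real.rpow_natCast, Real.rpow_def_of_pos hn0]
      congr 1
      ring
    calc (n.factorial : ℝ) ^ (J + 1) ≤ (Real.exp ((n : ℝ) * Real.log n)) ^ (J + 1) :=
          pow_le_pow_left₀ (by positivity) (h5.trans h6.le) _
      _ = _ := by
        rw [← Real.exp_nat_mul]
        congr 1
        push_cast
        ring
  have h2E : (2 : ℝ) ^ E = Real.exp (E * Real.log 2) := by
    rw [mul_comm, ← Real.rpow_def_of_pos two_pos, Real.rpow_natCast]
  rw [h2E, div_le_iff₀ (Real.exp_pos _), ← Real.exp_add]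
  refine hfac.trans (Real.exp_le_exp.2 ?_)
  linarith

end Pool.Agent.BdO
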