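import Pool.Agent.BdO.Par

/-!
MP_7fa120_al, bounded odd part. Real analysis for the term (S).

Proof. `s = C * sig n ≤ 2 C n ^ (1/6)` for `n ≥ 1`. The logarithm of the expression is at most
`2 C n ^ (1/6) log n + 2 log 2 (2 C) ^ 4 n ^ (2/3) - n ^ (7/8) / 32`, which tends to minus infinity.
-/

set_option autoImplicit false

namespace Pool.Agent.BdO

open Filter

private theorem tends_bot (D : ℝ) : Tendsto (fun n : ℕ => D * (n : ℝ) ^ (2 / 3 : ℝ) -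
    2 * (n : ℝ) ^ (7 / 8 : ℝ) / 64) atTop atBot := by
  have hn : Tendsto (fun n : ℕ => (n : ℝ)) atTop atTop := tendsto_natCast_atTop_atTop
  have h1 : Tendsto (fun n : ℕ => (n : ℝ) ^ (2 / 3 : ℝ)) atTop atTop :=
    (tendsto_rpow_atTop (by norm_num)).comp hn
  have h2 : Tendsto (fun n : ℕ => (n : ℝ) ^ (5 / 24 : ℝ) / 32) atTop atTop :=
    ((tendsto_rpow_atTop (by norm_num)).comp hn).atTop_div_const (by norm_num)
  have h3 : Tendsto (fun n : ℕ => D - (n : ℝ) ^ (5 / 24 : ℝ) / 32) atTop atBot :=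
    tendsto_const_nhds.add_atBot (tendsto_neg_atTop_atBot.comp h2) |>.congr fun n => by
      simp only [Function.comp]
      ring
  refine (h1.atTop_mul_atBot₀ h3).congr' ?_
  filter_upwards [eventually_gt_atTop 0] with n hn0
  have hn1 : (0 : ℝ) < n := by exact_mod_cast hn0
  have e : (n : ℝ) ^ (7 / 8 : ℝ) = (n : ℝ) ^ (2 / 3 : ℝ) * (n : ℝ) ^ (5 / 24 : ℝ) := by
    rw [← Real.rpow_add hn1]
    norm_num
  rw [e]
  ring

theorem an_S (C : ℕ) : Tendsto (fun n : ℕ => (n : ℝ) ^ (C * sig n) * ((2 : ℝ) ^ ((C * sig n) ^ 4)) ^ 2 *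
    Real.exp (-(2 * (n : ℝ) ^ (7 / 8 : ℝ) / 64))) atTop (nhds 0) := by
  set D : ℝ := 4 * C + 32 * (C : ℝ) ^ 4 with hD
  have h0 : Tendsto (fun n : ℕ => Real.exp (D * (n : ℝ) ^ (2 / 3 : ℝ) -
      2 * (n : ℝ) ^ (7 / 8 : ℝ) / 64)) atTop (nhds 0) :=
    Real.tendsto_exp_atBot.comp (tends_bot D)
  refine squeeze_zero' (Eventually.of_forall fun n => by positivity) ?_ h0
  filter_upwards [eventually_ge_atTop 1] with n hn
  have hn1 : (1 : ℝ) ≤ n := by exact_mod_cast hn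
  have hn0 : (0 : ℝ) < n := by linarith
  have hC0 : (0 : ℝ) ≤ C := Nat.cast_nonneg C
  set y : ℝ := (n : ℝ) ^ (1 / 6 : ℝ) with hy
  have hy1 : 1 ≤ y := Real.one_le_rpow hn1 (by norm_num)
  have hs : ((C * sig n : ℕ) : ℝ) ≤ 2 * C * y := by
    have h1 : ((sig n : ℕ) : ℝ) ≤ 2 * y := by
      unfold sig
      push_cast
      have := Nat.floor_le (a := (n : ℝ) ^ (1 / 6 : ℝ)) (by positivity)
      linarith
    push_cast
    nlinarith
  have hs0 : (0 : ℝ) ≤ ((C * sig n : ℕ) : ℝ) := Nat.cast_nonneg _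
  have hlog : Real.log n ≤ 2 * (n : ℝ) ^ (1 / 2 : ℝ) := by
    have := Real.log_le_rpow_div (x := (n : ℝ)) hn0.le (ε := 1 / 2) (by norm_num)
    linarith
  have hlog0 : 0 ≤ Real.log n := Real.log_nonneg hn1
  have e1 : (n : ℝ) ^ (C * sig n) = Real.exp (Real.log n * ((C * sig n : ℕ) : ℝ)) := by
    rw [← Real.rpow_natCast, Real.rpow_def_of_pos hn0]
  have e2 : ((2 : ℝ) ^ ((C * sig n) ^ 4)) ^ 2 =
      Real.exp (Real.log 2 * (2 * ((C * sig n : ℕ) : ℝ) ^ 4)) := by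
    rw [← pow_mul, ← Real.rpow_natCast, Real.rpow_def_of_pos (by norm_num)]
    congr 1
    push_cast
    ring
  have e3 : y * (n : ℝ) ^ (1 / 2 : ℝ) = (n : ℝ) ^ (2 / 3 : ℝ) := by
    rw [hy, ← Real.rpow_add hn0]
    norm_num
  have e4 : y ^ 4 = (n : ℝ) ^ (2 / 3 : ℝ) := by
    rw [hy, ← Real.rpow_natCast, ← Real.rpow_mul hn0.le]
    norm_num
  rw [e1, e2, ← Real.exp_add, ← Real.exp_add]
  refine Real.exp_le_exp.2 ?_
  have f1 : Real.log n * ((C * sig n : ℕ) : ℝ) ≤ 4 * C * (n : ℝ) ^ (2 / 3 : ℝ) := by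
    calc Real.log n * ((C * sig n : ℕ) : ℝ) ≤ (2 * (n : ℝ) ^ (1 / 2 : ℝ)) * (2 * C * y) :=
          mul_le_mul hlog hs hs0 (by positivity)
      _ = 4 * C * (y * (n : ℝ) ^ (1 / 2 : ℝ)) := by ring
      _ = 4 * C * (n : ℝ) ^ (2 / 3 : ℝ) := by rw [e3]
  have f2 : Real.log 2 * (2 * ((C * sig n : ℕ) : ℝ) ^ 4) ≤
      32 * (C : ℝ) ^ 4 * (n : ℝ) ^ (2 / 3 : ℝ) := by
    have g1 : ((C * sig n : ℕ) : ℝ) ^ 4 ≤ (2 * C * y) ^ 4 := pow_le_pow_left₀ hs0 hs 4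
    have g2 : Real.log 2 ≤ 1 := by
      have := Real.log_two_lt_d9
      linarith
    have g3 : (0 : ℝ) ≤ 2 * ((C * sig n : ℕ) : ℝ) ^ 4 := by positivity
    calc Real.log 2 * (2 * ((C * sig n : ℕ) : ℝ) ^ 4) ≤ 1 * (2 * ((C * sig n : ℕ) : ℝ) ^ 4) :=
          mul_le_mul_of_nonneg_right g2 g3
      _ ≤ 1 * (2 * (2 * C * y) ^ 4) := by linarith
      _ = 32 * (C : ℝ) ^ 4 * y ^ 4 := by ring
      _ = 32 * (C : ℝ) ^ 4 * (n : ℝ) ^ (2 / 3 : ℝ) := by rw [e4]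
  rw [hD]
  linarith

end Pool.Agent.BdO
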