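import Pool.Agent.BdO.NormX

/-!
MP_7fa120_al, bounded odd part. Counting the groups of case (L1).

Proof. `H` is determined by `c`, `D = {g ∈ N : c g = g c}` (a subgroup), `S₁`, `S₂`. Number of `c` with `s` moved points: at most
`n ^ (2 * s)` (support and the permutation of the support, `s ^ s ≤ n ^ s`). Number of `B` (enlarged to `min (2 s) n` points): at most
`n ^ (2 * s)`; for given `B` every element of `S₁` is one of at most `(2 * s) ! ≤ (2 * s) ^ (2 * s)` permutations moving only points of `B`,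
so there are at most `((2 * s) ^ (2 * s)) ^ b` sets `S₁` up to adding the identity (`S₁ ∪ {1}` is the range of a map from `Fin b` or
`S₁` is; adding `1` does not change the closure; `b = 0` is trivial), and at most `(n !) ^ J ≤ n ^ (n * J)` sets `S₂`. `D` is a 2-group (a
subgroup of `N`) which normalises `C = Subgroup.zpowers c` (it centralises `c`), whose order is `orderOf c`, odd and at most `K`;
`C ≠ ⊥` because `1 ≤ s`. By `norm_count` the number of `D` for given `c` is at most `n ^ k * nTwo (n - k)` with `2 ≤ k`, `2 * k ≤ n`,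
`s = c.support.card ≤ k * orderOf c ≤ k * K`, so `s / K ≤ k`, and this is a summand of `red n (s / K)`.
-/

set_option autoImplicit false

namespace Pool.Agent.BdO

open Equiv Pool.Agent.NilS

private theorem card_sigma_le {α : Type} [Finite α] {β : α → Type} [∀ a, Finite (β a)] {M L : ℕ}
    (hα : Nat.card α ≤ M) (hβ : ∀ a, Nat.card (β a) ≤ L) : Nat.card (Σ a, β a) ≤ M * L := by
  classical
  have : Fintype α := Fintype.ofFinite α
  rw [Nat.card_sigma]
  calc ∑ a, Nat.card (β a) ≤ ∑ _a : α, L := Finset.sum_le_sum fun a _ => hβ a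
    _ = Nat.card α * L := by
      rw [Finset.sum_const, Finset.card_univ, Nat.card_eq_fintype_card, smul_eq_mul]
    _ ≤ M * L := Nat.mul_le_mul_right L hα

private theorem exists_enum {α : Type} (T : Finset α) (m : ℕ) (hT : T.card ≤ m) (a : α) :
    ∃ v : Fin m → α, (∀ x ∈ T, x ∈ Set.range v) ∧ ∀ i, v i ∈ T ∨ v i = a := by
  classical
  refine ⟨fun i => if h : i.1 < T.card then (T.equivFin.symm ⟨i.1, h⟩ : α) else a, ?_, ?_⟩
  · intro x hx
    refine ⟨⟨(T.equivFin ⟨x, hx⟩).1, (T.equivFin ⟨x, hx⟩).2.trans_le hT⟩, ?_⟩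
    dsimp only
    rw [dif_pos (T.equivFin ⟨x, hx⟩).2]
    simp
  · intro i
    dsimp only
    split_ifs with h
    · exact Or.inl (T.equivFin.symm ⟨i.1, h⟩).2
    · exact Or.inr rfl

private theorem card_moving (n s : ℕ) :
    Nat.card {c : Perm (Fin n) // c.support.card = s} ≤ n ^ (2 * s) := by
  classical
  have hf : Function.Injective (fun c : {c : Perm (Fin n) // c.support.card = s} =>
      ((fun i => ((c.1.support.equivFinOfCardEq c.2).symm i).1 : Fin s → Fin n),
        (fun i => c.1 ((c.1.support.equivFinOfCardEq c.2).symm i).1 : Fin s → Fin n))) := by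
    intro c d hcd
    rw [Prod.mk.injEq] at hcd
    obtain ⟨h1, h2⟩ := hcd
    have hsub : ∀ a b : {c : Perm (Fin n) // c.support.card = s},
        (fun i => ((a.1.support.equivFinOfCardEq a.2).symm i).1 : Fin s → Fin n) =
          (fun i => ((b.1.support.equivFinOfCardEq b.2).symm i).1 : Fin s → Fin n) →
        ∀ x ∈ a.1.support, x ∈ b.1.support := by
      intro a b hab x hx
      have h3 := congrFun hab (a.1.support.equivFinOfCardEq a.2 ⟨x, hx⟩)
      rw [Equiv.symm_apply_apply] at h3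
      have h5 := ((b.1.support.equivFinOfCardEq b.2).symm (a.1.support.equivFinOfCardEq a.2 ⟨x, hx⟩)).2
      rw [← h3] at h5
      exact h5
    apply Subtype.ext
    ext x : 1
    by_cases hx : x ∈ c.1.support
    · have h3 := congrFun h1 (c.1.support.equivFinOfCardEq c.2 ⟨x, hx⟩)
      have h4 := congrFun h2 (c.1.support.equivFinOfCardEq c.2 ⟨x, hx⟩)
      rw [Equiv.symm_apply_apply] at h3 h4
      rw [h4, ← h3]
    · have hx' : x ∉ d.1.support := fun h => hx (hsub d c h1.symm x h)
      rw [Perm.notMem_support.1 hx, Perm.notMem_support.1 hx']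
  refine (Nat.card_le_card_of_injective _ hf).trans (le_of_eq ?_)
  rw [Nat.card_prod, Nat.card_fun, Nat.card_fin, Nat.card_fin, ← pow_add, two_mul]

private theorem card_local (n m : ℕ) (v : Fin m → Fin n) :
    Nat.card {g : Perm (Fin n) // ∀ y, y ∉ Set.range v → g y = y} ≤ m ^ m := by
  classical
  have hmem : ∀ g : {g : Perm (Fin n) // ∀ y, y ∉ Set.range v → g y = y}, ∀ i, g.1 (v i) ∈ Set.range v := by
    intro g i
    by_contra h
    have h1 := g.2 _ h
    have h2 := g.1.injective h1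
    rw [h2] at h
    exact h ⟨i, rfl⟩
  have hf : Function.Injective (fun g : {g : Perm (Fin n) // ∀ y, y ∉ Set.range v → g y = y} =>
      (fun i => ⟨g.1 (v i), hmem g i⟩ : Fin m → Set.range v)) := by
    intro g h hgh
    apply Subtype.ext
    ext y : 1
    by_cases hy : y ∈ Set.range v
    · obtain ⟨i, rfl⟩ := hy
      have := congrFun hgh i
      simpa using this
    · rw [g.2 y hy, h.2 y hy]
  refine (Nat.card_le_card_of_injective _ hf).trans ?_
  rw [Nat.card_fun, Nat.card_fin]
  refine Nat.pow_le_pow_left ?_ m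
  have h1 := Nat.card_le_card_of_surjective (Set.rangeFactorization v) Set.rangeFactorization_surjective
  rwa [Nat.card_fin] at h1

private theorem card_D {n : ℕ} (hn : Even n) (K s : ℕ) (hs : 1 ≤ s) (c : Perm (Fin n)) (h1 : Opp c)
    (h2 : orderOf c ≤ K) (h3 : c.support.card = s) :
    Nat.card {D : Subgroup (Perm (Fin n)) // Two D ∧ Nz D (Subgroup.zpowers c)} ≤ red n (s / K) := by
  obtain ⟨r, j, hr, hr2, hj⟩ := h1
  have hodd : Odd (Nat.card (Subgroup.zpowers c)) := by
    rw [Nat.card_zpowers, hj]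
    exact (hr.odd_of_ne_two hr2).pow
  have hne : Subgroup.zpowers c ≠ ⊥ := by
    rw [Ne, Subgroup.zpowers_eq_bot]
    rintro rfl
    rw [Perm.support_one, Finset.card_empty] at h3
    omega
  obtain ⟨k, hk2, hkn, hk, hcard⟩ := norm_count hn _ hodd hne
  refine hcard.trans ?_
  have h4 := hk c (Subgroup.mem_zpowers c)
  rw [Nat.card_zpowers, h3] at h4
  have h5 : s / K ≤ k := by
    apply Nat.div_le_of_le_mul
    rw [mul_comm]
    exact h4.trans (Nat.mul_le_mul_left k h2)
  unfold red
  exact Finset.single_le_sum (f := fun k => n ^ k * nTwo (n - k)) (fun i _ => Nat.zero_le _)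
    (Finset.mem_filter.2 ⟨Finset.mem_Icc.2 ⟨hk2, by omega⟩, h5⟩)

private theorem closure_pad {G : Type} [Group G] {X Y : Set G} (h1 : X ⊆ Y) (h2 : ∀ y ∈ Y, y ∈ X ∨ y = 1) :
    Subgroup.closure Y = Subgroup.closure X := by
  apply le_antisymm
  · rw [Subgroup.closure_le]
    intro y hy
    rcases h2 y hy with h | rfl
    · exact Subgroup.subset_closure h
    · exact Subgroup.one_mem _
  · exact Subgroup.closure_mono h1

theorem cnt_A {n : ℕ} (hn : Even n) (K s b J : ℕ) (hs : 1 ≤ s) :
    Nat.card {H : Subgroup (Perm (Fin n)) // ∃ (N : Subgroup (Perm (Fin n))) (c : Perm (Fin n))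
      (S₁ S₂ : Finset (Perm (Fin n))) (B : Finset (Fin n)), Two N ∧ Opp c ∧ orderOf c ≤ K ∧ c.support.card = s ∧
      S₁.card ≤ b ∧ S₂.card ≤ J ∧ B.card ≤ 2 * s ∧ (∀ x ∈ S₁, ∀ y, y ∉ B → x y = y) ∧
      Subgroup.closure ({g | g ∈ N ∧ c * g = g * c} ∪ (S₁ : Set (Perm (Fin n))) ∪ (S₂ : Set (Perm (Fin n)))) = H} ≤
      n ^ (4 * s) * (2 * s) ^ (2 * s * b) * n ^ (n * J) * red n (s / K) := by
  classical
  let A := {c : Perm (Fin n) // c.support.card = s ∧ Opp c ∧ orderOf c ≤ K}
  let V := Σ v : Fin (2 * s) → Fin n, (Fin b → {g : Perm (Fin n) // ∀ y, y ∉ Set.range v → g y = y})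
  let β : A → Type := fun c => V × ((Fin J → Perm (Fin n)) ×
    {D : Subgroup (Perm (Fin n)) // Two D ∧ Nz D (Subgroup.zpowers c.1)})
  let Φ : (Σ c, β c) → Subgroup (Perm (Fin n)) := fun t =>
    Subgroup.closure (((t.2.2.2.1 : Subgroup (Perm (Fin n))) : Set (Perm (Fin n))) ∪
      Set.range (fun i => (t.2.1.2 i).1) ∪ Set.range t.2.2.1)
  have hA : Nat.card A ≤ n ^ (2 * s) := by
    refine le_trans ?_ (card_moving n s)
    exact Nat.card_le_card_of_injective (fun c : A => (⟨c.1, c.2.1⟩ : {c : Perm (Fin n) // c.support.card = s}))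
      (fun c d h => Subtype.ext (Subtype.mk.inj h))
  have hV : Nat.card V ≤ n ^ (2 * s) * ((2 * s) ^ (2 * s)) ^ b := by
    refine card_sigma_le (le_of_eq ?_) fun v => ?_
    · rw [Nat.card_fun, Nat.card_fin, Nat.card_fin]
    · rw [Nat.card_fun, Nat.card_fin]
      exact Nat.pow_le_pow_left (card_local n (2 * s) v) b
  have hU : Nat.card (Fin J → Perm (Fin n)) ≤ (n ^ n) ^ J := by
    rw [Nat.card_fun, Nat.card_fin, Nat.card_eq_fintype_card, Fintype.card_perm, Fintype.card_fin]
    exact Nat.pow_le_pow_left (Nat.factorial_le_pow n) J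
  have hβ : ∀ c : A, Nat.card (β c) ≤
      n ^ (2 * s) * ((2 * s) ^ (2 * s)) ^ b * ((n ^ n) ^ J * red n (s / K)) := by
    intro c
    rw [Nat.card_prod, Nat.card_prod]
    exact Nat.mul_le_mul hV (Nat.mul_le_mul hU (card_D hn K s hs c.1 c.2.2.1 c.2.2.2 c.2.1))
  have hSig := card_sigma_le hA hβ
  have hex : ∀ H : {H : Subgroup (Perm (Fin n)) // ∃ (N : Subgroup (Perm (Fin n))) (c : Perm (Fin n))
      (S₁ S₂ : Finset (Perm (Fin n))) (B : Finset (Fin n)), Two N ∧ Opp c ∧ orderOf c ≤ K ∧ c.support.card = s ∧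
      S₁.card ≤ b ∧ S₂.card ≤ J ∧ B.card ≤ 2 * s ∧ (∀ x ∈ S₁, ∀ y, y ∉ B → x y = y) ∧
      Subgroup.closure ({g | g ∈ N ∧ c * g = g * c} ∪ (S₁ : Set (Perm (Fin n))) ∪ (S₂ : Set (Perm (Fin n)))) = H},
      ∃ t : (Σ c, β c), Φ t = H.1 := by
    rintro ⟨H, N, c, S₁, S₂, B, hN, hc, hcK, hcs, hS₁, hS₂, hB, hfix, hcl⟩
    have hpos : 0 < c.support.card := by omega
    obtain ⟨x₀, hx₀⟩ := Finset.card_pos.1 hpos
    obtain ⟨v, hv, -⟩ := exists_enum B (2 * s) hB x₀
    obtain ⟨w, hw, hw'⟩ := exists_enum S₁ b hS₁ 1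
    obtain ⟨u, hu, hu'⟩ := exists_enum S₂ J hS₂ 1
    have hwfix : ∀ i y, y ∉ Set.range v → w i y = y := by
      intro i y hy
      rcases hw' i with h | h
      · exact hfix _ h y (fun hyB => hy (hv y hyB))
      · rw [h]; rfl
    have hcomm : ∀ g ∈ N ⊓ Subgroup.centralizer {c}, Commute g c := by
      intro g hg
      have h1 := Subgroup.mem_centralizer_iff.1 (Subgroup.mem_inf.1 hg).2 c (Set.mem_singleton c)
      exact h1.symm
    have hD1 : Two (N ⊓ Subgroup.centralizer {c}) := by
      obtain ⟨k, hk⟩ := hN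
      have h1 : Nat.card ↥(N ⊓ Subgroup.centralizer {c}) ∣ 2 ^ k := by
        rw [← hk]
        exact Subgroup.card_dvd_of_le inf_le_left
      obtain ⟨j, -, hj⟩ := (Nat.dvd_prime_pow Nat.prime_two).1 h1
      exact ⟨j, hj⟩
    have hD2 : Nz (N ⊓ Subgroup.centralizer {c}) (Subgroup.zpowers c) := by
      rintro l hl o ho
      obtain ⟨i, rfl⟩ := Subgroup.mem_zpowers_iff.1 ho
      have h1 : l * c ^ i = c ^ i * l := ((hcomm l hl).zpow_right i).eq
      rw [h1, mul_assoc, mul_inv_cancel, mul_one]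
      exact ho
    refine ⟨⟨⟨c, hcs, hc, hcK⟩, ⟨v, fun i => ⟨w i, hwfix i⟩⟩, u, ⟨N ⊓ Subgroup.centralizer {c}, hD1, hD2⟩⟩, ?_⟩
    change Subgroup.closure (((N ⊓ Subgroup.centralizer {c} : Subgroup (Perm (Fin n))) : Set (Perm (Fin n))) ∪
      Set.range (fun i => w i) ∪ Set.range u) = H
    rw [← hcl]
    apply closure_pad
    · rintro g ((hg | hg) | hg)
      · left; left
        refine Subgroup.mem_inf.2 ⟨hg.1, ?_⟩
        rw [Subgroup.mem_centralizer_iff]
        rintro x rfl
        exact hg.2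
      · left; right
        exact hw g hg
      · right
        exact hu g hg
    · rintro g ((hg | ⟨i, rfl⟩) | ⟨i, rfl⟩)
      · left; left; left
        exact ⟨(Subgroup.mem_inf.1 hg).1, (hcomm g hg).symm.eq⟩
      · rcases hw' i with h | h
        · left; left; right; exact h
        · right; exact h
      · rcases hu' i with h | h
        · left; right; exact h
        · right; exact h
  choose f hf using hex
  have hinj : Function.Injective f := by
    intro H₁ H₂ h
    apply Subtype.ext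
    rw [← hf H₁, ← hf H₂, h]
  have hfin : Finite (Σ c, β c) := inferInstance
  refine (Nat.card_le_card_of_injective f hinj).trans (hSig.trans (le_of_eq ?_))
  have e1 : n ^ (4 * s) = n ^ (2 * s) * n ^ (2 * s) := by
    rw [← pow_add]
    congr 1
    ring
  rw [e1, pow_mul (2 * s) (2 * s) b, pow_mul n n J]
  ring

end Pool.Agent.BdO
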