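import Pool.Agent.BdO.Defs

/-!
MP_7fa120_al, bounded odd part. Counting the groups of case (L2): double counting.

Proof. Let `𝓗` be the set of these groups `H`; choose `N, c, S` for every `H ∈ 𝓗`. Consider the pairs `(H, M)` with `H ∈ 𝓗` and `M ≤ N` such
that every `c`-invariant subgroup containing `M` contains `N`. There are at least `𝓗.card * 2 ^ g` pairs. `M` is a 2-group (a subgroup
of `N`). `N` is determined by `M` and `c`: it is the smallest `c`-invariant subgroup containing `M`. So `(H, M)` is determined by `M`,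
`c` and a map `Fin J → Perm (Fin n)` whose range is `S` or `S ∪ {1}`: `H = closure (N ∪ S)`. So there are at most
`nTwo n * n ! * (n !) ^ J` pairs.
-/

set_option autoImplicit false

namespace Pool.Agent.BdO

open Equiv Pool.Agent.NilS

private theorem two_of_le {Ω : Type} [Finite Ω] {M N : Subgroup (Perm Ω)} (h : M ≤ N) (hN : Two N) : Two M := by
  obtain ⟨k, hk⟩ := hN
  have h1 := Subgroup.card_dvd_of_le h
  rw [hk] at h1
  obtain ⟨j, _, hj⟩ := (Nat.dvd_prime_pow Nat.prime_two).1 h1
  exact ⟨j, hj⟩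

private theorem enum {α : Type} [One α] [DecidableEq α] (S : Finset α) (J : ℕ) (h : S.card ≤ J) :
    ∃ s : Fin J → α, (S : Set α) ⊆ Set.range s ∧ Set.range s ⊆ insert 1 (S : Set α) := by
  classical
  refine ⟨fun i => if h : (i : ℕ) < S.card then ((S.equivFin.symm ⟨i, h⟩ : S) : α) else 1, ?_, ?_⟩
  · intro x hx
    have hlt := (S.equivFin ⟨x, hx⟩).2
    refine ⟨⟨(S.equivFin ⟨x, hx⟩ : Fin S.card), lt_of_lt_of_le hlt h⟩, ?_⟩
    simp only
    rw [dif_pos hlt]
    simp
  · rintro _ ⟨i, rfl⟩
    simp only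
    split_ifs with h
    · exact Set.mem_insert_of_mem _ (S.equivFin.symm ⟨i, h⟩).2
    · exact Set.mem_insert _ _

theorem cnt_M (n J g : ℕ) :
    2 ^ g * Nat.card {H : Subgroup (Perm (Fin n)) // ∃ (N : Subgroup (Perm (Fin n))) (c : Perm (Fin n))
      (S : Finset (Perm (Fin n))), Two N ∧ S.card ≤ J ∧ (∀ x ∈ N, c * x * c⁻¹ ∈ N) ∧
      Subgroup.closure ((N : Set (Perm (Fin n))) ∪ (S : Set (Perm (Fin n)))) = H ∧
      2 ^ g ≤ Nat.card {M : Subgroup (Perm (Fin n)) // M ≤ N ∧
        ∀ L : Subgroup (Perm (Fin n)), M ≤ L → (∀ x ∈ L, c * x * c⁻¹ ∈ L) → N ≤ L}} ≤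
      n.factorial ^ (J + 1) * nTwo n := by
  classical
  set T := {H : Subgroup (Perm (Fin n)) // ∃ (N : Subgroup (Perm (Fin n))) (c : Perm (Fin n))
      (S : Finset (Perm (Fin n))), Two N ∧ S.card ≤ J ∧ (∀ x ∈ N, c * x * c⁻¹ ∈ N) ∧
      Subgroup.closure ((N : Set (Perm (Fin n))) ∪ (S : Set (Perm (Fin n)))) = H ∧
      2 ^ g ≤ Nat.card {M : Subgroup (Perm (Fin n)) // M ≤ N ∧
        ∀ L : Subgroup (Perm (Fin n)), M ≤ L → (∀ x ∈ L, c * x * c⁻¹ ∈ L) → N ≤ L}} with hT
  choose N c S hN2 hS hinv hcl hM using fun H : T => H.2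
  choose s hs1 hs2 using fun H : T => enum (S H) J (hS H)
  let Mt : T → Type := fun H => {M : Subgroup (Perm (Fin n)) // M ≤ N H ∧
        ∀ L : Subgroup (Perm (Fin n)), M ≤ L → (∀ x ∈ L, c H * x * (c H)⁻¹ ∈ L) → N H ≤ L}
  let φ : (Σ H : T, Mt H) → (Fin (J + 1) → Perm (Fin n)) × {M : Subgroup (Perm (Fin n)) // Two M} :=
    fun x => (Fin.cons (c x.1) (s x.1), ⟨x.2.1, two_of_le x.2.2.1 (hN2 x.1)⟩)
  have hcl' : ∀ H : T, Subgroup.closure ((N H : Set (Perm (Fin n))) ∪ Set.range (s H)) = H.1 := by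
    intro H
    rw [← hcl H]
    apply le_antisymm
    · rw [Subgroup.closure_le]
      rintro x (hx | hx)
      · exact Subgroup.subset_closure (Or.inl hx)
      · rcases hs2 H hx with h1 | h1
        · rw [h1]
          exact Subgroup.one_mem _
        · exact Subgroup.subset_closure (Or.inr h1)
    · apply Subgroup.closure_mono
      exact Set.union_subset_union_right _ (hs1 H)
  have hinj : Function.Injective φ := by
    rintro ⟨H, M⟩ ⟨H', M'⟩ h
    have h1 : (Fin.cons (c H) (s H) : Fin (J + 1) → Perm (Fin n)) = Fin.cons (c H') (s H') :=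
      congrArg Prod.fst h
    have h2 : (M.1 : Subgroup (Perm (Fin n))) = M'.1 :=
      congrArg (fun t => (t.2 : {M : Subgroup (Perm (Fin n)) // Two M}).1) h
    have hc : c H = c H' := by
      have := congrFun h1 0
      rwa [Fin.cons_zero, Fin.cons_zero] at this
    have hss : s H = s H' := by
      funext i
      have := congrFun h1 i.succ
      rwa [Fin.cons_succ, Fin.cons_succ] at this
    have hNN : N H = N H' := by
      apply le_antisymm
      · apply M.2.2 (N H')
        · rw [h2]
          exact M'.2.1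
        · intro x hx
          rw [hc]
          exact hinv H' x hx
      · apply M'.2.2 (N H)
        · rw [← h2]
          exact M.2.1
        · intro x hx
          rw [← hc]
          exact hinv H x hx
    have hHH : H = H' := by
      apply Subtype.ext
      rw [← hcl' H, ← hcl' H', hNN, hss]
    subst hHH
    congr 1
    exact Subtype.ext h2
  have hfin : Finite T := inferInstance
  have : Fintype T := Fintype.ofFinite T
  have hfinM : ∀ H : T, Finite (Mt H) := fun H => inferInstanceAs (Finite {M : Subgroup (Perm (Fin n)) // M ≤ N H ∧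
        ∀ L : Subgroup (Perm (Fin n)), M ≤ L → (∀ x ∈ L, c H * x * (c H)⁻¹ ∈ L) → N H ≤ L})
  have hcard := Nat.card_le_card_of_injective φ hinj
  have hright : Nat.card ((Fin (J + 1) → Perm (Fin n)) × {M : Subgroup (Perm (Fin n)) // Two M}) =
      n.factorial ^ (J + 1) * nTwo n := by
    rw [Nat.card_prod, Nat.card_eq_fintype_card, Fintype.card_fun, Fintype.card_fin, Fintype.card_perm,
      Fintype.card_fin]
    rfl
  rw [hright, Nat.card_sigma] at hcard
  refine le_trans ?_ hcard
  calc 2 ^ g * Nat.card T = ∑ _H : T, 2 ^ g := by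
        rw [Finset.sum_const, Finset.card_univ, Nat.card_eq_fintype_card, smul_eq_mul, mul_comm]
    _ ≤ ∑ H : T, Nat.card (Mt H) := Finset.sum_le_sum fun H _ => hM H

end Pool.Agent.BdO
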