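import Pool.Agent.BdO.Defs

/-!
MP_7fa120_al, bounded odd part. The normal 2-subgroup of bounded index, and generators modulo it.

`exists_core`. Let `|H| = 2 ^ a * k`, `k ≤ K` odd, `P` a Sylow 2-subgroup of `H`; its index in `H` is `k`. `H` acts on the `k` cosets of `P`
(`Subgroup.normalCore`, `MulAction.toPermHom`); the kernel `N ≤ P` is a normal 2-subgroup whose index is at most `k ! ≤ K !`.
`chain_gen`. `N` is normalised by `H`, `T ⊆ H`, the index of `N` in `H` at most `q`. Choose elements of `T` one after the other, each one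
outside `closure S ⊔ N`, as long as possible. Every step makes the group `closure S ⊔ N` (between `N` and `H`) larger, so its index over
`N` at least doubles; hence there are at most `Nat.log 2 q` steps, and in the end `T ⊆ closure S ⊔ N`.
-/

set_option autoImplicit false

namespace Pool.Agent.BdO

open Equiv Pool.Agent.NilS

theorem exists_core {Ω : Type} [Finite Ω] {K : ℕ} (H : Subgroup (Perm Ω)) (h : Bdd K H) :
    ∃ N : Subgroup (Perm Ω), N ≤ H ∧ Two N ∧ Nz H N ∧ Nat.card H ≤ K.factorial * Nat.card N := by
  classical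
  have : Finite H := inferInstance
  have : Fact (Nat.Prime 2) := ⟨Nat.prime_two⟩
  obtain ⟨a, k, hcard, hodd, hk⟩ := h
  obtain ⟨P⟩ : Nonempty (Sylow 2 H) := inferInstance
  have hP : Nat.card P = 2 ^ a := by
    rw [P.card_eq_multiplicity, hcard]
    congr 1
    have h0 : k ≠ 0 := by
      rintro rfl
      exact absurd hodd (by decide)
    rw [Nat.factorization_mul (by positivity) h0]
    have h1 : k.factorization 2 = 0 :=
      Nat.factorization_eq_zero_of_not_dvd fun hd => by
        have := Nat.odd_iff.1 hodd
        omega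
    rw [Finsupp.add_apply, h1, Nat.Prime.factorization_pow Nat.prime_two]
    simp
  have hind : (P : Subgroup H).index = k := by
    have h1 := (P : Subgroup H).card_mul_index
    rw [hcard] at h1
    have h2 : Nat.card (P : Subgroup H) = 2 ^ a := hP
    rw [h2] at h1
    exact Nat.eq_of_mul_eq_mul_left (by positivity) h1
  set C : Subgroup H := (P : Subgroup H).normalCore with hC
  have hCi : C.index ≤ K.factorial := by
    have h1 : C = (MulAction.toPermHom H (H ⧸ (P : Subgroup H))).ker := Subgroup.normalCore_eq_ker _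
    rw [h1, Subgroup.index_ker]
    have h2 : Nat.card (MulAction.toPermHom H (H ⧸ (P : Subgroup H))).range ≤
        Nat.card (Perm (H ⧸ (P : Subgroup H))) := Subgroup.card_le_card_group _
    rw [Nat.card_perm] at h2
    have h3 : Nat.card (H ⧸ (P : Subgroup H)) = k := hind
    rw [h3] at h2
    exact h2.trans (Nat.factorial_le hk)
  have hNC : Nat.card (C.map H.subtype) = Nat.card C := by
    exact Nat.card_congr (C.equivMapOfInjective H.subtype H.subtype_injective).symm.toEquiv
  refine ⟨C.map H.subtype, Subgroup.map_subtype_le C, ?_, ?_, ?_⟩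
  · have h1 : Nat.card C ∣ 2 ^ a := by
      rw [← hP]
      exact Subgroup.card_dvd_of_le (Subgroup.normalCore_le _)
    obtain ⟨j, _, hj⟩ := (Nat.dvd_prime_pow Nat.prime_two).1 h1
    exact ⟨j, by rw [hNC, hj]⟩
  · rintro l hl o ⟨c, hc, rfl⟩
    refine ⟨⟨l, hl⟩ * c * ⟨l, hl⟩⁻¹, ?_, rfl⟩
    exact (Subgroup.normalCore_normal (P : Subgroup H)).conj_mem c hc ⟨l, hl⟩
  · rw [hNC, ← C.card_mul_index, mul_comm]
    exact Nat.mul_le_mul_right _ hCi

theorem chain_gen {G : Type} [Group G] [Finite G] (H N : Subgroup G) (hNH : N ≤ H) (hn : Nz H N) (q : ℕ)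
    (hq : Nat.card H ≤ q * Nat.card N) (T : Set G) (hT : T ⊆ H) :
    ∃ S : Finset G, (S : Set G) ⊆ T ∧ S.card ≤ Nat.log 2 q ∧ T ⊆ (Subgroup.closure (S : Set G) ⊔ N : Subgroup G) := by
  classical
  have hN0 : 0 < Nat.card N := Nat.card_pos
  have hPlog : ∀ S : Finset G, (S : Set G) ⊆ T → 2 ^ S.card * Nat.card N ≤
      Nat.card (Subgroup.closure (S : Set G) ⊔ N : Subgroup G) → S.card ≤ Nat.log 2 q := by
    intro S h1 h2
    have h3 : (Subgroup.closure (S : Set G) ⊔ N : Subgroup G) ≤ H :=
      sup_le ((Subgroup.closure_le _).2 (h1.trans hT)) hNH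
    have h4 := Subgroup.card_le_of_le h3
    have h5 : 2 ^ S.card * Nat.card N ≤ q * Nat.card N := h2.trans (h4.trans hq)
    have h6 : 2 ^ S.card ≤ q := Nat.le_of_mul_le_mul_right h5 hN0
    exact Nat.le_log_of_pow_le (by norm_num) h6
  by_contra hcon
  have key : ∀ n : ℕ, ∃ S : Finset G, (S : Set G) ⊆ T ∧ 2 ^ S.card * Nat.card N ≤
      Nat.card (Subgroup.closure (S : Set G) ⊔ N : Subgroup G) ∧ S.card = n := by
    intro n
    induction n with
    | zero =>
      refine ⟨∅, by simp, ?_, rfl⟩
      rw [Finset.card_empty, pow_zero, one_mul]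
      exact Subgroup.card_le_of_le le_sup_right
    | succ n ih =>
      obtain ⟨S, hS1, hS2, hS3⟩ := ih
      have h1 : ¬ T ⊆ (Subgroup.closure (S : Set G) ⊔ N : Subgroup G) := fun h2 =>
        hcon ⟨S, hS1, hPlog S hS1 hS2, h2⟩
      obtain ⟨t, htT, ht⟩ := Set.not_subset.1 h1
      have htS : t ∉ S := fun h2 => ht ((le_sup_left : Subgroup.closure (S : Set G) ≤ _)
        (Subgroup.subset_closure h2))
      refine ⟨insert t S, ?_, ?_, by rw [Finset.card_insert_of_notMem htS, hS3]⟩
      · rw [Finset.coe_insert]
        exact Set.insert_subset htT hS1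
      · rw [Finset.card_insert_of_notMem htS]
        have hle : (Subgroup.closure (S : Set G) ⊔ N : Subgroup G) ≤
            (Subgroup.closure ((insert t S : Finset G) : Set G) ⊔ N : Subgroup G) := by
          refine sup_le_sup_right (Subgroup.closure_mono ?_) _
          rw [Finset.coe_insert]
          exact Set.subset_insert _ _
        have hne : (Subgroup.closure (S : Set G) ⊔ N : Subgroup G) ≠
            (Subgroup.closure ((insert t S : Finset G) : Set G) ⊔ N : Subgroup G) := by
          intro he
          apply ht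
          rw [he]
          exact (le_sup_left : Subgroup.closure ((insert t S : Finset G) : Set G) ≤ _)
            (Subgroup.subset_closure (by simp))
        have hdvd := Subgroup.card_dvd_of_le hle
        obtain ⟨c, hc⟩ := hdvd
        have hpos : 0 < Nat.card (Subgroup.closure ((insert t S : Finset G) : Set G) ⊔ N : Subgroup G) :=
          Nat.card_pos
        have hc2 : 2 ≤ c := by
          by_contra hlt
          have h3 : c = 0 ∨ c = 1 := by omega
          rcases h3 with h3 | h3
          · rw [h3, mul_zero] at hc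
            omega
          · rw [h3, mul_one] at hc
            exact hne (Subgroup.eq_of_le_of_card_ge hle hc.le)
        rw [hc]
        calc 2 ^ (S.card + 1) * Nat.card N = (2 ^ S.card * Nat.card N) * 2 := by ring
          _ ≤ _ := Nat.mul_le_mul hS2 hc2
  obtain ⟨S, h1, h2, h3⟩ := key (Nat.log 2 q + 1)
  have := hPlog S h1 h2
  omega

end Pool.Agent.BdO
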