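import Pool.Agent.BdO.Defs

/-!
MP_7fa120_al, bounded odd part. An element of odd prime power order normalising a 2-group moves half of the points of every
orbit on which it is nontrivial.

`orb_moved`. Let `E` be an orbit of `N` with a point moved by `c`. `c E` is an orbit of `N` as well (`c` normalises `N`; `N` is finite, so
`c N c⁻¹ = N`). If `c E ≠ E` they are disjoint and all points of `E` are moved. Let `c E = E` and let `F` be the set of the points of `E`
fixed by `c`. If `F` is empty we are done. Otherwise the centraliser `N_c` of `c` in `N` acts transitively on `F`: let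
`x, y ∈ F`, and `T = {g ∈ N : g x = y}`, a coset of the stabilizer of `x` in `N`, so its cardinality is a power of two (not zero);
the group generated by `c` acts on `T` by conjugation (`c g c⁻¹ x = c g x = c y = y`), and it is an `r`-group, `r` odd, so it has a fixed
point in `T` (`IsPGroup.card_modEq_card_fixedPoints`), an element `g ∈ N_c` with `g x = y`. So `F.card` divides the order of a
2-group, it is a power of two; so is `E.card`; and `F.card < E.card`, so `2 * F.card ≤ E.card`.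
`moved_union`. The set on the left is the union of the orbits of `N` which contain a point moved by `c`; sum up `orb_moved`.
-/

set_option autoImplicit false

namespace Pool.Agent.BdO

open Equiv Pool.Agent.NilS

private lemma inv_app {n : ℕ} (g : Perm (Fin n)) (x : Fin n) : g⁻¹ (g x) = x := by
  rw [← Perm.mul_apply, inv_mul_cancel, Perm.one_apply]

/-- The length of an orbit of a 2-group is a power of two. -/
private lemma orb_pow {n : ℕ} (N : Subgroup (Perm (Fin n))) (hN : Two N) (E : Finset (Fin n)) (hE : Orb N E) :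
    ∃ a : ℕ, E.card = 2 ^ a := by
  obtain ⟨k, hk⟩ := hN
  obtain ⟨hinv, ⟨x, hx⟩, htr⟩ := hE
  have h1 : MulAction.orbit N x = (E : Set (Fin n)) := by
    ext y
    simp only [MulAction.mem_orbit_iff, Finset.mem_coe]
    constructor
    · rintro ⟨g, rfl⟩
      exact hinv g.1 g.2 x hx
    · intro hy
      obtain ⟨h, hh, he⟩ := htr x hx y hy
      exact ⟨⟨h, hh⟩, he⟩
  have h2 : E.card ∣ 2 ^ k := by
    have h3 := MulAction.index_stabilizer (G := N) (x := x)
    rw [h1, Set.ncard_coe_finset] at h3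
    rw [← hk, ← h3]
    exact Subgroup.index_dvd_card _
  obtain ⟨a, _, ha⟩ := (Nat.dvd_prime_pow Nat.prime_two).1 h2
  exact ⟨a, ha⟩

/-- The conjugates by powers. -/
private lemma conj_pow {n : ℕ} (N : Subgroup (Perm (Fin n))) (c : Perm (Fin n)) (x y : Fin n)
    (hn : ∀ g ∈ N, c * g * c⁻¹ ∈ N) (hx : c x = x) (hy : c y = y) :
    ∃ σ : Perm {g : Perm (Fin n) // g ∈ N ∧ g x = y},
      ∀ (m : ℕ) (g : {g : Perm (Fin n) // g ∈ N ∧ g x = y}), ((σ ^ m) g).1 = c ^ m * g.1 * (c ^ m)⁻¹ := by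
  have hx' : c⁻¹ x = x := by rw [Perm.inv_eq_iff_eq, hx]
  let f : {g : Perm (Fin n) // g ∈ N ∧ g x = y} → {g : Perm (Fin n) // g ∈ N ∧ g x = y} := fun g =>
    ⟨c * g.1 * c⁻¹, hn g.1 g.2.1, by rw [Perm.mul_apply, Perm.mul_apply, hx', g.2.2, hy]⟩
  have hf : Function.Injective f := by
    intro g h hgh
    have h1 : c * g.1 * c⁻¹ = c * h.1 * c⁻¹ := congrArg Subtype.val hgh
    exact Subtype.ext (mul_left_cancel (mul_right_cancel h1))
  let σ : Perm {g : Perm (Fin n) // g ∈ N ∧ g x = y} := Equiv.ofBijective f (Finite.injective_iff_bijective.1 hf)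
  refine ⟨σ, fun m => ?_⟩
  induction m with
  | zero => intro g; simp
  | succ m ih =>
    intro g
    rw [pow_succ, Perm.mul_apply, ih]
    have h2 : (σ g).1 = c * g.1 * c⁻¹ := rfl
    rw [h2, pow_succ, mul_inv_rev]
    simp only [mul_assoc]

private lemma cen_trans {n : ℕ} (N : Subgroup (Perm (Fin n))) (hN : Two N) (c : Perm (Fin n)) (hc : Opp c)
    (hn : ∀ g ∈ N, c * g * c⁻¹ ∈ N) (x y : Fin n) (hx : c x = x) (hy : c y = y) (hT : ∃ g ∈ N, g x = y) :
    ∃ g ∈ N, c * g = g * c ∧ g x = y := by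
  classical
  obtain ⟨k, hk⟩ := hN
  obtain ⟨r, j, hr, hr2, ho⟩ := hc
  obtain ⟨g0, hg0, hg0x⟩ := hT
  obtain ⟨σ, hσ⟩ := conj_pow N c x y hn hx hy
  have : Fact r.Prime := ⟨hr⟩
  have : Fintype {g : Perm (Fin n) // g ∈ N ∧ g x = y} := Fintype.ofFinite _
  have hcard : Nat.card {g : Perm (Fin n) // g ∈ N ∧ g x = y} = Nat.card (fx N {x}) := by
    refine Nat.card_congr
      { toFun := fun g => ⟨g0⁻¹ * g.1, ⟨N.mul_mem (N.inv_mem hg0) g.2.1, fun z hz => by
          rw [Finset.mem_singleton] at hz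
          rw [hz, Perm.mul_apply, g.2.2, Perm.inv_eq_iff_eq, hg0x]⟩⟩
        invFun := fun g => ⟨g0 * g.1, N.mul_mem hg0 g.2.1, by
          rw [Perm.mul_apply, g.2.2 x (Finset.mem_singleton_self x), hg0x]⟩
        left_inv := fun g => Subtype.ext (by simp)
        right_inv := fun g => Subtype.ext (by simp) }
  have hdvd : Nat.card (fx N {x}) ∣ 2 ^ k := by
    rw [← hk]
    exact Subgroup.card_dvd_of_le (fun g hg => hg.1)
  have hnd : ¬ r ∣ Fintype.card {g : Perm (Fin n) // g ∈ N ∧ g x = y} := by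
    intro h
    rw [← Nat.card_eq_fintype_card, hcard] at h
    exact hr2 ((Nat.prime_dvd_prime_iff_eq hr Nat.prime_two).1 (hr.dvd_of_dvd_pow (h.trans hdvd)))
  have hpow : σ ^ r ^ j = 1 := by
    ext g : 1
    apply Subtype.ext
    rw [hσ, ← ho, pow_orderOf_eq_one]
    simp
  obtain ⟨g, hg⟩ := Equiv.Perm.exists_fixed_point_of_prime hnd hpow
  refine ⟨g.1, g.2.1, ?_, g.2.2⟩
  have h1 := hσ 1 g
  rw [pow_one, hg, pow_one] at h1
  calc c * g.1 = (c * g.1 * c⁻¹) * c := by group
    _ = g.1 * c := by rw [← h1]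

theorem orb_moved {n : ℕ} (N : Subgroup (Perm (Fin n))) (hN : Two N) (c : Perm (Fin n)) (hc : Opp c)
    (hn : ∀ g ∈ N, c * g * c⁻¹ ∈ N) (E : Finset (Fin n)) (hE : Orb N E) (hm : ∃ x ∈ E, c x ≠ x) :
    E.card ≤ 2 * (E.filter (fun x => c x ≠ x)).card := by
  classical
  have hinv := hE.1
  have htr := hE.2.2
  by_cases h1 : ∃ x ∈ E, c x ∉ E
  · obtain ⟨x, hx, hcx⟩ := h1
    have h2 : ∀ y ∈ E, c y ∉ E := by
      intro y hy hcy
      obtain ⟨g, hg, hgy⟩ := htr y hy x hx
      apply hcx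
      have h3 := hinv (c * g * c⁻¹) (hn g hg) (c y) hcy
      rw [Perm.mul_apply, Perm.mul_apply, inv_app, hgy] at h3
      exact h3
    have h4 : E.filter (fun x => c x ≠ x) = E := by
      apply Finset.filter_true_of_mem
      intro y hy h5
      exact h2 y hy (by rw [h5]; exact hy)
    rw [h4]
    omega
  · push Not at h1
    have hsplit : (E.filter (fun x => c x = x)).card + (E.filter (fun x => c x ≠ x)).card = E.card :=
      Finset.card_filter_add_card_filter_not (s := E) (fun x => c x = x)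
    have hlt : 0 < (E.filter (fun x => c x ≠ x)).card := by
      obtain ⟨x, hx, hxc⟩ := hm
      exact Finset.card_pos.2 ⟨x, Finset.mem_filter.2 ⟨hx, hxc⟩⟩
    rcases Finset.eq_empty_or_nonempty (E.filter (fun x => c x = x)) with h0 | h0
    · rw [h0, Finset.card_empty] at hsplit
      omega
    · let Nc : Subgroup (Perm (Fin n)) := N ⊓ Subgroup.centralizer {c}
      have hNc : ∀ g, g ∈ Nc ↔ g ∈ N ∧ c * g = g * c := by
        intro g
        rw [Subgroup.mem_inf, Subgroup.mem_centralizer_iff]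
        simp
      have hTwo : Two Nc := by
        obtain ⟨k, hk⟩ := hN
        have h2 : Nat.card Nc ∣ 2 ^ k := by
          rw [← hk]
          exact Subgroup.card_dvd_of_le inf_le_left
        obtain ⟨a, _, ha⟩ := (Nat.dvd_prime_pow Nat.prime_two).1 h2
        exact ⟨a, ha⟩
      have hOrb : Orb Nc (E.filter (fun x => c x = x)) := by
        refine ⟨?_, h0, ?_⟩
        · intro h hh x hx
          rw [Finset.mem_filter] at hx ⊢
          have h3 := (hNc h).1 hh
          refine ⟨hinv h h3.1 x hx.1, ?_⟩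
          rw [← Perm.mul_apply, h3.2, Perm.mul_apply, hx.2]
        · intro x hx y hy
          rw [Finset.mem_filter] at hx hy
          obtain ⟨g, hg, hgc, hgx⟩ := cen_trans N hN c hc hn x y hx.2 hy.2 (htr x hx.1 y hy.1)
          exact ⟨g, (hNc g).2 ⟨hg, hgc⟩, hgx⟩
      obtain ⟨a, ha⟩ := orb_pow N hN E hE
      obtain ⟨b, hb⟩ := orb_pow Nc hTwo _ hOrb
      have hab : 2 ^ b < 2 ^ a := by
        rw [← ha, ← hb]
        omega
      have hab2 : b < a := (Nat.pow_lt_pow_iff_right (by norm_num)).1 hab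
      have h5 : 2 ^ (b + 1) ≤ 2 ^ a := Nat.pow_le_pow_right (by norm_num) hab2
      rw [pow_succ, ← ha, ← hb] at h5
      omega

theorem moved_union {n : ℕ} (N : Subgroup (Perm (Fin n))) (hN : Two N) (c : Perm (Fin n)) (hc : Opp c)
    (hn : ∀ g ∈ N, c * g * c⁻¹ ∈ N) (B : Finset (Fin n)) (hB : ∀ x ∈ B, ∃ g ∈ N, c (g x) ≠ g x) :
    B.card ≤ 2 * c.support.card := by
  classical
  let O : Fin n → Finset (Fin n) := fun x => Finset.univ.filter (fun y => ∃ g ∈ N, g x = y)
  have hO : ∀ x y, y ∈ O x ↔ ∃ g ∈ N, g x = y := fun x y => by simp [O]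
  have hself : ∀ x, x ∈ O x := fun x => (hO x x).2 ⟨1, N.one_mem, rfl⟩
  have heq : ∀ x y, y ∈ O x → O y = O x := by
    intro x y hy
    obtain ⟨g, hg, hgx⟩ := (hO x y).1 hy
    ext z
    rw [hO, hO]
    constructor
    · rintro ⟨h, hh, hz⟩
      exact ⟨h * g, N.mul_mem hh hg, by rw [Perm.mul_apply, hgx, hz]⟩
    · rintro ⟨h, hh, hz⟩
      refine ⟨h * g⁻¹, N.mul_mem hh (N.inv_mem hg), ?_⟩
      rw [Perm.mul_apply, ← hgx, inv_app, hz]
  have horb : ∀ x, Orb N (O x) := by
    intro x
    refine ⟨?_, ⟨x, hself x⟩, ?_⟩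
    · intro h hh y hy
      obtain ⟨g, hg, hgx⟩ := (hO x y).1 hy
      exact (hO x (h y)).2 ⟨h * g, N.mul_mem hh hg, by rw [Perm.mul_apply, hgx]⟩
    · intro y hy z hz
      have h1 := heq x y hy
      rw [← h1] at hz
      exact (hO y z).1 hz
  let U : Finset (Fin n) := Finset.univ.filter (fun x => ∃ g ∈ N, c (g x) ≠ g x)
  have hU : ∀ x, x ∈ U ↔ ∃ g ∈ N, c (g x) ≠ g x := fun x => by simp [U]
  have hBU : B ⊆ U := fun x hx => (hU x).2 (hB x hx)
  have hfib : ∀ x0 ∈ U, U.filter (fun x => O x = O x0) = O x0 := by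
    intro x0 hx0
    ext x
    rw [Finset.mem_filter]
    constructor
    · rintro ⟨_, h⟩
      rw [← h]
      exact hself x
    · intro hx
      refine ⟨?_, heq x0 x hx⟩
      obtain ⟨h, hh, hhx⟩ := (hO x0 x).1 hx
      obtain ⟨g, hg, hgx⟩ := (hU x0).1 hx0
      refine (hU x).2 ⟨g * h⁻¹, N.mul_mem hg (N.inv_mem hh), ?_⟩
      rw [Perm.mul_apply, ← hhx, inv_app]
      exact hgx
  have hmoved : ∀ x0 ∈ U, ∃ x ∈ O x0, c x ≠ x := by
    intro x0 hx0
    obtain ⟨g, hg, hgx⟩ := (hU x0).1 hx0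
    exact ⟨g x0, (hO x0 _).2 ⟨g, hg, rfl⟩, hgx⟩
  have h1 : U.card = ∑ E ∈ U.image O, (U.filter (fun x => O x = E)).card :=
    Finset.card_eq_sum_card_fiberwise (fun x hx => Finset.mem_image_of_mem O hx)
  have h2 : (U.filter (fun x => c x ≠ x)).card =
      ∑ E ∈ U.image O, ((U.filter (fun x => c x ≠ x)).filter (fun x => O x = E)).card :=
    Finset.card_eq_sum_card_fiberwise (fun x hx => Finset.mem_image_of_mem O (Finset.mem_filter.1 hx).1)
  have h3 : U.card ≤ 2 * (U.filter (fun x => c x ≠ x)).card := by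
    rw [h1, h2, Finset.mul_sum]
    apply Finset.sum_le_sum
    intro E hE
    obtain ⟨x0, hx0, rfl⟩ := Finset.mem_image.1 hE
    have h4 : (U.filter (fun x => c x ≠ x)).filter (fun x => O x = O x0) =
        (O x0).filter (fun x => c x ≠ x) := by
      have h6 := hfib x0 hx0
      ext x
      have h7 : x ∈ U.filter (fun x => O x = O x0) ↔ x ∈ O x0 := by rw [h6]
      rw [Finset.mem_filter] at h7
      constructor
      · intro h
        have h8 := Finset.mem_filter.1 h
        have h9 := Finset.mem_filter.1 h8.1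
        exact Finset.mem_filter.2 ⟨h7.1 ⟨h9.1, h8.2⟩, h9.2⟩
      · intro h
        have h8 := Finset.mem_filter.1 h
        have h9 := h7.2 h8.1
        exact Finset.mem_filter.2 ⟨Finset.mem_filter.2 ⟨h9.1, h8.2⟩, h9.2⟩
    rw [h4, hfib x0 hx0]
    exact orb_moved N hN c hc hn (O x0) (horb x0) (hmoved x0 hx0)
  have h5 : U.filter (fun x => c x ≠ x) ⊆ c.support := by
    intro x hx
    exact Perm.mem_support.2 (Finset.mem_filter.1 hx).2
  calc B.card ≤ U.card := Finset.card_le_card hBU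
    _ ≤ 2 * (U.filter (fun x => c x ≠ x)).card := h3
    _ ≤ 2 * c.support.card := Nat.mul_le_mul_left 2 (Finset.card_le_card h5)

end Pool.Agent.BdO
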