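import Pool.Agent.BdO.Dich
import Pool.Agent.BdO.Glaub

/-!
MP_7fa120_al, bounded odd part. The dichotomy for a 2-group of permutations normalised by `c`.

Proof. Apply `dich` to the group `N` (a subtype) and the automorphism `φ = ` conjugation by `c`; `orderOf c = r ^ j`, so `φ ^ (r ^ j) = 1`.
First alternative: the elements of `S` are `x = g * (c * g * c⁻¹)⁻¹` with `g ∈ N`; such an element fixes every point `y` such that `c` fixes the
`N`-orbit of `y` pointwise (compute `x y = g c g⁻¹ c⁻¹ y = y`), so it moves only points of the set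
`B = {y : ∃ g ∈ N, c (g y) ≠ g y}`, and `B.card ≤ 2 * c.support.card` by `moved_union`. The fixed elements of `φ` are the elements of `N`
commuting with `c`. Second alternative: transfer to subgroups `M` of `Perm (Fin n)` contained in `N` (for `L` not contained in `N` use
`L ⊓ N`).
-/

set_option autoImplicit false

namespace Pool.Agent.BdO

open Equiv Pool.Agent.NilS

/-- Conjugation by `c` on `N`. -/
private def cj {n : ℕ} (N : Subgroup (Perm (Fin n))) (c : Perm (Fin n)) (hn : ∀ g ∈ N, c * g * c⁻¹ ∈ N) : N →* N where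
  toFun g := ⟨c * g.1 * c⁻¹, hn g.1 g.2⟩
  map_one' := by
    apply Subtype.ext
    simp
  map_mul' x y := by
    apply Subtype.ext
    simp only [Subgroup.coe_mul]
    group

private theorem cj_inj {n : ℕ} (N : Subgroup (Perm (Fin n))) (c : Perm (Fin n)) (hn : ∀ g ∈ N, c * g * c⁻¹ ∈ N) :
    Function.Injective (cj N c hn) := by
  intro x y h
  have h1 : c * x.1 * c⁻¹ = c * y.1 * c⁻¹ := Subtype.ext_iff.mp h
  apply Subtype.ext
  exact mul_left_cancel (mul_right_cancel h1)

private noncomputable def cja {n : ℕ} (N : Subgroup (Perm (Fin n))) (c : Perm (Fin n)) (hn : ∀ g ∈ N, c * g * c⁻¹ ∈ N) :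
    MulAut N :=
  MulEquiv.ofBijective (cj N c hn) (Finite.injective_iff_bijective.mp (cj_inj N c hn))

private theorem cja_val {n : ℕ} (N : Subgroup (Perm (Fin n))) (c : Perm (Fin n)) (hn : ∀ g ∈ N, c * g * c⁻¹ ∈ N) (g : N) :
    ((cja N c hn g : N) : Perm (Fin n)) = c * g.1 * c⁻¹ := rfl

private theorem cja_pow {n : ℕ} (N : Subgroup (Perm (Fin n))) (c : Perm (Fin n)) (hn : ∀ g ∈ N, c * g * c⁻¹ ∈ N) (k : ℕ)
    (g : N) : (((cja N c hn ^ k) g : N) : Perm (Fin n)) = c ^ k * g.1 * (c ^ k)⁻¹ := by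
  induction k generalizing g with
  | zero => simp
  | succ k ih =>
    rw [pow_succ, MulAut.mul_apply, ih, cja_val, pow_succ]
    group

theorem dich_perm {n : ℕ} (N : Subgroup (Perm (Fin n))) (hN : Two N) (c : Perm (Fin n)) (hc : Opp c)
    (hn : ∀ g ∈ N, c * g * c⁻¹ ∈ N) (b : ℕ) :
    (∃ (S : Finset (Perm (Fin n))) (B : Finset (Fin n)), S.card ≤ b ∧ B.card ≤ 2 * c.support.card ∧
      (∀ x ∈ S, ∀ y, y ∉ B → x y = y) ∧
      Subgroup.closure ({g | g ∈ N ∧ c * g = g * c} ∪ (S : Set (Perm (Fin n)))) = N) ∨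
    (∃ g : ℕ, b < g * orderOf c ∧ 2 ^ ((g / 2) * (g - g / 2)) ≤
      Nat.card {M : Subgroup (Perm (Fin n)) // M ≤ N ∧
        ∀ L : Subgroup (Perm (Fin n)), M ≤ L → (∀ x ∈ L, c * x * c⁻¹ ∈ L) → N ≤ L}) := by
  classical
  obtain ⟨r, j, hr, hr2, ho⟩ := hc
  obtain ⟨k, hk⟩ := hN
  have hp : IsPGroup 2 N := IsPGroup.of_card hk
  have hφ : cja N c hn ^ (r ^ j) = 1 := by
    apply MulEquiv.ext
    intro g
    apply Subtype.ext
    rw [cja_pow, ← ho, pow_orderOf_eq_one]
    simp
  rcases dich N hp (cja N c hn) r j hr hr2 hφ b with ⟨S, hS, hS2, hS3⟩ | ⟨g, hg, hg2⟩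
  · left
    refine ⟨S.map ⟨Subtype.val, Subtype.val_injective⟩, Finset.univ.filter (fun y => ∃ g ∈ N, c (g y) ≠ g y), ?_, ?_, ?_, ?_⟩
    · rw [Finset.card_map]
      exact hS
    · refine moved_union N ⟨k, hk⟩ c ⟨r, j, hr, hr2, ho⟩ hn _ ?_
      intro x hx
      exact (Finset.mem_filter.mp hx).2
    · intro x hx y hy
      rw [Finset.mem_map] at hx
      obtain ⟨x', hx', rfl⟩ := hx
      obtain ⟨g, rfl⟩ := hS2 x' hx'
      have hy' : ∀ g ∈ N, c (g y) = g y := by
        intro g hg
        by_contra hne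
        exact hy (Finset.mem_filter.mpr ⟨Finset.mem_univ _, g, hg, hne⟩)
      have h1 : c⁻¹ y = y := by
        have := hy' 1 N.one_mem
        rw [Perm.one_apply] at this
        rw [Perm.inv_eq_iff_eq]
        exact this.symm
      have h2 := hy' (g.1)⁻¹ (N.inv_mem g.2)
      have h3 : ((g * (cja N c hn g)⁻¹ : N) : Perm (Fin n)) = g.1 * c * (g.1)⁻¹ * c⁻¹ := by
        rw [Subgroup.coe_mul, Subgroup.coe_inv, cja_val]
        group
      show ((g * (cja N c hn g)⁻¹ : N) : Perm (Fin n)) y = y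
      rw [h3, Perm.mul_apply, Perm.mul_apply, Perm.mul_apply, h1, h2]
      rw [← Perm.mul_apply, mul_inv_cancel, Perm.one_apply]
    · have h1 := congrArg (Subgroup.map N.subtype) hS3
      rw [MonoidHom.map_closure, ← MonoidHom.range_eq_map, Subgroup.range_subtype] at h1
      have h2 : (N.subtype '' ({g : N | cja N c hn g = g} ∪ (S : Set N)) : Set (Perm (Fin n))) =
          {g | g ∈ N ∧ c * g = g * c} ∪ ((S.map ⟨Subtype.val, Subtype.val_injective⟩ : Finset (Perm (Fin n))) : Set (Perm (Fin n))) := by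
        rw [Set.image_union, Finset.coe_map]
        refine congrArg₂ _ ?_ rfl
        ext x
        simp only [Set.mem_image, Set.mem_ofPred_eq, Subgroup.coe_subtype]
        constructor
        · rintro ⟨g, hg, rfl⟩
          refine ⟨g.2, ?_⟩
          have := Subtype.ext_iff.mp hg
          rw [cja_val] at this
          exact mul_inv_eq_iff_eq_mul.mp this
        · rintro ⟨hx, hx2⟩
          refine ⟨⟨x, hx⟩, ?_, rfl⟩
          apply Subtype.ext
          rw [cja_val]
          exact mul_inv_eq_iff_eq_mul.mpr hx2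
      rw [← h2]
      exact h1
  · right
    refine ⟨g, by rw [ho]; exact hg, hg2.trans ?_⟩
    refine Nat.card_le_card_of_injective
      (fun M : {M : Subgroup N // ∀ L : Subgroup N, M ≤ L → (∀ x ∈ L, cja N c hn x ∈ L) → L = ⊤} =>
        (⟨M.1.map N.subtype, ?_, ?_⟩ : {M : Subgroup (Perm (Fin n)) // M ≤ N ∧
        ∀ L : Subgroup (Perm (Fin n)), M ≤ L → (∀ x ∈ L, c * x * c⁻¹ ∈ L) → N ≤ L})) ?_
    · exact Subgroup.map_subtype_le M.1
    · intro L hL hL2
      have h1 := M.2 (L.subgroupOf N) (Subgroup.map_le_iff_le_comap.mp hL) ?_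
      · exact Subgroup.subgroupOf_eq_top.mp h1
      · intro x hx
        rw [Subgroup.mem_subgroupOf] at hx ⊢
        rw [cja_val]
        exact hL2 _ hx
    · intro M M' h
      apply Subtype.ext
      have h1 : M.1.map N.subtype = M'.1.map N.subtype := Subtype.ext_iff.mp h
      exact Subgroup.map_injective N.subtype_injective h1

end Pool.Agent.BdO
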