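import Pool.Agent.BdO.Glaub

/-!
MP_7fa120_al, bounded odd part. The support of `oddGen H`.

Proof. Let `B` be the set of the points `x` such that `c (g x) ≠ g x` for some `c ∈ S`, `g ∈ N`. By `moved_union` (for every `c ∈ S`)
`B.card ≤ ∑_(c ∈ S) 2 * c.support.card ≤ 2 * J * σ`. `B` is a union of orbits of `N`. Let `E` be an orbit of `N` which is disjoint from
`B`: then all `c ∈ S` fix `E` pointwise. Let `g ∈ H` with `Opp g`. Then `g ∈ oddGen H ≤ closure S ⊔ N`, and as `N` is normalised by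
`closure S ≤ H`, `g = w * v` with `w ∈ closure S`, `v ∈ N`. On `E`, `w` is the identity and `v` preserves `E`, so `g` acts on `E` as `v`;
the order of the permutation `g` of `E` is odd (it divides the order of `g`), that of `v` is a power of two (`v ∈ N`), so `g` is the
identity on `E` (from `g x = v x` on `E`: `g ^ m = 1` with `m` odd gives `v ^ m` trivial on `E`, `v ^ (2 ^ a) = 1`). So all the generators of
`oddGen H` fix the points outside `B`.
-/

set_option autoImplicit false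

namespace Pool.Agent.BdO

open Equiv Pool.Agent.NilS

/-- the permutations which agree on the orbit of `x` with an element of `N` -/
private def agr {n : ℕ} (N : Subgroup (Perm (Fin n))) (x : Fin n) : Subgroup (Perm (Fin n)) where
  carrier := {u | ∃ v ∈ N, ∀ h ∈ N, u (h x) = v (h x)}
  mul_mem' := by
    rintro a b ⟨v, hv, h1⟩ ⟨w, hw, h2⟩
    refine ⟨v * w, N.mul_mem hv hw, fun h hh => ?_⟩
    rw [Perm.mul_apply, Perm.mul_apply, h2 h hh, ← Perm.mul_apply w h, h1 _ (N.mul_mem hw hh)]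
  one_mem' := ⟨1, N.one_mem, fun h _ => rfl⟩
  inv_mem' := by
    rintro a ⟨v, hv, h1⟩
    refine ⟨v⁻¹, N.inv_mem hv, fun h hh => ?_⟩
    rw [Perm.inv_eq_iff_eq, ← Perm.mul_apply v⁻¹ h, h1 _ (N.mul_mem (N.inv_mem hv) hh), ← Perm.mul_apply,
      mul_inv_cancel_left]

/-- an element of odd order which agrees with an element of a 2-group on the orbit of `x` fixes `x` -/
private theorem fix_of_agr {n : ℕ} {N : Subgroup (Perm (Fin n))} (hN : Two N) {x : Fin n}
    {g : Perm (Fin n)} (hg : Opp g) (h : g ∈ agr N x) : g x = x := by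
  obtain ⟨v, hv, hgv⟩ := h
  obtain ⟨k, hk⟩ := hN
  obtain ⟨r, j, hr, hr2, ho⟩ := hg
  have h1 : orderOf v ∣ 2 ^ k := hk ▸ Subgroup.orderOf_dvd_natCard N hv
  have hodd : Odd (orderOf g) := by
    rw [ho]
    exact (hr.odd_of_ne_two hr2).pow
  have hcop : (orderOf g).Coprime (orderOf v) :=
    Nat.Coprime.coprime_dvd_right h1 (Nat.Coprime.pow_right k (Nat.coprime_two_right.2 hodd))
  obtain ⟨a, ha1, ha2⟩ := Nat.chineseRemainder hcop 1 0
  have hpow : ∀ a : ℕ, (g ^ a) x = (v ^ a) x := by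
    intro a
    induction a with
    | zero => rfl
    | succ a ih =>
      rw [pow_succ', Perm.mul_apply, ih, hgv _ (N.pow_mem hv a), pow_succ', Perm.mul_apply]
  have h4 := hpow a
  have h5 : g ^ a = g ^ 1 := pow_eq_pow_iff_modEq.2 ha1
  have h6 : v ^ a = v ^ 0 := pow_eq_pow_iff_modEq.2 ha2
  rw [h5, h6, pow_one, pow_zero] at h4
  exact h4

theorem supp_bound {n σ J : ℕ} (H N : Subgroup (Perm (Fin n))) (hN : Two N) (hNH : N ≤ H) (hn : Nz H N)
    (S : Finset (Perm (Fin n))) (hS : ∀ g ∈ S, g ∈ H ∧ Opp g) (hSc : S.card ≤ J)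
    (hgen : oddGen H ≤ Subgroup.closure (S : Set (Perm (Fin n))) ⊔ N) (hσ : ∀ g ∈ S, g.support.card ≤ σ) :
    ∃ B : Finset (Fin n), B.card ≤ 2 * J * σ ∧ ∀ g ∈ oddGen H, ∀ x, x ∉ B → g x = x := by
  classical
  refine ⟨S.biUnion fun c => Finset.univ.filter fun x => ∃ g ∈ N, c (g x) ≠ g x, ?_, ?_⟩
  · calc (S.biUnion fun c => Finset.univ.filter fun x => ∃ g ∈ N, c (g x) ≠ g x).card
        ≤ ∑ c ∈ S, (Finset.univ.filter fun x => ∃ g ∈ N, c (g x) ≠ g x).card := Finset.card_biUnion_le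
      _ ≤ ∑ _c ∈ S, 2 * σ := by
        refine Finset.sum_le_sum fun c hc => ?_
        exact (moved_union N hN c (hS c hc).2 (fun g hg => hn c (hS c hc).1 g hg) _
          (fun x hx => (Finset.mem_filter.1 hx).2)).trans (Nat.mul_le_mul_left 2 (hσ c hc))
      _ = S.card * (2 * σ) := by rw [Finset.sum_const, smul_eq_mul]
      _ ≤ J * (2 * σ) := Nat.mul_le_mul_right _ hSc
      _ = 2 * J * σ := by ring
  · intro g hg x hx
    have hfix : ∀ c ∈ S, ∀ h ∈ N, c (h x) = h x := by
      intro c hc h hh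
      by_contra hcon
      exact hx (Finset.mem_biUnion.2 ⟨c, hc, Finset.mem_filter.2 ⟨Finset.mem_univ x, h, hh, hcon⟩⟩)
    have hle : Subgroup.closure (S : Set (Perm (Fin n))) ⊔ N ≤ agr N x := by
      refine sup_le ((Subgroup.closure_le _).2 fun c hc => ?_) fun v hv => ⟨v, hv, fun h _ => rfl⟩
      exact ⟨1, N.one_mem, fun h hh => hfix c hc h hh⟩
    have hst : oddGen H ≤ MulAction.stabilizer (Perm (Fin n)) x := by
      refine (Subgroup.closure_le _).2 ?_
      rintro u ⟨hu, hu2⟩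
      exact fix_of_agr hN hu2 (hle (hgen (Subgroup.subset_closure ⟨hu, hu2⟩)))
    exact hst hg

end Pool.Agent.BdO
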