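import Pool.Agent.BdO.CntS
import Pool.Agent.BdO.CntA
import Pool.Agent.BdO.CntM
import Pool.Agent.BdO.SupB
import Pool.Agent.BdO.Core
import Pool.Agent.BdO.DichP

/-!
MP_7fa120_al, bounded odd part. The case analysis for even `n`.

Proof. Let `J = Nat.log 2 K !`, `H` with `Bdd K H`, not a 2-group. `exists_core` gives `N`. `chain_gen` with `q = K !` and
`T = {g ∈ H : Opp g}` gives `S` with at most `J` elements and `T ⊆ closure S ⊔ N`, so `oddGen H ≤ closure S ⊔ N`; `chain_gen` with `T = H` gives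
`S₂` with at most `J` elements and `closure (N ∪ S₂) = H`.
(S) If `g.support.card ≤ σ` for all `g ∈ S`: `supp_bound` gives `B` with at most `2 * J * σ` points, and `H` is counted by
`cnt_S` with `s = 2 * J * σ`.
(L) Otherwise let `c ∈ S` with `s = c.support.card > σ` (`s ≤ n`, `1 ≤ s`). `c ∈ H`, `Opp c`; the order of `c` is odd and divides the order
of `H`, so `orderOf c ≤ K`. `c` normalises `N`. Apply `dich_perm` with `b`. First alternative: the elements of `S` there are `S₁`, and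
`H = closure (N ∪ S₂) = closure ({g ∈ N : c g = g c} ∪ S₁ ∪ S₂)`, counted by `cnt_A` with this `s ∈ Icc σ n`. Second alternative:
`b < g' * orderOf c ≤ g' * K`, so `b / K ≤ g'` and `2 ^ ((b / K / 2) * (b / K - b / K / 2)) ≤ 2 ^ ((g' / 2) * (g' - g' / 2))` is a lower bound for
the number of the `M`, and `H` is counted by `cnt_M` with exponent `(b / K / 2) * (b / K - b / K / 2)`.
-/

set_option autoImplicit false

namespace Pool.Agent.BdO

open Equiv Pool.Agent.NilS

private theorem order_le {Ω : Type} [Finite Ω] {K : ℕ} (H : Subgroup (Perm Ω)) (h : Bdd K H) {c : Perm Ω} (hc : c ∈ H)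
    (ho : Opp c) : orderOf c ≤ K := by
  obtain ⟨a, k, hcard, hodd, hk⟩ := h
  obtain ⟨r, j, hr, hr2, hj⟩ := ho
  have h1 : orderOf c ∣ 2 ^ a * k := hcard ▸ Subgroup.orderOf_dvd_natCard H hc
  have h2 : (orderOf c).Coprime (2 ^ a) := by
    rw [hj]
    exact Nat.Coprime.pow_right a (Nat.coprime_two_right.2 (hr.odd_of_ne_two hr2).pow)
  have h3 : orderOf c ∣ k := h2.dvd_of_dvd_mul_left h1
  have h0 : 0 < k := by
    rcases Nat.eq_zero_or_pos k with rfl | h0
    · exact absurd hodd (by decide)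
    · exact h0
  exact (Nat.le_of_dvd h0 h3).trans hk

private theorem split {n : ℕ} (K σ b : ℕ) (H : Subgroup (Perm (Fin n))) (hB : Bdd K H) (h2 : ¬ Two H) :
    (¬ Two H ∧ ∃ B : Finset (Fin n), B.card ≤ 2 * Nat.log 2 K.factorial * σ ∧
      ∀ g ∈ oddGen H, ∀ x, x ∉ B → g x = x) ∨
    (∃ s ∈ Finset.Icc σ n, ∃ (N : Subgroup (Perm (Fin n))) (c : Perm (Fin n))
      (S₁ S₂ : Finset (Perm (Fin n))) (B : Finset (Fin n)), Two N ∧ Opp c ∧ orderOf c ≤ K ∧ c.support.card = s ∧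
      S₁.card ≤ b ∧ S₂.card ≤ Nat.log 2 K.factorial ∧ B.card ≤ 2 * s ∧ (∀ x ∈ S₁, ∀ y, y ∉ B → x y = y) ∧
      Subgroup.closure ({g | g ∈ N ∧ c * g = g * c} ∪ (S₁ : Set (Perm (Fin n))) ∪ (S₂ : Set (Perm (Fin n)))) = H) ∨
    (∃ (N : Subgroup (Perm (Fin n))) (c : Perm (Fin n))
      (S : Finset (Perm (Fin n))), Two N ∧ S.card ≤ Nat.log 2 K.factorial ∧ (∀ x ∈ N, c * x * c⁻¹ ∈ N) ∧
      Subgroup.closure ((N : Set (Perm (Fin n))) ∪ (S : Set (Perm (Fin n)))) = H ∧
      2 ^ ((b / K / 2) * (b / K - b / K / 2)) ≤ Nat.card {M : Subgroup (Perm (Fin n)) // M ≤ N ∧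
        ∀ L : Subgroup (Perm (Fin n)), M ≤ L → (∀ x ∈ L, c * x * c⁻¹ ∈ L) → N ≤ L}) := by
  classical
  obtain ⟨N, hNH, hN, hnz, hcard⟩ := exists_core H hB
  obtain ⟨S, hST, hSc, hS⟩ := chain_gen H N hNH hnz K.factorial hcard {g | g ∈ H ∧ Opp g} (fun g hg => hg.1)
  have hodd : oddGen H ≤ Subgroup.closure (S : Set (Perm (Fin n))) ⊔ N := (Subgroup.closure_le _).2 hS
  obtain ⟨S₂, hS₂T, hS₂c, hS₂⟩ := chain_gen H N hNH hnz K.factorial hcard (H : Set (Perm (Fin n))) subset_rfl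
  have hH : N ⊔ Subgroup.closure (S₂ : Set (Perm (Fin n))) = H := by
    apply le_antisymm
    · exact sup_le hNH ((Subgroup.closure_le _).2 hS₂T)
    · rw [sup_comm]
      exact hS₂
  by_cases hsm : ∀ g ∈ S, g.support.card ≤ σ
  · exact Or.inl ⟨h2, supp_bound H N hN hNH hnz S (fun g hg => hST hg) hSc hodd hsm⟩
  · right
    push Not at hsm
    obtain ⟨c, hcS, hcσ⟩ := hsm
    have hcH : c ∈ H ∧ Opp c := hST hcS
    have hcK := order_le H hB hcH.1 hcH.2
    have hcN : ∀ g ∈ N, c * g * c⁻¹ ∈ N := fun g hg => hnz c hcH.1 g hg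
    rcases dich_perm N hN c hcH.2 hcN b with ⟨S₁, B, hS₁c, hBc, hfix, hcl⟩ | ⟨g, hg1, hg2⟩
    · left
      refine ⟨c.support.card, Finset.mem_Icc.2 ⟨hcσ.le, ?_⟩, N, c, S₁, S₂, B, hN, hcH.2, hcK, rfl, hS₁c, hS₂c, hBc,
        hfix, ?_⟩
      · have h3 := Finset.card_le_univ c.support
        rwa [Fintype.card_fin] at h3
      · rw [Subgroup.closure_union, hcl]
        exact hH
    · right
      refine ⟨N, c, S₂, hN, hS₂c, hcN, ?_, le_trans ?_ hg2⟩
      · rw [Subgroup.closure_union, Subgroup.closure_eq]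
        exact hH
      · have h3 : b / K ≤ g := by
          apply Nat.div_le_of_le_mul
          rw [mul_comm]
          exact hg1.le.trans (Nat.mul_le_mul_left g hcK)
        refine Nat.pow_le_pow_right (by norm_num) (Nat.mul_le_mul ?_ ?_) <;> omega

private theorem card_split {α ι : Type} [Finite α] (p q r : α → Prop) (t : ι → α → Prop) (I : Finset ι)
    (h : ∀ a, p a → q a ∨ (∃ i ∈ I, t i a) ∨ r a) :
    Nat.card {a // p a} ≤ Nat.card {a // q a} + ∑ i ∈ I, Nat.card {a // t i a} + Nat.card {a // r a} := by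
  classical
  have : Fintype α := Fintype.ofFinite α
  have key : ∀ u : α → Prop, Nat.card {a // u a} = (Finset.univ.filter u).card := by
    intro u
    rw [Nat.card_eq_fintype_card, Fintype.card_subtype]
  simp only [key]
  have hsub : Finset.univ.filter p ⊆ (Finset.univ.filter q ∪ I.biUnion fun i => Finset.univ.filter (t i)) ∪
      Finset.univ.filter r := by
    intro a ha
    have ha' := (Finset.mem_filter.1 ha).2
    rcases h a ha' with h1 | ⟨i, hi, h1⟩ | h1
    · exact Finset.mem_union_left _ (Finset.mem_union_left _ (Finset.mem_filter.2 ⟨Finset.mem_univ _, h1⟩))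
    · exact Finset.mem_union_left _ (Finset.mem_union_right _ (Finset.mem_biUnion.2
        ⟨i, hi, Finset.mem_filter.2 ⟨Finset.mem_univ _, h1⟩⟩))
    · exact Finset.mem_union_right _ (Finset.mem_filter.2 ⟨Finset.mem_univ _, h1⟩)
  refine (Finset.card_le_card hsub).trans ((Finset.card_union_le _ _).trans (Nat.add_le_add_right ?_ _))
  exact (Finset.card_union_le _ _).trans (Nat.add_le_add_left Finset.card_biUnion_le _)

theorem cases_even {n : ℕ} (hn : Even n) (K σ b : ℕ) (hσ : 1 ≤ σ) (hs : 2 * Nat.log 2 K.factorial * σ ≤ n) :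
    (nX K n : ℝ) ≤ (n : ℝ) ^ (2 * Nat.log 2 K.factorial * σ) * (nSub (2 * Nat.log 2 K.factorial * σ) : ℝ) ^ 2 * red n 2 +
      ∑ s ∈ Finset.Icc σ n, (n : ℝ) ^ (4 * s) * (2 * s : ℝ) ^ (2 * s * b) * (n : ℝ) ^ (n * Nat.log 2 K.factorial) *
        red n (s / K) +
      (n.factorial : ℝ) ^ (Nat.log 2 K.factorial + 1) * nTwo n / 2 ^ ((b / K / 2) * (b / K - b / K / 2)) := by
  have h1 := card_split (α := Subgroup (Perm (Fin n))) (ι := ℕ) _ _ _ _ (Finset.Icc σ n)
    (fun H (h : Bdd K H ∧ ¬ Two H) => split K σ b H h.1 h.2)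
  have h2 := cnt_S hn (2 * Nat.log 2 K.factorial * σ) hs
  have h3 : ∀ s ∈ Finset.Icc σ n, _ := fun s hs => cnt_A hn K s b (Nat.log 2 K.factorial)
    (hσ.trans (Finset.mem_Icc.1 hs).1)
  have h4 := cnt_M n (Nat.log 2 K.factorial) ((b / K / 2) * (b / K - b / K / 2))
  have h5 := h1.trans (Nat.add_le_add_right (Nat.add_le_add h2 (Finset.sum_le_sum h3)) _)
  have h6 := (Nat.cast_le (α := ℝ)).2 h5
  have h7 := (Nat.cast_le (α := ℝ)).2 h4
  refine (show (nX K n : ℝ) ≤ _ from h6).trans ?_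
  push_cast
  push_cast at h7
  refine add_le_add le_rfl ?_
  rw [le_div_iff₀ (by positivity), mul_comm]
  exact h7

end Pool.Agent.BdO
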