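import Pool.Agent.BdO.Frat
import Pool.Agent.BdO.NormX

/-!
MP_7fa120_al, bounded odd part. Counting the groups such that `oddGen H` moves few points.

Proof. For such an `H` enlarge `B` to a set with exactly `s` points (`s ≤ n`); there are at most `n ^ s` sets with `s` points. Take `C`, `D`
from `exists_frat`. `oddGen H` and `C ≤ oddGen H` are subgroups which move only points of `B`; the number of such subgroups is at most
`nSub s` (they correspond to subgroups of `Perm B ≃ Perm (Fin s)`; compare `odn_support`, `two_support` in `NilS/SupT.lean`). For given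
`C` the number of the possible `D` is at most `n ^ k * nTwo (n - k)` for some `k` with `2 ≤ k`, `2 * k ≤ n` (`norm_count`), which is a
summand of `red n 2`. `H = oddGen H ⊔ D` is determined by `oddGen H` and `D`.
-/

set_option autoImplicit false

namespace Pool.Agent.BdO

open Equiv Pool.Agent.NilS

/-- The permutations fixing all points outside `S` are a copy of the symmetric group on `|S|` points. -/
private theorem exists_hom (n : ℕ) (S : Finset (Fin n)) : ∃ φ : Perm (Fin S.card) →* Perm (Fin n),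
    Function.Injective φ ∧ ∀ σ : Perm (Fin n), (∀ x, x ∉ S → σ x = x) → ∃ τ, φ τ = σ := by
  classical
  let e : Fin S.card ≃ {x // x ∈ S} := (S.equivFin).symm
  refine ⟨(Perm.ofSubtype (p := fun x => x ∈ S)).comp e.permCongrHom.toMonoidHom, ?_, ?_⟩
  · exact (Perm.ofSubtype_injective (p := fun x => x ∈ S)).comp e.permCongrHom.injective
  · intro σ hσ
    have h1 : ∀ x, σ x ∈ S ↔ x ∈ S := by
      intro x
      constructor
      · intro hx
        by_contra h
        rw [hσ x h] at hx
        exact h hx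
      · intro hx
        by_contra h
        have h2 := hσ (σ x) h
        have h3 : σ x = x := σ.injective h2
        rw [h3] at h
        exact h hx
    obtain ⟨τ, hτ⟩ := e.permCongrHom.surjective (σ.subtypePerm h1)
    refine ⟨τ, ?_⟩
    have h2 : Perm.ofSubtype (σ.subtypePerm h1) = σ :=
      Perm.ofSubtype_subtypePerm h1 (fun x hx => by
        by_contra h
        exact hx (hσ x h))
    change Perm.ofSubtype (e.permCongrHom τ) = σ
    rw [hτ, h2]

/-- Counting subgroups which move only points of `S`. -/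
private theorem sub_support (n : ℕ) (S : Finset (Fin n)) :
    Nat.card {U : Subgroup (Perm (Fin n)) // ∀ u ∈ U, ∀ x, x ∉ S → u x = x} ≤ nSub S.card := by
  obtain ⟨φ, hφ, hs⟩ := exists_hom n S
  have hmap : ∀ U : Subgroup (Perm (Fin n)), (∀ u ∈ U, ∀ x, x ∉ S → u x = x) → (U.comap φ).map φ = U := by
    intro U hU
    apply le_antisymm
    · exact Subgroup.map_comap_le _ _
    · intro u hu
      obtain ⟨τ, hτ⟩ := hs u (hU u hu)
      exact ⟨τ, by simpa [hτ] using hu, hτ⟩
  unfold nSub
  refine Nat.card_le_card_of_injective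
    (fun U : {U : Subgroup (Perm (Fin n)) // ∀ u ∈ U, ∀ x, x ∉ S → u x = x} => U.1.comap φ) ?_
  intro U₁ U₂ h
  have h1 : U₁.1.comap φ = U₂.1.comap φ := h
  apply Subtype.ext
  rw [← hmap U₁.1 U₁.2, ← hmap U₂.1 U₂.2, h1]

/-- The number of sets with `s` elements. -/
private theorem set_count (n s : ℕ) : Nat.card {B : Finset (Fin n) // B.card = s} ≤ n ^ s := by
  have h1 : Nat.card {B : Finset (Fin n) // B.card = s} ≤ Nat.card (Fin s → Fin n) := by
    refine Nat.card_le_card_of_injective
      (fun B : {B : Finset (Fin n) // B.card = s} => fun i : Fin s => B.1.orderEmbOfFin B.2 i) ?_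
    intro B₁ B₂ h
    apply Subtype.ext
    have h2 : Set.range (B₁.1.orderEmbOfFin B₁.2) = Set.range (B₂.1.orderEmbOfFin B₂.2) := by
      have h3 : (fun i : Fin s => B₁.1.orderEmbOfFin B₁.2 i) = fun i : Fin s => B₂.1.orderEmbOfFin B₂.2 i := h
      exact congrArg Set.range h3
    rw [Finset.range_orderEmbOfFin, Finset.range_orderEmbOfFin] at h2
    exact Finset.coe_injective h2
  refine h1.trans (le_of_eq ?_)
  rw [Nat.card_fun, Nat.card_eq_fintype_card, Nat.card_eq_fintype_card, Fintype.card_fin, Fintype.card_fin]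

/-- A summand of `red n 2`. -/
private theorem term_le_red {n k : ℕ} (hk : 2 ≤ k) (hkn : 2 * k ≤ n) : n ^ k * nTwo (n - k) ≤ red n 2 := by
  unfold red
  refine Finset.single_le_sum (f := fun k => n ^ k * nTwo (n - k)) (fun i _ => Nat.zero_le _) ?_
  rw [Finset.mem_filter, Finset.mem_Icc]
  exact ⟨⟨hk, by omega⟩, hk⟩

/-- For a sigma type the cardinality is at most the number of base points times a bound for the fibres. -/
private theorem card_sigma_le {α : Type} [Finite α] (β : α → Type) [∀ a, Finite (β a)] (m c : ℕ)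
    (h1 : Nat.card α ≤ m) (h2 : ∀ a, Nat.card (β a) ≤ c) : Nat.card (Σ a, β a) ≤ m * c := by
  have : Fintype α := Fintype.ofFinite α
  rw [Nat.card_sigma]
  calc ∑ a, Nat.card (β a) ≤ ∑ _a : α, c := Finset.sum_le_sum fun a _ => h2 a
    _ = Nat.card α * c := by rw [Finset.sum_const, smul_eq_mul, Finset.card_univ, Nat.card_eq_fintype_card]
    _ ≤ m * c := Nat.mul_le_mul_right c h1

theorem cnt_S {n : ℕ} (hn : Even n) (s : ℕ) (hs : s ≤ n) :
    Nat.card {H : Subgroup (Perm (Fin n)) // ¬ Two H ∧ ∃ B : Finset (Fin n), B.card ≤ s ∧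
      ∀ g ∈ oddGen H, ∀ x, x ∉ B → g x = x} ≤ n ^ s * nSub s ^ 2 * red n 2 := by
  classical
  -- the data
  let SB : Finset (Fin n) → Type := fun B => {U : Subgroup (Perm (Fin n)) // ∀ u ∈ U, ∀ x, x ∉ B → u x = x}
  let CB : Finset (Fin n) → Type := fun B => {C : Subgroup (Perm (Fin n)) //
    (Odd (Nat.card C) ∧ C ≠ ⊥) ∧ ∀ u ∈ C, ∀ x, x ∉ B → u x = x}
  let DC : (B : Finset (Fin n)) → CB B → Type := fun B C => {D : Subgroup (Perm (Fin n)) // Two D ∧ Nz D C.1}
  let T : Type := Σ B : {B : Finset (Fin n) // B.card = s}, Σ _R : SB B.1, Σ C : CB B.1, DC B.1 C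
  have hfin1 : ∀ B, Finite (SB B) := fun B => inferInstanceAs (Finite {U : Subgroup (Perm (Fin n)) // _})
  have hfin2 : ∀ B, Finite (CB B) := fun B => inferInstanceAs (Finite {U : Subgroup (Perm (Fin n)) // _})
  have hfin3 : ∀ B C, Finite (DC B C) := fun B C => inferInstanceAs (Finite {U : Subgroup (Perm (Fin n)) // _})
  have hfinT : Finite T := by
    have : ∀ B : {B : Finset (Fin n) // B.card = s}, Finite (Σ _R : SB B.1, Σ C : CB B.1, DC B.1 C) := by
      intro B
      have := hfin1 B.1
      have := hfin2 B.1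
      have := hfin3 B.1
      infer_instance
    infer_instance
  have hT : Nat.card T ≤ n ^ s * (nSub s * (nSub s * red n 2)) := by
    refine @card_sigma_le _ _ _ ?_ _ _ (set_count n s) ?_
    · intro B
      have := hfin1 B.1
      have := hfin2 B.1
      have := hfin3 B.1
      infer_instance
    · rintro ⟨B, hB⟩
      have i1 := hfin1 B
      have i2 := hfin2 B
      have i3 := hfin3 B
      have hsub : Nat.card (SB B) ≤ nSub s := by
        have h1 := sub_support n B
        rw [hB] at h1
        exact h1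
      refine card_sigma_le _ _ _ hsub ?_
      · intro _
        refine card_sigma_le _ _ _ ?_ ?_
        · refine le_trans ?_ hsub
          refine Nat.card_le_card_of_injective (fun C : CB B => (⟨C.1, C.2.2⟩ : SB B)) ?_
          intro C₁ C₂ h
          exact Subtype.ext (congrArg (fun U : SB B => U.1) h)
        · rintro ⟨C, ⟨hC1, hC2⟩, hC3⟩
          obtain ⟨k, hk1, hk2, -, hk4⟩ := norm_count hn C hC1 hC2
          exact hk4.trans (term_le_red hk1 hk2)
  -- the choice of the data
  have hch : ∀ H : {H : Subgroup (Perm (Fin n)) // ¬ Two H ∧ ∃ B : Finset (Fin n), B.card ≤ s ∧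
      ∀ g ∈ oddGen H, ∀ x, x ∉ B → g x = x}, ∃ t : T, t.2.1.1 ⊔ t.2.2.2.1 = H.1 := by
    rintro ⟨H, hH2, B₀, hB₀, hmove⟩
    obtain ⟨B, hBB, -, hBs⟩ := Finset.exists_subsuperset_card_eq (Finset.subset_univ B₀) hB₀
      (by rw [Finset.card_univ, Fintype.card_fin]; exact hs)
    have hmove' : ∀ g ∈ oddGen H, ∀ x, x ∉ B → g x = x := fun g hg x hx => hmove g hg x fun h => hx (hBB h)
    obtain ⟨C, D, hCR, hCo, hCb, hD2, hDC, hRD⟩ := exists_frat H hH2
    exact ⟨⟨⟨B, hBs⟩, ⟨oddGen H, hmove'⟩, ⟨C, ⟨hCo, hCb⟩, fun u hu => hmove' u (hCR hu)⟩, ⟨D, hD2, hDC⟩⟩, hRD⟩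
  choose F hF using hch
  have hinj : Function.Injective F := by
    intro H₁ H₂ h
    apply Subtype.ext
    rw [← hF H₁, ← hF H₂, h]
  calc _ ≤ Nat.card T := Nat.card_le_card_of_injective F hinj
    _ ≤ n ^ s * (nSub s * (nSub s * red n 2)) := hT
    _ = n ^ s * nSub s ^ 2 * red n 2 := by ring

end Pool.Agent.BdO
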