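import Pool.Agent.NilS.Defs

/-!
MP_7fa120_al: subgroups of the symmetric groups whose order has a bounded odd part. Definitions and overview.

Theorem (`Main.lean`). Let `K ≥ 3`, and consider the subgroups `H` of `S_n` whose order is `2 ^ a * k` with `k ≤ K` odd (`Bdd K H`).
Along even `n` almost all of them are 2-groups; along `n = 3 mod 4` the proportion of the others is at least `1 / 4 - o (1)`; so for
some odd prime `r ≤ K` the proportion of those with order divisible by `r` has no limit.

Proof. `t(n) = nTwo n`. Growth: `t(n) ≥ exp (k n ^ (7/8) / 32) t(n - k)` for `2 ≤ k ≤ n / 2` (`GrowP`).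
Let `n` be even, `H` with `Bdd K H`, not a 2-group, `N = O_2(H)`; `|H : N| ≤ K !` (`Core`), so `H` is generated by `N` and `J` elements,
and `R = oddGen H` (generated by the elements of odd prime power order) by `R ⊓ N` and `J` such elements.
(S) All these `J` elements move less than `n ^ (1/6)` points. Then `R` moves at most `s₀ = 2 J n ^ (1/6)` points (`SupB`). With
`C` a Sylow subgroup of `R` for an odd prime and `D` a Sylow 2-subgroup of the normaliser of `C` in `H`, `H = R D` (`Frat`).
The number of `(R, C)` is at most `exp (o (n ^ (7/8)))`, and for given `C` the number of `D` is at most `∑_(k ≥ 2) n ^ k t(n - k)`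
(`NormX`: `D` fixes a point of every orbit of `C` it stabilises; those `k` points are redundant). Negligible by the growth.
(L) Some `c ∈ H` of odd prime power order moves `s ≥ n ^ (1/6)` points. Consider `N` with conjugation by `c` (`Dich`). Either
(L1) `N` is generated by its centraliser of `c` and at most `n ^ (3/4)` commutators `g c g⁻¹ c⁻¹`, which move only points of a set of
at most `2 s` points (`Glaub`); the centraliser normalises the group generated by `c`, so the number of such `H` is at most
`n ^ (O (s n ^ (3/4) + n)) n ^ k t(n - k)`, `k ≥ s / K`, negligible by the growth; or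
(L2) there are `2 ^ (g² / 4 - 1)` subgroups `M` of `N`, `g ≥ n ^ (3/4) / K`, such that `N` is the smallest `c`-invariant subgroup
containing `M`; `H` is determined by `M`, `c` and `J` elements, so the number of such `H` is at most
`t(n) (n !) ^ (1 + J) 2 ^ (- g² / 4 + 1)`, negligible.
`n = 3 mod 4` (`OddLow`): almost every 2-subgroup `P` of `S_n` has exactly one fixed point `x`, hence an orbit `{a, b}` of length 2;
`P` and the 3-cycle `(a b x)` generate a group of order `3 |P|`, from which `P` can be recovered up to 3 choices.
-/

set_option autoImplicit false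

namespace Pool.Agent.BdO

open Equiv Pool.Agent.NilS

/-- The odd part of the order of `H` is at most `K`. -/
def Bdd (K : ℕ) {Ω : Type} (H : Subgroup (Perm Ω)) : Prop := ∃ a k : ℕ, Nat.card H = 2 ^ a * k ∧ Odd k ∧ k ≤ K

/-- The number of subgroups with `Bdd K`. -/
noncomputable def nB (K n : ℕ) : ℕ := Nat.card {H : Subgroup (Perm (Fin n)) // Bdd K H}

/-- The number of subgroups with `Bdd K` which are not 2-groups. -/
noncomputable def nX (K n : ℕ) : ℕ := Nat.card {H : Subgroup (Perm (Fin n)) // Bdd K H ∧ ¬ Two H}

/-- The proportion of the subgroups with `Bdd K` whose order is a multiple of `m`. -/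
noncomputable def dens (K n m : ℕ) : ℝ :=
  (Nat.card {H : Subgroup (Perm (Fin n)) // Bdd K H ∧ m ∣ Nat.card H} : ℝ) /
    (Nat.card {H : Subgroup (Perm (Fin n)) // Bdd K H} : ℝ)

/-- The order of `g` is a power of an odd prime (or `1`). -/
def Opp {G : Type} [Group G] (g : G) : Prop := ∃ r j : ℕ, r.Prime ∧ r ≠ 2 ∧ orderOf g = r ^ j

/-- The subgroup generated by the elements of odd prime power order. -/
def oddGen {G : Type} [Group G] (H : Subgroup G) : Subgroup G := Subgroup.closure {g | g ∈ H ∧ Opp g}

/-- `L` normalises `O`. -/
def Nz {G : Type} [Group G] (L O : Subgroup G) : Prop := ∀ l ∈ L, ∀ o ∈ O, l * o * l⁻¹ ∈ O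

/-- The sum of the bounds for the number of 2-groups on `n - k` points. -/
noncomputable def red (n q : ℕ) : ℕ :=
  ∑ k ∈ (Finset.Icc 2 (n / 2)).filter (fun k => q ≤ k), n ^ k * nTwo (n - k)

end Pool.Agent.BdO
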