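import Mathlib

/-!
MP_7fa120_al, bounded odd part. A dichotomy for an automorphism of odd prime power order of a 2-group.

Proof. Let `Φ` be the Frattini subgroup of the 2-group `G` (`frattini G`); `F = G ⧸ Φ` is an elementary abelian 2-group, i.e. a
vector space over `ZMod 2`, `φ` induces a linear map of `F` with `φ ^ (r ^ j) = 1`, `r ^ j` odd, and a subset of `G` generates `G` if
and only if its image generates `F`. Let `F₀` be the space of the fixed vectors of `φ` and `F₁` the image of `1 - φ`; `F = F₀ ⊕ F₁`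
(averaging over the odd number `r ^ j`).
(1) Every vector of `F₀` is the image of an element of `G` fixed by `φ`: the group generated by `φ` acts on the coset `g Φ`, whose
cardinality is a power of two, and is an `r`-group, so it has a fixed point in the coset.
(2) If `dim F₁ ≤ b`: `F₁` is spanned by the images of the elements `g * (φ g)⁻¹`, so there is a set `S` of at most `b` such elements whose
images span `F₁`, and the fixed elements together with `S` generate `G`.
(3) If `dim F₁ > b`: every `φ`-invariant subspace of `F₁` has a `φ`-invariant complement in `F₁` (Maschke: average a projection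
over the powers of `φ`). So `F₁ = W_1 ⊕ … ⊕ W_g` where `W_i` is spanned by the vectors `φ ^ l u_i` for a nonzero `u_i ∈ W_i`
(split off such cyclic subspaces one after the other); `dim W_i ≤ r ^ j`, so `b < dim F₁ ≤ g * r ^ j`. `φ u_i ≠ u_i` as `F₁ ⊓ F₀ = 0`, so
`u_i` and `φ u_i` are linearly independent over `ZMod 2`. Let `I₁, I₂` be the sets of the first `g / 2` and of the last `g - g / 2`
indices; for a matrix `A : I₁ × I₂ → {0, 1}` let `U_A` be the span of `F₀`, of the vectors `u_i + ∑_j A_ij φ u_j` (`i ∈ I₁`) and of the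
`u_j` (`j ∈ I₂`), and `M_A` the preimage of `U_A` in `G`. If `L ≥ M_A` is `φ`-invariant, its image contains `F₀`, the `W_j`
(`j ∈ I₂`), so the `u_i` (`i ∈ I₁`) and the `W_i`, that is `F`, and `L ≥ Φ`, so `L = ⊤`. `A` is determined by `U_A`: if `U_A = U_A'` then
`u_i + ∑_j A_ij φ u_j = f + (u_i + ∑_j A'_ij φ u_j) + ∑_j ε_j u_j` with `f ∈ F₀`, so `(A_ij - A'_ij) φ u_j = ε_j u_j` and `A_ij = A'_ij`.
So there are at least `2 ^ ((g / 2) * (g - g / 2))` such subgroups.
-/

set_option autoImplicit false

namespace Pool.Agent.BdO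

open Module

/-- The span of the vectors `T ^ l (u i)`. -/
private def wsp {V : Type} [AddCommGroup V] [Module (ZMod 2) V] (T : V →ₗ[ZMod 2] V) {k : ℕ}
    (u : Fin k → V) : Submodule (ZMod 2) V :=
  Submodule.span (ZMod 2) (Set.range (fun p : Fin k × ℕ => (T ^ p.2) (u p.1)))

/-- The coordinate map of the family `u i`, `T (u i)`. -/
private def fam {V : Type} [AddCommGroup V] [Module (ZMod 2) V] (T : V →ₗ[ZMod 2] V) {k : ℕ}
    (u : Fin k → V) : ((Fin k → ZMod 2) × (Fin k → ZMod 2)) →ₗ[ZMod 2] V :=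
  LinearMap.coprod (Fintype.linearCombination (ZMod 2) u)
    (Fintype.linearCombination (ZMod 2) (fun i => T (u i)))

private theorem fam_apply {V : Type} [AddCommGroup V] [Module (ZMod 2) V] (T : V →ₗ[ZMod 2] V)
    {k : ℕ} (u : Fin k → V) (a b : Fin k → ZMod 2) :
    fam T u (a, b) = ∑ i, (a i • u i + b i • T (u i)) := by
  simp [fam, Fintype.linearCombination_apply, Finset.sum_add_distrib]

private theorem wsp_inv {V : Type} [AddCommGroup V] [Module (ZMod 2) V] (T : V →ₗ[ZMod 2] V)
    {k : ℕ} (u : Fin k → V) : ∀ x ∈ wsp T u, T x ∈ wsp T u := by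
  intro x hx
  have h : wsp T u ≤ (wsp T u).comap T := by
    rw [wsp, Submodule.span_le]
    rintro _ ⟨⟨i, l⟩, rfl⟩
    rw [SetLike.mem_coe, Submodule.mem_comap]
    refine Submodule.subset_span ⟨(i, l + 1), ?_⟩
    simp only [pow_succ']
    rfl
  exact h hx

private theorem mem_wsp {V : Type} [AddCommGroup V] [Module (ZMod 2) V] (T : V →ₗ[ZMod 2] V)
    {k : ℕ} (u : Fin k → V) (i : Fin k) : u i ∈ wsp T u :=
  Submodule.subset_span ⟨(i, 0), by simp⟩

private theorem fam_mem {V : Type} [AddCommGroup V] [Module (ZMod 2) V] (T : V →ₗ[ZMod 2] V)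
    {k : ℕ} (u : Fin k → V) (a b : Fin k → ZMod 2) : ∑ i, (a i • u i + b i • T (u i)) ∈ wsp T u :=
  Submodule.sum_mem _ fun i _ => Submodule.add_mem _ (Submodule.smul_mem _ _ (mem_wsp T u i))
    (Submodule.smul_mem _ _ (wsp_inv T u _ (mem_wsp T u i)))

private theorem semis {V : Type} [AddCommGroup V] [Module (ZMod 2) V] [Finite V]
    (T : V →ₗ[ZMod 2] V) (m : ℕ) (hm : Odd m) (hT : T ^ m = 1) : Module.End.IsSemisimple T := by
  have hsep : (Polynomial.X ^ m - 1 : Polynomial (ZMod 2)).Separable := by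
    rw [Polynomial.X_pow_sub_one_separable_iff]
    intro h
    rw [ZMod.natCast_eq_zero_iff] at h
    exact (Nat.not_even_iff_odd.mpr hm) (even_iff_two_dvd.mpr h)
  refine Module.End.isSemisimple_of_squarefree_aeval_eq_zero hsep.squarefree ?_
  simp [hT]

/-- In a vector space over `ZMod 2` the two nonzero scalars. -/
private theorem z2 (a : ZMod 2) : a = 0 ∨ a = 1 := by
  revert a
  decide

private theorem step {V : Type} [AddCommGroup V] [Module (ZMod 2) V] [Finite V]
    (T : V →ₗ[ZMod 2] V) (m : ℕ) (hm : Odd m) (hT : T ^ m = 1) (hfix : ∀ x, T x = x → x = 0)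
    (k : ℕ) (u : Fin k → V) (hu : Function.Injective (fam T u)) (hw : wsp T u ≠ ⊤) :
    ∃ v : Fin (k + 1) → V, Function.Injective (fam T v) := by
  have hss := semis T m hm hT
  rw [Module.End.isSemisimple_iff] at hss
  obtain ⟨W, hW, hc⟩ := hss (wsp T u) (by
    rw [Module.End.mem_invtSubmodule]
    exact fun x hx => wsp_inv T u x hx)
  rw [Module.End.mem_invtSubmodule] at hW
  have hWb : W ≠ ⊥ := by
    intro h
    subst h
    exact hw (by simpa using hc.sup_eq_top)
  obtain ⟨x, hx, hx0⟩ := Submodule.exists_mem_ne_zero_of_ne_bot hWb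
  refine ⟨Fin.snoc u x, ?_⟩
  rw [injective_iff_map_eq_zero]
  rintro ⟨a, b⟩ hab
  rw [fam_apply, Fin.sum_univ_castSucc] at hab
  simp only [Fin.snoc_castSucc, Fin.snoc_last] at hab
  set a' : Fin k → ZMod 2 := fun i => a i.castSucc
  set b' : Fin k → ZMod 2 := fun i => b i.castSucc
  have h1 : ∑ i, (a' i • u i + b' i • T (u i)) ∈ wsp T u := fam_mem T u a' b'
  have h2 : a (Fin.last k) • x + b (Fin.last k) • T x ∈ W :=
    W.add_mem (W.smul_mem _ hx) (W.smul_mem _ (hW hx))
  have h3 : a (Fin.last k) • x + b (Fin.last k) • T x = 0 := by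
    have h4 : a (Fin.last k) • x + b (Fin.last k) • T x ∈ wsp T u := by
      have : a (Fin.last k) • x + b (Fin.last k) • T x = -∑ i, (a' i • u i + b' i • T (u i)) := by
        rw [eq_neg_iff_add_eq_zero, add_comm]
        exact hab
      rw [this]
      exact (wsp T u).neg_mem h1
    exact Submodule.disjoint_def.mp hc.disjoint _ h4 h2
  have h5 : ∑ i, (a' i • u i + b' i • T (u i)) = 0 := by
    rw [h3, add_zero] at hab
    exact hab
  rw [← fam_apply] at h5
  have h6 := (injective_iff_map_eq_zero _).mp hu _ h5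
  have hTx : T x ≠ 0 := by
    intro h
    have h7 : (T ^ m) x = 0 := by
      obtain ⟨m', rfl⟩ : ∃ m', m = m' + 1 := ⟨m - 1, by have := hm.pos; omega⟩
      rw [pow_succ]
      show (T ^ m') (T x) = 0
      rw [h, map_zero]
    rw [hT] at h7
    exact hx0 h7
  have h8 : a (Fin.last k) = 0 ∧ b (Fin.last k) = 0 := by
    rcases z2 (a (Fin.last k)) with ha | ha <;> rcases z2 (b (Fin.last k)) with hb | hb
    · exact ⟨ha, hb⟩
    · rw [ha, hb, zero_smul, one_smul, zero_add] at h3
      exact absurd h3 hTx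
    · rw [ha, hb, zero_smul, one_smul, add_zero] at h3
      exact absurd h3 hx0
    · exfalso
      rw [ha, hb, one_smul, one_smul] at h3
      have h9 : T x = x := by
        have h10 : x + x = 0 := by
          have : (2 : ZMod 2) • x = 0 := by
            rw [show (2 : ZMod 2) = 0 from rfl, zero_smul]
          rwa [two_smul] at this
        have h11 : T x = -x := by
          rw [eq_neg_iff_add_eq_zero, add_comm]
          exact h3
        rw [h11, neg_eq_iff_add_eq_zero]
        exact h10
      exact hx0 (hfix x h9)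
  have ha' : ∀ i : Fin k, a i.castSucc = 0 := fun i => congrFun (congrArg Prod.fst h6) i
  have hb' : ∀ i : Fin k, b i.castSucc = 0 := fun i => congrFun (congrArg Prod.snd h6) i
  ext i
  · refine Fin.lastCases h8.1 ha' i
  · refine Fin.lastCases h8.2 hb' i

private theorem exists_fam {V : Type} [AddCommGroup V] [Module (ZMod 2) V] [Finite V]
    (T : V →ₗ[ZMod 2] V) (m : ℕ) (hm : Odd m) (hT : T ^ m = 1) (hfix : ∀ x, T x = x → x = 0) :
    ∃ (k : ℕ) (u : Fin k → V), Function.Injective (fam T u) ∧ wsp T u = ⊤ := by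
  by_contra hcon
  push Not at hcon
  have hall : ∀ k : ℕ, ∃ u : Fin k → V, Function.Injective (fam T u) := by
    intro k
    induction k with
    | zero =>
      refine ⟨Fin.elim0, ?_⟩
      intro p q _
      exact Subsingleton.elim _ _
    | succ k ih =>
      obtain ⟨u, hu⟩ := ih
      exact step T m hm hT hfix k u hu (hcon k u hu)
  obtain ⟨u, hu⟩ := hall (Nat.card V)
  have h1 := Nat.card_le_card_of_injective _ hu
  rw [Nat.card_prod] at h1
  have h2 : Nat.card (Fin (Nat.card V) → ZMod 2) = 2 ^ Nat.card V := by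
    rw [Nat.card_eq_fintype_card]
    simp [ZMod.card]
  rw [h2] at h1
  have h3 : Nat.card V < 2 ^ Nat.card V := Nat.lt_two_pow_self
  have h4 : 1 ≤ 2 ^ Nat.card V := Nat.one_le_two_pow
  nlinarith

private theorem dim_le {V : Type} [AddCommGroup V] [Module (ZMod 2) V] [Finite V]
    (T : V →ₗ[ZMod 2] V) (m : ℕ) (hm : Odd m) (hT : T ^ m = 1) (k : ℕ) (u : Fin k → V)
    (hw : wsp T u = ⊤) : finrank (ZMod 2) V ≤ k * m := by
  have hm0 := hm.pos
  have h1 : Submodule.span (ZMod 2) (Set.range (fun p : Fin k × Fin m => (T ^ (p.2 : ℕ)) (u p.1)))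
      = ⊤ := by
    rw [eq_top_iff, ← hw, wsp, Submodule.span_le]
    rintro _ ⟨⟨i, l⟩, rfl⟩
    refine Submodule.subset_span ⟨(i, ⟨l % m, Nat.mod_lt _ hm0⟩), ?_⟩
    simp only
    conv_rhs => rw [← Nat.div_add_mod l m, pow_add, pow_mul, hT, one_pow, one_mul]
  have h2 := finrank_range_le_card (R := ZMod 2)
    (b := fun p : Fin k × Fin m => (T ^ (p.2 : ℕ)) (u p.1))
  rw [Set.finrank, h1, finrank_top] at h2
  simpa using h2

private theorem lin {V : Type} [AddCommGroup V] [Module (ZMod 2) V] [Finite V]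
    (T : V →ₗ[ZMod 2] V) (m : ℕ) (hm : Odd m) (hT : T ^ m = 1) (hfix : ∀ x, T x = x → x = 0)
    (b : ℕ) (hb : b < finrank (ZMod 2) V) :
    ∃ g : ℕ, b < g * m ∧ 2 ^ ((g / 2) * (g - g / 2)) ≤
      Nat.card {U : Submodule (ZMod 2) V // ∀ L : Submodule (ZMod 2) V, U ≤ L →
        (∀ x ∈ L, T x ∈ L) → L = ⊤} := by
  obtain ⟨k, u, hu, hw⟩ := exists_fam T m hm hT hfix
  refine ⟨k, hb.trans_le (dim_le T m hm hT k u hw), ?_⟩
  obtain ⟨c, hc⟩ := LinearMap.exists_leftInverse_of_injective (fam T u)
    (LinearMap.ker_eq_bot.mpr hu)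
  have hcf : ∀ p, c (fam T u p) = p := fun p => LinearMap.congr_fun hc p
  have hcu : ∀ i, c (u i) = (Pi.single i 1, 0) := by
    intro i
    have h : fam T u (Pi.single i 1, 0) = u i := by
      rw [fam_apply]
      rw [Finset.sum_eq_single i]
      · simp
      · intro j _ hj
        simp [Pi.single_eq_of_ne hj]
      · simp
    rw [← h, hcf]
  have hcT : ∀ i, c (T (u i)) = (0, Pi.single i 1) := by
    intro i
    have h : fam T u (0, Pi.single i 1) = T (u i) := by
      rw [fam_apply]
      rw [Finset.sum_eq_single i]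
      · simp
      · intro j _ hj
        simp [Pi.single_eq_of_ne hj]
      · simp
    rw [← h, hcf]
  set p := k / 2 with hp
  set q := k - k / 2 with hq
  have hpq : p + q = k := by omega
  let e₁ : Fin p → Fin k := fun i => ⟨i, by have := i.2; omega⟩
  let e₂ : Fin q → Fin k := fun j => ⟨p + j, by have := j.2; omega⟩
  have he1 : ∀ i i', e₁ i = e₁ i' → i = i' := by
    intro i i' h
    have := congrArg Fin.val h
    simp only [e₁] at this
    exact Fin.ext this
  have he2 : ∀ j j', e₂ j = e₂ j' → j = j' := by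
    intro j j' h
    have := congrArg Fin.val h
    simp only [e₂] at this
    exact Fin.ext (by omega)
  have he12 : ∀ i j, e₁ i ≠ e₂ j := by
    intro i j h
    have := congrArg Fin.val h
    simp only [e₁, e₂] at this
    have := i.2
    omega
  have hcov : ∀ l : Fin k, (∃ i, e₁ i = l) ∨ (∃ j, e₂ j = l) := by
    intro l
    by_cases hl : (l : ℕ) < p
    · exact Or.inl ⟨⟨l, hl⟩, Fin.ext rfl⟩
    · refine Or.inr ⟨⟨l - p, by have := l.2; omega⟩, Fin.ext ?_⟩
      simp only [e₂]
      omega
  -- the vectors and the subspaces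
  let vec : (Fin p → Fin q → ZMod 2) → Fin p → V := fun A i =>
    u (e₁ i) + ∑ j, A i j • T (u (e₂ j))
  have hvec1 : ∀ A i, (c (vec A i)).1 = Pi.single (e₁ i) 1 := by
    intro A i
    simp only [vec, map_add, map_sum, map_smul, hcu, hcT]
    simp [Prod.fst_sum]
  have hvec2 : ∀ A i j, (c (vec A i)).2 (e₂ j) = A i j := by
    intro A i j
    simp only [vec, map_add, map_sum, map_smul, hcu, hcT]
    simp only [Prod.snd_add, Prod.snd_sum, Prod.smul_snd, zero_add, Finset.sum_apply,
      Pi.smul_apply, smul_eq_mul]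
    rw [Finset.sum_eq_single j]
    · simp
    · intro j' _ hj'
      rw [Pi.single_eq_of_ne, mul_zero]
      exact fun h => hj' (he2 _ _ h).symm
    · simp
  let K : (Fin p → Fin q → ZMod 2) → Submodule (ZMod 2) V := fun A =>
    { carrier := {x | ∀ j, (c x).2 (e₂ j) = ∑ i, (c x).1 (e₁ i) * A i j}
      add_mem' := by
        intro x y hx hy j
        simp only [map_add, Prod.fst_add, Prod.snd_add, Pi.add_apply, add_mul,
          Finset.sum_add_distrib]
        rw [hx j, hy j]
      zero_mem' := by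
        intro j
        simp
      smul_mem' := by
        intro r x hx j
        simp only [map_smul, Prod.smul_fst, Prod.smul_snd, Pi.smul_apply, smul_eq_mul]
        rw [hx j, Finset.mul_sum]
        exact Finset.sum_congr rfl fun i _ => by ring }
  have hKvec : ∀ A A' i, vec A i ∈ K A' ↔ ∀ j, A i j = A' i j := by
    intro A A' i
    have h : vec A i ∈ K A' ↔ ∀ j, (c (vec A i)).2 (e₂ j) =
        ∑ i', (c (vec A i)).1 (e₁ i') * A' i' j := Iff.rfl
    rw [h]
    refine forall_congr' fun j => ?_
    rw [hvec2, hvec1]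
    rw [Finset.sum_eq_single i]
    · simp
    · intro i' _ hi'
      rw [Pi.single_eq_of_ne, zero_mul]
      exact fun h => hi' (he1 _ _ h)
    · simp
  have hKu : ∀ A j, u (e₂ j) ∈ K A := by
    intro A j
    have h : u (e₂ j) ∈ K A ↔ ∀ j', (c (u (e₂ j))).2 (e₂ j') =
        ∑ i', (c (u (e₂ j))).1 (e₁ i') * A i' j' := Iff.rfl
    rw [h]
    intro j'
    rw [hcu]
    simp only [Pi.zero_apply]
    symm
    refine Finset.sum_eq_zero fun i' _ => ?_
    rw [Pi.single_eq_of_ne (he12 i' j), zero_mul]
  have hKtop : ∀ A, ∀ L : Submodule (ZMod 2) V, K A ≤ L → (∀ x ∈ L, T x ∈ L) → L = ⊤ := by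
    intro A L hL hLT
    have h1 : ∀ j, T (u (e₂ j)) ∈ L := fun j => hLT _ (hL (hKu A j))
    have h2 : ∀ i, u (e₁ i) ∈ L := by
      intro i
      have h3 : vec A i ∈ L := hL ((hKvec A A i).mpr fun _ => rfl)
      have h4 : u (e₁ i) = vec A i - ∑ j, A i j • T (u (e₂ j)) := by
        simp only [vec]
        abel
      rw [h4]
      exact L.sub_mem h3 (L.sum_mem fun j _ => L.smul_mem _ (h1 j))
    have h3 : ∀ l, u l ∈ L := by
      intro l
      rcases hcov l with ⟨i, rfl⟩ | ⟨j, rfl⟩
      · exact h2 i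
      · exact hL (hKu A j)
    rw [eq_top_iff, ← hw, wsp, Submodule.span_le]
    rintro _ ⟨⟨i, l⟩, rfl⟩
    simp only
    induction l with
    | zero => simpa using h3 i
    | succ l ih =>
      rw [pow_succ']
      exact hLT _ ih
  have hKinj : Function.Injective (fun A => (⟨K A, hKtop A⟩ : {U : Submodule (ZMod 2) V //
      ∀ L : Submodule (ZMod 2) V, U ≤ L → (∀ x ∈ L, T x ∈ L) → L = ⊤})) := by
    intro A A' h
    have h1 : K A = K A' := congrArg Subtype.val h
    funext i j
    have h2 : vec A i ∈ K A' := by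
      rw [← h1]
      exact (hKvec A A i).mpr fun _ => rfl
    exact (hKvec A A' i).mp h2 j
  have hfin : Finite (Submodule (ZMod 2) V) :=
    Finite.of_injective (fun U : Submodule (ZMod 2) V => (U : Set V)) SetLike.coe_injective
  have h5 := Nat.card_le_card_of_injective _ hKinj
  have h6 : Nat.card (Fin p → Fin q → ZMod 2) = 2 ^ (p * q) := by
    rw [Nat.card_eq_fintype_card]
    simp only [Fintype.card_pi, Finset.prod_const, Finset.card_univ, Fintype.card_fin, ZMod.card]
    rw [← pow_mul, mul_comm]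
  rw [h6] at h5
  exact h5


/-! ### Groups -/

/-- The maximal subgroups of a finite 2-group contain all squares. -/
private theorem sq_mem {G : Type} [Group G] [Finite G] (hG : IsPGroup 2 G) (M : Subgroup G)
    (hM : IsCoatom M) (g : G) : g * g ∈ M := by
  have : Fact (Nat.Prime 2) := ⟨Nat.prime_two⟩
  have := hG.isNilpotent
  have : M.Normal := Subgroup.NormalizerCondition.normal_of_coatom M
    Group.normalizerCondition_of_isNilpotent hM
  obtain ⟨y, hy⟩ : ∃ y, y ∉ M := by
    by_contra h
    push Not at h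
    exact hM.1 (eq_top_iff.mpr fun x _ => h x)
  classical
  have hex : ∃ n, y ^ (2 ^ n) ∈ M := by
    obtain ⟨n, hn⟩ := hG y
    exact ⟨n, by rw [hn]; exact M.one_mem⟩
  set n := Nat.find hex with hn
  have hn1 : y ^ (2 ^ n) ∈ M := Nat.find_spec hex
  have hn0 : n ≠ 0 := by
    intro h0
    rw [h0] at hn1
    exact hy (by simpa using hn1)
  obtain ⟨n', hn'⟩ := Nat.exists_eq_succ_of_ne_zero hn0
  have hn2 : y ^ (2 ^ n') ∉ M := Nat.find_min hex (by omega)
  set h := y ^ (2 ^ n') with hh
  have hhh : h * h ∈ M := by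
    rw [hh, ← pow_add, ← two_mul, ← pow_succ']
    rw [hn'] at hn1
    exact hn1
  set Q : Subgroup G := (Subgroup.zpowers (QuotientGroup.mk' M h)).comap (QuotientGroup.mk' M)
    with hQ
  have hMQ : M < Q := by
    refine lt_of_le_of_ne ?_ ?_
    · intro x hx
      rw [hQ, Subgroup.mem_comap]
      have : QuotientGroup.mk' M x = 1 := (QuotientGroup.eq_one_iff x).mpr hx
      rw [this]
      exact Subgroup.one_mem _
    · intro heq
      apply hn2
      rw [heq, hQ, Subgroup.mem_comap]
      exact Subgroup.mem_zpowers _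
  have hQt := hM.2 Q hMQ
  have hg : g ∈ Q := hQt ▸ Subgroup.mem_top g
  rw [hQ, Subgroup.mem_comap, Subgroup.mem_zpowers_iff] at hg
  obtain ⟨k, hk⟩ := hg
  have h1 : QuotientGroup.mk' M (g * g) = 1 := by
    rw [map_mul, ← hk, ← (Commute.refl (QuotientGroup.mk' M h)).mul_zpow, ← map_mul]
    have : QuotientGroup.mk' M (h * h) = 1 := (QuotientGroup.eq_one_iff _).mpr hhh
    rw [this, one_zpow]
  exact (QuotientGroup.eq_one_iff _).mp h1

/-- A subgroup which contains all squares is normal. -/
private theorem normal_of_sq {G : Type} [Group G] (N : Subgroup G) (h : ∀ g : G, g * g ∈ N) :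
    N.Normal := by
  refine ⟨fun n hn x => ?_⟩
  have h1 : x * n * x⁻¹ = ((x * n) * (x * n)) * n⁻¹ * (x⁻¹ * x⁻¹) := by group
  rw [h1]
  exact N.mul_mem (N.mul_mem (h _) (N.inv_mem hn)) (h _)

/-- Nongeneration. -/
private theorem nongen {G : Type} [Group G] [Finite G] (hG : IsPGroup 2 G) (L N : Subgroup G)
    (hN : N ≤ L ⊔ Subgroup.closure {g | ∃ h : G, g = h * h}) (hLN : L ⊔ N = ⊤) : L = ⊤ := by
  by_contra hL
  obtain ⟨M, hM, hLM⟩ := (eq_top_or_exists_le_coatom L).resolve_left hL
  have h1 : Subgroup.closure {g | ∃ h : G, g = h * h} ≤ M := by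
    rw [Subgroup.closure_le]
    rintro _ ⟨h, rfl⟩
    exact sq_mem hG M hM h
  have h2 : L ⊔ N ≤ M := sup_le hLM (hN.trans (sup_le hLM h1))
  rw [hLN] at h2
  exact hM.1 (top_le_iff.mp h2)

private theorem grp (Q : Type) [Group Q] [Finite Q] (hQ : ∀ x : Q, x * x = 1) (T : Q →* Q) (m : ℕ)
    (hm : Odd m) (hT : ∀ x, T^[m] x = x) (hfix : ∀ x, T x = x → x = 1) (b : ℕ) :
    (∃ S : Finset Q, S.card ≤ b ∧ (∀ x ∈ S, ∃ g : Q, x = g * (T g)⁻¹) ∧
      Subgroup.closure (S : Set Q) = ⊤) ∨
    (∃ g : ℕ, b < g * m ∧ 2 ^ ((g / 2) * (g - g / 2)) ≤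
      Nat.card {M : Subgroup Q // ∀ L : Subgroup Q, M ≤ L → (∀ x ∈ L, T x ∈ L) → L = ⊤}) := by
  classical
  have hcomm : ∀ x y : Q, x * y = y * x := by
    intro x y
    have h1 : (x * y) * (x * y) = 1 := hQ _
    have h2 : ∀ z : Q, z⁻¹ = z := fun z => inv_eq_of_mul_eq_one_left (hQ z)
    calc x * y = (x * y)⁻¹ := (h2 _).symm
      _ = y⁻¹ * x⁻¹ := mul_inv_rev _ _
      _ = y * x := by rw [h2, h2]
  let : CommGroup Q := { (inferInstance : Group Q) with mul_comm := hcomm }
  let : Module (ZMod 2) (Additive Q) := AddCommGroup.zmodModule (n := 2) (by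
    intro x
    rw [two_nsmul]
    exact hQ x.toMul)
  let T' : Additive Q →ₗ[ZMod 2] Additive Q := (MonoidHom.toAdditive T).toZModLinearMap 2
  have hT' : ∀ x : Q, T' (Additive.ofMul x) = Additive.ofMul (T x) := fun x => rfl
  have hTpow : ∀ n, ∀ x : Q, (T' ^ n) (Additive.ofMul x) = Additive.ofMul (T^[n] x) := by
    intro n
    induction n with
    | zero => intro x; rfl
    | succ n ih =>
      intro x
      rw [pow_succ, Function.iterate_succ]
      exact ih (T x)
  have hTm : T' ^ m = 1 := by
    ext x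
    have := hTpow m x.toMul
    rw [hT] at this
    exact this
  have hfix' : ∀ x, T' x = x → x = 0 := fun x hx => hfix x.toMul hx
  -- the dictionary
  let toS : Subgroup Q → Submodule (ZMod 2) (Additive Q) := fun L =>
    AddSubgroup.toZModSubmodule 2 (Subgroup.toAddSubgroup L)
  have hmemS : ∀ (L : Subgroup Q) (x : Q), Additive.ofMul x ∈ toS L ↔ x ∈ L := fun L x => Iff.rfl
  by_cases hb : finrank (ZMod 2) (Additive Q) ≤ b
  · left
    -- `1 - T` is surjective
    have hsurj : Function.Surjective (fun x : Q => x * (T x)⁻¹) := by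
      apply Finite.surjective_of_injective
      intro x y hxy
      simp only at hxy
      have h1 : T (y⁻¹ * x) = y⁻¹ * x := by
        rw [map_mul, map_inv]
        have h2 : x = y * (T y)⁻¹ * T x := by rw [← hxy]; group
        conv_rhs => rw [h2]
        group
      have h2 := hfix _ h1
      rw [inv_mul_eq_one] at h2
      exact h2.symm
    let B := Module.finBasis (ZMod 2) (Additive Q)
    refine ⟨Finset.univ.image (fun i => (B i).toMul), ?_, ?_, ?_⟩
    · refine Finset.card_image_le.trans ?_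
      simpa using hb
    · intro x _
      obtain ⟨g, hg⟩ := hsurj x
      exact ⟨g, hg.symm⟩
    · rw [eq_top_iff]
      intro x _
      rw [← hmemS]
      have h1 : (⊤ : Submodule (ZMod 2) (Additive Q)) ≤
          toS (Subgroup.closure ((Finset.univ.image (fun i => (B i).toMul) : Finset Q) : Set Q)) := by
        rw [← B.span_eq, Submodule.span_le]
        rintro _ ⟨i, rfl⟩
        have h2 : (B i).toMul ∈
            Subgroup.closure ((Finset.univ.image (fun i => (B i).toMul) : Finset Q) : Set Q) :=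
          Subgroup.subset_closure (by simp)
        exact h2
      exact h1 Submodule.mem_top
  · right
    push Not at hb
    obtain ⟨g, hg1, hg2⟩ := lin T' m hm hTm hfix' b hb
    refine ⟨g, hg1, hg2.trans ?_⟩
    let back : Submodule (ZMod 2) (Additive Q) → Subgroup Q := fun U =>
      { carrier := {x | Additive.ofMul x ∈ U}
        mul_mem' := fun hx hy => U.add_mem hx hy
        one_mem' := U.zero_mem
        inv_mem' := fun hx => U.neg_mem hx }
    have hback : ∀ U (x : Q), x ∈ back U ↔ Additive.ofMul x ∈ U := fun U x => Iff.rfl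
    have hfin : Finite (Subgroup Q) := inferInstance
    refine Nat.card_le_card_of_injective (fun U => ⟨back U.1, ?_⟩) ?_
    · intro L hL hLT
      have h1 : toS L = ⊤ := by
        refine U.2 (toS L) ?_ ?_
        · intro x hx
          exact hL (show x.toMul ∈ back U.1 from hx)
        · intro x hx
          exact hLT x.toMul hx
      rw [eq_top_iff]
      intro x _
      rw [← hmemS, h1]
      exact Submodule.mem_top
    · intro U U' h
      have h1 : back U.1 = back U'.1 := congrArg Subtype.val h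
      apply Subtype.ext
      ext x
      have h2 : x.toMul ∈ back U.1 ↔ x.toMul ∈ back U'.1 := by rw [h1]
      exact h2

theorem dich (G : Type) [Group G] [Finite G] (hG : IsPGroup 2 G) (φ : MulAut G) (r j : ℕ) (hr : r.Prime) (hr2 : r ≠ 2)
    (hφ : φ ^ (r ^ j) = 1) (b : ℕ) :
    (∃ S : Finset G, S.card ≤ b ∧ (∀ x ∈ S, ∃ g : G, x = g * (φ g)⁻¹) ∧
      Subgroup.closure ({g : G | φ g = g} ∪ (S : Set G)) = ⊤) ∨
    (∃ g : ℕ, b < g * r ^ j ∧ 2 ^ ((g / 2) * (g - g / 2)) ≤
      Nat.card {M : Subgroup G // ∀ L : Subgroup G, M ≤ L → (∀ x ∈ L, φ x ∈ L) → L = ⊤}) := by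
  classical
  have : Fact (Nat.Prime 2) := ⟨Nat.prime_two⟩
  have : Fact r.Prime := ⟨hr⟩
  set F : Set G := {g | φ g = g} with hF
  set Sq : Set G := {g | ∃ h : G, g = h * h} with hSq
  set N : Subgroup G := Subgroup.closure (Sq ∪ F) with hN
  have hsqN : ∀ g : G, g * g ∈ N := fun g => Subgroup.subset_closure (Or.inl ⟨g, rfl⟩)
  have hFN : ∀ g : G, φ g = g → g ∈ N := fun g hg => Subgroup.subset_closure (Or.inr hg)
  have : N.Normal := normal_of_sq N hsqN
  have hNφ : ∀ g ∈ N, φ g ∈ N := by
    have h : N ≤ N.comap φ.toMonoidHom := by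
      rw [hN, Subgroup.closure_le, ← hN]
      rintro g (⟨h, rfl⟩ | hg)
      · rw [SetLike.mem_coe, Subgroup.mem_comap, map_mul]
        exact hsqN _
      · rw [SetLike.mem_coe, Subgroup.mem_comap]
        have : φ.toMonoidHom g = g := hg
        rw [this]
        exact hFN g hg
    exact fun g hg => h hg
  have hodd : Odd (r ^ j) := (hr.odd_of_ne_two hr2).pow
  -- fixed points of the quotient
  have hfixN : ∀ x : G, x⁻¹ * φ x ∈ N → x ∈ N := by
    intro x hx
    have hmem : ∀ y : N, x⁻¹ * φ (x * y) ∈ N := by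
      intro y
      rw [map_mul, ← mul_assoc]
      exact N.mul_mem hx (hNφ _ y.2)
    let s : N → N := fun y => ⟨x⁻¹ * φ (x * y), hmem y⟩
    have hs : Function.Injective s := by
      intro y z h
      have h1 : x⁻¹ * φ (x * y) = x⁻¹ * φ (x * z) := congrArg Subtype.val h
      have h2 : x * (y : G) = x * z := φ.injective (mul_left_cancel h1)
      exact Subtype.ext (mul_left_cancel h2)
    let σ : Equiv.Perm N := Equiv.ofBijective s (Finite.injective_iff_bijective.mp hs)
    have hσ : ∀ y : N, ((σ y : N) : G) = x⁻¹ * φ (x * y) := fun y => rfl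
    have hσn : ∀ n : ℕ, ∀ y : N, (((σ ^ n) y : N) : G) = x⁻¹ * (φ ^ n) (x * y) := by
      intro n
      induction n with
      | zero =>
        intro y
        simp
      | succ n ih =>
        intro y
        rw [pow_succ, Equiv.Perm.mul_apply, ih, hσ, pow_succ, MulAut.mul_apply]
        congr 2
        group
    have hσ1 : σ ^ r ^ j = 1 := by
      ext y
      rw [hσn, hφ]
      simp
    have : Fintype N := Fintype.ofFinite _
    have hcard : ¬ r ∣ Fintype.card N := by
      rw [← Nat.card_eq_fintype_card]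
      obtain ⟨e, he⟩ := (IsPGroup.iff_card (p := 2)).mp (hG.to_subgroup N)
      rw [he]
      intro hd
      exact hr2 ((Nat.prime_dvd_prime_iff_eq hr Nat.prime_two).mp (hr.dvd_of_dvd_pow hd))
    obtain ⟨y, hy⟩ := Equiv.Perm.exists_fixed_point_of_prime hcard hσ1
    have h1 : x⁻¹ * φ (x * y) = (y : G) := by rw [← hσ, hy]
    have h2 : φ (x * y) = x * y := by
      rw [inv_mul_eq_iff_eq_mul] at h1
      exact h1
    have h3 := hFN _ h2
    exact (Subgroup.mul_mem_cancel_right N y.2).mp h3
  let T : G ⧸ N →* G ⧸ N := QuotientGroup.map N N φ.toMonoidHom (fun g hg => hNφ g hg)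
  have hTmk : ∀ g : G, T (QuotientGroup.mk' N g) = QuotientGroup.mk' N (φ g) := fun g => rfl
  have hTn : ∀ n : ℕ, ∀ g : G, T^[n] (QuotientGroup.mk' N g) = QuotientGroup.mk' N ((φ ^ n) g) := by
    intro n
    induction n with
    | zero => intro g; rfl
    | succ n ih =>
      intro g
      rw [Function.iterate_succ, Function.comp_apply, hTmk, ih, pow_succ, MulAut.mul_apply]
  have hQ : ∀ x : G ⧸ N, x * x = 1 := by
    intro x
    obtain ⟨g, rfl⟩ := QuotientGroup.mk'_surjective N x
    rw [← map_mul]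
    exact (QuotientGroup.eq_one_iff _).mpr (hsqN g)
  have hT1 : ∀ x, T^[r ^ j] x = x := by
    intro x
    obtain ⟨g, rfl⟩ := QuotientGroup.mk'_surjective N x
    rw [hTn, hφ]
    rfl
  have hTf : ∀ x, T x = x → x = 1 := by
    intro x hx
    obtain ⟨g, rfl⟩ := QuotientGroup.mk'_surjective N x
    rw [hTmk] at hx
    have h1 : g⁻¹ * φ g ∈ N := QuotientGroup.eq.mp hx.symm
    exact (QuotientGroup.eq_one_iff _).mpr (hfixN g h1)
  rcases grp (G ⧸ N) hQ T (r ^ j) hodd hT1 hTf b with ⟨S, hS1, hS2, hS3⟩ | ⟨g, hg1, hg2⟩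
  · left
    choose f hf using hS2
    -- lifts
    let lift : {x // x ∈ S} → G := fun x =>
      Function.surjInv (QuotientGroup.mk'_surjective N) (f x.1 x.2)
    have hlift : ∀ x, QuotientGroup.mk' N (lift x) = f x.1 x.2 := fun x =>
      Function.surjInv_eq (QuotientGroup.mk'_surjective N) _
    let S' : Finset G := Finset.univ.image (fun x : {x // x ∈ S} => lift x * (φ (lift x))⁻¹)
    refine ⟨S', ?_, ?_, ?_⟩
    · refine Finset.card_image_le.trans ?_
      simpa using hS1
    · intro x hx
      obtain ⟨y, _, rfl⟩ := Finset.mem_image.mp hx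
      exact ⟨lift y, rfl⟩
    · refine nongen hG _ N ?_ ?_
      · rw [hN, Subgroup.closure_le]
        rintro g (hg | hg)
        · exact (le_sup_right : _ ≤ Subgroup.closure (F ∪ (S' : Set G)) ⊔ Subgroup.closure Sq)
            (Subgroup.subset_closure hg)
        · exact (le_sup_left : _ ≤ Subgroup.closure (F ∪ (S' : Set G)) ⊔ Subgroup.closure Sq)
            (Subgroup.subset_closure (Or.inl hg))
      · rw [eq_top_iff]
        intro g _
        have h1 : QuotientGroup.mk' N g ∈
            (Subgroup.closure (F ∪ (S' : Set G))).map (QuotientGroup.mk' N) := by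
          have h2 : Subgroup.closure (S : Set (G ⧸ N)) ≤
              (Subgroup.closure (F ∪ (S' : Set G))).map (QuotientGroup.mk' N) := by
            rw [Subgroup.closure_le]
            intro x hx
            have hx' : x ∈ S := hx
            refine ⟨lift ⟨x, hx'⟩ * (φ (lift ⟨x, hx'⟩))⁻¹, ?_, ?_⟩
            · refine Subgroup.subset_closure (Or.inr ?_)
              exact Finset.mem_coe.mpr (Finset.mem_image.mpr ⟨⟨x, hx'⟩, Finset.mem_univ _, rfl⟩)
            · rw [map_mul, map_inv, ← hTmk, hlift]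
              exact (hf x hx').symm
          rw [hS3] at h2
          exact h2 (Subgroup.mem_top _)
        obtain ⟨y, hy, hyg⟩ := h1
        have h3 : y⁻¹ * g ∈ N := QuotientGroup.eq.mp hyg
        have h4 : g = y * (y⁻¹ * g) := by group
        rw [h4]
        exact Subgroup.mul_mem _ (Subgroup.mem_sup_left hy) (Subgroup.mem_sup_right h3)
  · right
    refine ⟨g, hg1, hg2.trans ?_⟩
    refine Nat.card_le_card_of_injective (fun U => ⟨U.1.comap (QuotientGroup.mk' N), ?_⟩) ?_
    · intro L hL hLφ
      have hNL : N ≤ L := by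
        refine le_trans ?_ hL
        intro x hx
        rw [Subgroup.mem_comap]
        have : QuotientGroup.mk' N x = 1 := (QuotientGroup.eq_one_iff x).mpr hx
        rw [this]
        exact Subgroup.one_mem _
      have h1 : L.map (QuotientGroup.mk' N) = ⊤ := by
        refine U.2 _ ?_ ?_
        · intro x hx
          obtain ⟨g', rfl⟩ := QuotientGroup.mk'_surjective N x
          exact ⟨g', hL hx, rfl⟩
        · rintro _ ⟨y, hy, rfl⟩
          exact ⟨φ y, hLφ y hy, rfl⟩
      rw [eq_top_iff]
      intro x _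
      have h2 : QuotientGroup.mk' N x ∈ L.map (QuotientGroup.mk' N) := by
        rw [h1]
        exact Subgroup.mem_top _
      obtain ⟨y, hy, hyx⟩ := h2
      have h3 : y⁻¹ * x ∈ N := QuotientGroup.eq.mp hyx
      have h4 : x = y * (y⁻¹ * x) := by group
      rw [h4]
      exact L.mul_mem hy (hNL h3)
    · intro U U' h
      have h1 : U.1.comap (QuotientGroup.mk' N) = U'.1.comap (QuotientGroup.mk' N) :=
        congrArg Subtype.val h
      exact Subtype.ext (Subgroup.comap_injective (QuotientGroup.mk'_surjective N) h1)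

end Pool.Agent.BdO
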