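import Pool.Agent.BdO.Defs

/-!
MP_7fa120_al, bounded odd part. The Frattini argument.

Proof. `H` is not a 2-group, so there is an odd prime `r` dividing `|H|`. `R = oddGen H` is a normal subgroup of `H` (conjugation
preserves orders), contained in `H`. It contains the elements of order `r` of `H`, so `r` divides `|R|`; let `C` be a Sylow
`r`-subgroup of `R` (as a subgroup of `Perm (Fin n)`), `C ≠ ⊥`, its order is a power of `r`. Frattini (`Sylow.normalizer_sup_eq_top`):
`H = R M`, `M` the normaliser of `C` in `H`. The index of `R` in `H` is a power of two: if an odd prime `p` divided it, a Sylow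
`p`-subgroup of `H` would not be contained in `R`, but its elements have odd prime power order. Let `D` be a Sylow 2-subgroup of `M`.
`M / (M ⊓ R) ≅ H / R` is a 2-group, so `M = (M ⊓ R) D` (the order of `M` divided by the order of the subgroup `(M ⊓ R) D` divides both
the index of `D` in `M`, which is odd, and the index of `M ⊓ R`, a power of two). So `R D = R M = H`.
-/

set_option autoImplicit false

namespace Pool.Agent.BdO

open Equiv Pool.Agent.NilS

private theorem two_or {m : ℕ} (hm : m ≠ 0) (h : ∀ p : ℕ, p.Prime → p ∣ m → p = 2) : ∃ k : ℕ, m = 2 ^ k :=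
  ⟨_, Nat.eq_prime_pow_of_unique_prime_dvd hm fun {d} hd hdm => h d hd hdm⟩

private theorem opp_of_order {G : Type} [Group G] {g : G} {r j : ℕ} (hr : r.Prime) (hr2 : r ≠ 2)
    (h : orderOf g = r ^ j) : Opp g := ⟨r, j, hr, hr2, h⟩

private theorem quot_two {G : Type} [Group G] [Finite G] (N : Subgroup G) [N.Normal]
    (hN : ∀ g : G, Opp g → g ∈ N) : ∃ k : ℕ, Nat.card (G ⧸ N) = 2 ^ k := by
  refine two_or Nat.card_pos.ne' fun p hp hdvd => ?_
  by_contra hp2
  have : Fact p.Prime := ⟨hp⟩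
  obtain ⟨x, hx⟩ := exists_prime_orderOf_dvd_card' p hdvd
  obtain ⟨g, rfl⟩ := QuotientGroup.mk_surjective x
  obtain ⟨a, m, hm, hgm⟩ := Nat.exists_eq_pow_mul_and_not_dvd (isOfFinOrder_of_finite g).orderOf_pos.ne' p
    hp.ne_one
  have hm0 : m ≠ 0 := by
    rintro rfl
    exact hm (dvd_zero p)
  have h1 : orderOf (g ^ m) = p ^ a := by
    rw [orderOf_pow_of_dvd hm0 (by rw [hgm]; exact dvd_mul_left m _), hgm,
      Nat.mul_div_cancel _ (Nat.pos_of_ne_zero hm0)]
  have h2 : g ^ m ∈ N := hN _ (opp_of_order hp hp2 h1)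
  have h3 : ((g : G ⧸ N)) ^ m = 1 := by
    rw [← QuotientGroup.mk_pow]
    exact (QuotientGroup.eq_one_iff _).mpr h2
  rw [← orderOf_dvd_iff_pow_eq_one, hx] at h3
  exact hm h3

private theorem frat_aux (G : Type) [Group G] [Finite G] (h : ¬ ∃ k : ℕ, Nat.card G = 2 ^ k) :
    ∃ C D : Subgroup G, C ≤ oddGen (⊤ : Subgroup G) ∧ Odd (Nat.card C) ∧ C ≠ ⊥ ∧
      (∃ k : ℕ, Nat.card D = 2 ^ k) ∧ Nz D C ∧ oddGen (⊤ : Subgroup G) ⊔ D = ⊤ := by
  set N := oddGen (⊤ : Subgroup G) with hNdef
  have hN : ∀ g : G, Opp g → g ∈ N := fun g hg => Subgroup.subset_closure ⟨Subgroup.mem_top g, hg⟩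
  have hnorm : N.Normal := by
    constructor
    intro n hn g
    have h1 : N ≤ N.comap (MulAut.conj g).toMonoidHom := by
      rw [hNdef]
      unfold oddGen
      rw [Subgroup.closure_le]
      rintro x ⟨-, r, j, hr, hr2, hx⟩
      rw [SetLike.mem_coe, Subgroup.mem_comap]
      refine Subgroup.subset_closure ⟨Subgroup.mem_top _, r, j, hr, hr2, ?_⟩
      rw [← hx]
      exact MulEquiv.orderOf_eq (MulAut.conj g) x
    have h2 := h1 hn
    rw [Subgroup.mem_comap] at h2
    exact h2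
  obtain ⟨r, hr, hrd, hr2⟩ : ∃ r : ℕ, r.Prime ∧ r ∣ Nat.card G ∧ r ≠ 2 := by
    by_contra hcon
    push Not at hcon
    exact h (two_or Nat.card_pos.ne' hcon)
  have : Fact r.Prime := ⟨hr⟩
  obtain ⟨x, hx⟩ := exists_prime_orderOf_dvd_card' r hrd
  have hxN : x ∈ N := hN x (opp_of_order (j := 1) hr hr2 (by rw [hx, pow_one]))
  have hrN : r ∣ Nat.card N := by
    rw [← hx, ← Subgroup.orderOf_mk x hxN]
    exact orderOf_dvd_natCard _
  obtain ⟨P⟩ : Nonempty (Sylow r N) := inferInstance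
  set C := (P : Subgroup N).map N.subtype with hC
  have hfrat : Subgroup.normalizer (C : Set G) ⊔ N = ⊤ := Sylow.normalizer_sup_eq_top P
  set M := Subgroup.normalizer (C : Set G) with hM
  obtain ⟨D0⟩ : Nonempty (Sylow 2 M) := inferInstance
  refine ⟨C, (D0 : Subgroup M).map M.subtype, ?_, ?_, ?_, ?_, ?_, ?_⟩
  · rw [hC]
    exact Subgroup.map_subtype_le _
  · rw [hC, Subgroup.card_map_of_injective (Subgroup.subtype_injective N)]
    obtain ⟨k, hk⟩ := IsPGroup.exists_card_eq P.isPGroup'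
    rw [hk]
    exact (hr.odd_of_ne_two hr2).pow
  · intro h1
    rw [hC, Subgroup.map_eq_bot_iff_of_injective _ (Subgroup.subtype_injective N)] at h1
    exact P.ne_bot_of_dvd_card hrN h1
  · rw [Subgroup.card_map_of_injective (Subgroup.subtype_injective M)]
    exact IsPGroup.exists_card_eq D0.isPGroup'
  · rintro l hl o ho
    obtain ⟨l', -, rfl⟩ := Subgroup.mem_map.mp hl
    exact (Subgroup.mem_normalizer_iff.mp l'.2 o).mp ho
  · -- the quotient is a 2-group and `M` maps onto it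
    obtain ⟨k, hk⟩ := quot_two N hN
    have hQ : IsPGroup 2 (G ⧸ N) := IsPGroup.of_card hk
    set f : M →* G ⧸ N := (QuotientGroup.mk' N).comp M.subtype with hf
    have hsurj : Function.Surjective f := by
      rw [← MonoidHom.range_eq_top, hf, MonoidHom.range_comp, Subgroup.range_subtype]
      have h1 := congrArg (Subgroup.map (QuotientGroup.mk' N)) hfrat
      rw [Subgroup.map_sup, QuotientGroup.map_mk'_self, sup_bot_eq] at h1
      rw [h1, ← MonoidHom.range_eq_map, MonoidHom.range_eq_top]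
      exact QuotientGroup.mk'_surjective N
    have h2 : (D0 : Subgroup M).map f = ⊤ := by
      have h3 := (D0.mapSurjective hsurj).is_maximal' (hQ.to_subgroup ⊤) le_top
      rw [h3]
      rfl
    rw [← Subgroup.map_map] at h2
    rw [eq_top_iff]
    intro g _
    have h3 : (QuotientGroup.mk' N g) ∈ ((D0 : Subgroup M).map M.subtype).map (QuotientGroup.mk' N) := by
      rw [h2]
      exact Subgroup.mem_top _
    obtain ⟨d, hd, hdg⟩ := Subgroup.mem_map.mp h3
    have h4 : d⁻¹ * g ∈ N := QuotientGroup.eq.mp hdg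
    have h5 : g = d * (d⁻¹ * g) := by group
    rw [h5]
    exact mul_mem (Subgroup.mem_sup_right hd) (Subgroup.mem_sup_left h4)

theorem exists_frat {Ω : Type} [Finite Ω] (H : Subgroup (Perm Ω)) (h : ¬ Two H) :
    ∃ C D : Subgroup (Perm Ω), C ≤ oddGen H ∧ Odd (Nat.card C) ∧ C ≠ ⊥ ∧ Two D ∧ Nz D C ∧ oddGen H ⊔ D = H := by
  obtain ⟨C, D, h1, h2, h3, h4, h5, h6⟩ := frat_aux H h
  have hgen : oddGen H = (oddGen (⊤ : Subgroup H)).map H.subtype := by
    unfold oddGen
    rw [MonoidHom.map_closure]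
    congr 1
    ext g
    constructor
    · rintro ⟨hg, r, j, hr, hr2, ho⟩
      exact ⟨⟨g, hg⟩, ⟨Subgroup.mem_top _, r, j, hr, hr2, by rw [Subgroup.orderOf_mk]; exact ho⟩, rfl⟩
    · rintro ⟨g', ⟨-, r, j, hr, hr2, ho⟩, rfl⟩
      exact ⟨g'.2, r, j, hr, hr2, by rw [← ho]; exact Subgroup.orderOf_coe g'⟩
  have hinj := Subgroup.subtype_injective H
  refine ⟨C.map H.subtype, D.map H.subtype, ?_, ?_, ?_, ?_, ?_, ?_⟩
  · rw [hgen]
    exact Subgroup.map_mono h1
  · rwa [Subgroup.card_map_of_injective hinj]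
  · intro h7
    exact h3 ((Subgroup.map_eq_bot_iff_of_injective _ hinj).mp h7)
  · unfold Two
    rw [Subgroup.card_map_of_injective hinj]
    exact h4
  · rintro l hl o ho
    obtain ⟨l', hl', rfl⟩ := Subgroup.mem_map.mp hl
    obtain ⟨o', ho', rfl⟩ := Subgroup.mem_map.mp ho
    exact Subgroup.mem_map.mpr ⟨l' * o' * l'⁻¹, h5 l' hl' o' ho', by simp⟩
  · rw [hgen, ← Subgroup.map_sup, h6, ← MonoidHom.range_eq_map, Subgroup.range_subtype]

end Pool.Agent.BdO
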