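import Pool.Agent.BdO.Defs
import Pool.Agent.NilS.GrowT
import Pool.Agent.NilS.NSub
import Pool.Agent.NilS.SupT

/-!
MP_7fa120_al, bounded odd part. Growth of the number of 2-subgroups.

`grow_pow` (compare `Pool.Agent.NilS.grow_nTwo`, which has `Nat.sqrt m`). Let `D = ⌊m ^ (7/8)⌋`. By `gen_count` at most `(m !) ^ D` groups have
`Gen P D`, so by `grow_count` `2 ^ D * nTwo m ≤ nTwo (m + 2) + 2 ^ D * (m !) ^ D`. For large `m`, `2 * (m !) ^ D ≤ nTwo m`, because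
`D log (m !) ≤ m ^ (15/8) log m = o (m ^ 2)` and `nTwo m ≥ 2 ^ ((m / 2 / 2) * (m / 2 - m / 2 / 2))` (`nTwo_lower`), exponent at least
`m ^ 2 / 16 - m`.
`grow_exp`. Let `2 ≤ k`, `2 k ≤ n`. Apply `grow_pow` `⌊k / 2⌋ ≥ k / 3` times, starting at `n - k ≥ n / 2` (and `nTwo_mono` if `k` is odd):
every step multiplies by at least `2 ^ (⌊(n/2) ^ (7/8)⌋ - 1) ≥ exp (n ^ (7/8) / 8)` for large `n` (`(1/2) ^ (7/8) * log 2 > 0.37`), so the
product is at least `exp (k n ^ (7/8) / 24)`.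
-/

set_option autoImplicit false

namespace Pool.Agent.BdO

open Equiv Pool.Agent.NilS Filter Topology

/-- For large `m` the logarithm is small against `m ^ (1/8)`. -/
private theorem growP_log : ∃ m₀ : ℕ, ∀ m : ℕ, m₀ ≤ m →
    128 * (Nat.log 2 m + 1) * ⌊(m : ℝ) ^ (7 / 8 : ℝ)⌋₊ ≤ m := by
  have h := (isLittleO_log_rpow_atTop (show (0 : ℝ) < 1 / 8 by norm_num)).bound
    (show (0 : ℝ) < Real.log 2 / 256 by positivity)
  have h' := tendsto_natCast_atTop_atTop (R := ℝ) |>.eventually h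
  have h2 : ∀ᶠ m : ℕ in atTop, (256 : ℝ) ≤ (m : ℝ) ^ (1 / 8 : ℝ) :=
    ((tendsto_rpow_atTop (show (0 : ℝ) < 1 / 8 by norm_num)).comp
      (tendsto_natCast_atTop_atTop (R := ℝ))).eventually_ge_atTop 256
  obtain ⟨m₀, hm₀⟩ := eventually_atTop.1 (h'.and h2)
  refine ⟨max m₀ 1, fun m hm => ?_⟩
  obtain ⟨h3, h4⟩ := hm₀ m ((le_max_left _ _).trans hm)
  have hm1 : 1 ≤ m := (le_max_right _ _).trans hm
  have hmR : (1 : ℝ) ≤ m := by exact_mod_cast hm1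
  have hm0 : (0 : ℝ) < m := by linarith
  have h5 : Real.log m ≤ Real.log 2 / 256 * (m : ℝ) ^ (1 / 8 : ℝ) := by
    have := h3
    rw [Real.norm_of_nonneg (Real.log_nonneg hmR), Real.norm_of_nonneg (by positivity)] at this
    exact this
  have hl2 : (0 : ℝ) < Real.log 2 := Real.log_pos (by norm_num)
  have h6 : (Nat.log 2 m : ℝ) ≤ (m : ℝ) ^ (1 / 8 : ℝ) / 256 := by
    have h7 : ((2 : ℝ) ^ (Nat.log 2 m)) ≤ m := by exact_mod_cast Nat.pow_log_le_self 2 (by omega)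
    have h8 : (Nat.log 2 m : ℝ) * Real.log 2 ≤ Real.log m := by
      rw [← Real.log_pow]
      exact Real.log_le_log (by positivity) h7
    have h9 : (Nat.log 2 m : ℝ) * Real.log 2 ≤ (m : ℝ) ^ (1 / 8 : ℝ) / 256 * Real.log 2 := by
      refine h8.trans (h5.trans (le_of_eq ?_))
      ring
    exact le_of_mul_le_mul_right h9 hl2
  have h10 : (⌊(m : ℝ) ^ (7 / 8 : ℝ)⌋₊ : ℝ) ≤ (m : ℝ) ^ (7 / 8 : ℝ) := Nat.floor_le (by positivity)
  have h11 : (m : ℝ) ^ (1 / 8 : ℝ) * (m : ℝ) ^ (7 / 8 : ℝ) = m := by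
    rw [← Real.rpow_add hm0]
    norm_num
  have h12 : (128 : ℝ) * (Nat.log 2 m + 1) ≤ (m : ℝ) ^ (1 / 8 : ℝ) := by linarith
  have h13 : (128 : ℝ) * (Nat.log 2 m + 1) * (⌊(m : ℝ) ^ (7 / 8 : ℝ)⌋₊ : ℝ) ≤ m := by
    calc (128 : ℝ) * (Nat.log 2 m + 1) * (⌊(m : ℝ) ^ (7 / 8 : ℝ)⌋₊ : ℝ)
        ≤ (m : ℝ) ^ (1 / 8 : ℝ) * (m : ℝ) ^ (7 / 8 : ℝ) := by
          refine mul_le_mul h12 h10 (by positivity) (by positivity)
      _ = m := h11
  exact_mod_cast h13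

private theorem growP_exp (m D : ℕ) (hm : 16 ≤ m) (h4 : 128 * (Nat.log 2 m + 1) * D ≤ m) (hD1 : 1 ≤ D) :
    1 + (Nat.log 2 m + 1) * m * D ≤ (m / 2 / 2) * (m / 2 - m / 2 / 2) := by
  set L := Nat.log 2 m with hL
  have h5 : m ≤ 8 * (m / 2 / 2) := by omega
  have h6 : m ≤ 8 * (m / 2 - m / 2 / 2) := by omega
  have h7 : m * m ≤ 64 * ((m / 2 / 2) * (m / 2 - m / 2 / 2)) := by
    have := Nat.mul_le_mul h5 h6
    nlinarith
  have h8 : 128 * ((L + 1) * m * D) ≤ m * m := by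
    have := Nat.mul_le_mul_right m h4
    nlinarith
  have h9 : 1 ≤ (L + 1) * m * D := by
    have : 1 ≤ (L + 1) * m := Nat.one_le_iff_ne_zero.mpr (by positivity)
    exact Nat.mul_le_mul this hD1
  omega

private theorem growP_fac (m D : ℕ) (hm : 16 ≤ m) (h4 : 128 * (Nat.log 2 m + 1) * D ≤ m) (hD1 : 1 ≤ D) :
    2 * m.factorial ^ D ≤ nTwo m := by
  have h1 : m.factorial ≤ m ^ m := Nat.factorial_le_pow m
  have h2 : m ≤ 2 ^ (Nat.log 2 m + 1) := (Nat.lt_pow_succ_log_self (by norm_num) m).le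
  have h3 : m.factorial ^ D ≤ 2 ^ ((Nat.log 2 m + 1) * m * D) := by
    rw [pow_mul, pow_mul]
    exact Nat.pow_le_pow_left (h1.trans (Nat.pow_le_pow_left h2 m)) _
  calc 2 * m.factorial ^ D ≤ 2 * 2 ^ ((Nat.log 2 m + 1) * m * D) := Nat.mul_le_mul_left 2 h3
    _ = 2 ^ (1 + (Nat.log 2 m + 1) * m * D) := by rw [pow_add, pow_one]
    _ ≤ 2 ^ ((m / 2 / 2) * (m / 2 - m / 2 / 2)) :=
      Nat.pow_le_pow_right (by norm_num) (growP_exp m D hm h4 hD1)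
    _ ≤ nTwo m := nTwo_lower m

private theorem growP_split (m D : ℕ) :
    nTwo m ≤ Nat.card {P : Subgroup (Perm (Fin m)) // Two P ∧ ¬ Gen P D} +
      Nat.card {P : Subgroup (Perm (Fin m)) // Gen P D} := by
  classical
  rw [← Nat.card_sum]
  refine Nat.card_le_card_of_injective
    (fun P : {P : Subgroup (Perm (Fin m)) // Two P} =>
      if h : Gen P.1 D then (Sum.inr ⟨P.1, h⟩ : {P : Subgroup (Perm (Fin m)) // Two P ∧ ¬ Gen P D} ⊕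
        {P : Subgroup (Perm (Fin m)) // Gen P D}) else Sum.inl ⟨P.1, P.2, h⟩) ?_
  rintro ⟨P, hP⟩ ⟨Q, hQ⟩ hPQ
  dsimp only at hPQ
  split_ifs at hPQ with h1 h2 h2
  · simpa using hPQ
  · simpa using hPQ

theorem grow_pow : ∃ m₀ : ℕ, ∀ m : ℕ, m₀ ≤ m → 2 ^ ⌊(m : ℝ) ^ (7 / 8 : ℝ)⌋₊ * nTwo m ≤ 2 * nTwo (m + 2) := by
  obtain ⟨m₀, hm₀⟩ := growP_log
  refine ⟨max m₀ 16, fun m hm => ?_⟩
  have h0 := hm₀ m ((le_max_left _ _).trans hm)
  have hm16 : 16 ≤ m := (le_max_right _ _).trans hm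
  have hD1 : 1 ≤ ⌊(m : ℝ) ^ (7 / 8 : ℝ)⌋₊ := by
    rw [Nat.one_le_floor_iff]
    refine Real.one_le_rpow ?_ (by norm_num)
    exact_mod_cast (by omega : 1 ≤ m)
  set D := ⌊(m : ℝ) ^ (7 / 8 : ℝ)⌋₊
  have h1 := growP_fac m D hm16 h0 hD1
  have h2 := growP_split m D
  have h3 := grow_count m D
  have h4 := gen_count m D
  set A := Nat.card {P : Subgroup (Perm (Fin m)) // Two P ∧ ¬ Gen P D}
  set B := Nat.card {P : Subgroup (Perm (Fin m)) // Gen P D}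
  set T := nTwo m
  have h5 : 2 * B ≤ T := (Nat.mul_le_mul_left 2 h4).trans h1
  have h6 : T ≤ 2 * A := by omega
  calc 2 ^ D * T ≤ 2 ^ D * (2 * A) := Nat.mul_le_mul_left _ h6
    _ = 2 * (2 ^ D * A) := by ring
    _ ≤ 2 * nTwo (m + 2) := Nat.mul_le_mul_left 2 h3

/-- One step in the form used for the iteration. -/
private theorem growP_step (m E : ℕ) (h : 2 ^ ⌊(m : ℝ) ^ (7 / 8 : ℝ)⌋₊ * nTwo m ≤ 2 * nTwo (m + 2))
    (hE : E + 1 ≤ ⌊(m : ℝ) ^ (7 / 8 : ℝ)⌋₊) : 2 ^ E * nTwo m ≤ nTwo (m + 2) := by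
  have h1 : 2 ^ (E + 1) * nTwo m ≤ 2 * nTwo (m + 2) :=
    (Nat.mul_le_mul_right _ (Nat.pow_le_pow_right (by norm_num) hE)).trans h
  have h2 : 2 ^ (E + 1) * nTwo m = 2 * (2 ^ E * nTwo m) := by ring
  omega

private theorem growP_iter (m₀ E a : ℕ)
    (h : ∀ m : ℕ, m₀ ≤ m → 2 ^ ⌊(m : ℝ) ^ (7 / 8 : ℝ)⌋₊ * nTwo m ≤ 2 * nTwo (m + 2)) (ha : m₀ ≤ a)
    (hE : E + 1 ≤ ⌊(a : ℝ) ^ (7 / 8 : ℝ)⌋₊) (j : ℕ) : 2 ^ (j * E) * nTwo a ≤ nTwo (a + 2 * j) := by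
  induction j with
  | zero => simp
  | succ j ih =>
    have h1 : a ≤ a + 2 * j := by omega
    have h2 : E + 1 ≤ ⌊((a + 2 * j : ℕ) : ℝ) ^ (7 / 8 : ℝ)⌋₊ := by
      refine hE.trans (Nat.floor_le_floor ?_)
      exact Real.rpow_le_rpow (by positivity) (by exact_mod_cast h1) (by norm_num)
    have h3 := growP_step (a + 2 * j) E (h _ (ha.trans h1)) h2
    have h4 : a + 2 * (j + 1) = a + 2 * j + 2 := by ring
    rw [h4]
    calc 2 ^ ((j + 1) * E) * nTwo a = 2 ^ E * (2 ^ (j * E) * nTwo a) := by ring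
      _ ≤ 2 ^ E * nTwo (a + 2 * j) := Nat.mul_le_mul_left _ ih
      _ ≤ nTwo (a + 2 * j + 2) := h3

theorem grow_exp : ∃ n₀ : ℕ, ∀ n : ℕ, n₀ ≤ n → ∀ k : ℕ, 2 ≤ k → 2 * k ≤ n →
    (nTwo (n - k) : ℝ) * Real.exp (k * (n : ℝ) ^ (7 / 8 : ℝ) / 32) ≤ (nTwo n : ℝ) := by
  obtain ⟨m₀, hm₀⟩ := grow_pow
  have h2 : ∀ᶠ m : ℕ in atTop, (100 : ℝ) ≤ (m : ℝ) ^ (7 / 8 : ℝ) :=
    ((tendsto_rpow_atTop (show (0 : ℝ) < 7 / 8 by norm_num)).comp
      (tendsto_natCast_atTop_atTop (R := ℝ))).eventually_ge_atTop 100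
  obtain ⟨n₁, hn₁⟩ := eventually_atTop.1 h2
  refine ⟨max n₁ (2 * m₀ + 2), fun n hn k hk hkn => ?_⟩
  have hx := hn₁ n ((le_max_left _ _).trans hn)
  have hn2 : 2 * m₀ + 2 ≤ n := (le_max_right _ _).trans hn
  set x : ℝ := (n : ℝ) ^ (7 / 8 : ℝ) with hxdef
  have hnpos : (0 : ℝ) < n := by exact_mod_cast (by omega : 0 < n)
  -- the starting point
  obtain ⟨j, a, hja, hka, hjk⟩ : ∃ j a : ℕ, a + 2 * j = n ∧ n - k ≤ a ∧ k ≤ 3 * j := by
    refine ⟨k / 2, n - 2 * (k / 2), by omega, by omega, by omega⟩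
  have ham : m₀ ≤ a := by omega
  have hahalf : (n : ℝ) / 2 ≤ a := by
    have : n ≤ 2 * a := by omega
    have h : (n : ℝ) ≤ 2 * a := by exact_mod_cast this
    linarith
  have hax : x / 2 ≤ (a : ℝ) ^ (7 / 8 : ℝ) := by
    have h3 : ((n : ℝ) / 2) ^ (7 / 8 : ℝ) ≤ (a : ℝ) ^ (7 / 8 : ℝ) :=
      Real.rpow_le_rpow (by positivity) hahalf (by norm_num)
    refine le_trans ?_ h3
    rw [Real.div_rpow hnpos.le (by norm_num)]
    have h4 : (2 : ℝ) ^ (7 / 8 : ℝ) ≤ 2 := by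
      calc (2 : ℝ) ^ (7 / 8 : ℝ) ≤ (2 : ℝ) ^ (1 : ℝ) :=
            Real.rpow_le_rpow_of_exponent_le (by norm_num) (by norm_num)
        _ = 2 := Real.rpow_one 2
    exact div_le_div_of_nonneg_left (by positivity) (by positivity) h4
  set F := ⌊(a : ℝ) ^ (7 / 8 : ℝ)⌋₊ with hF
  have hF1 : x / 2 - 1 < F := by
    have := Nat.lt_floor_add_one ((a : ℝ) ^ (7 / 8 : ℝ))
    rw [← hF] at this
    linarith
  have hF2 : 1 ≤ F := by
    have : (0 : ℝ) < F := by linarith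
    have : 0 < F := by exact_mod_cast this
    omega
  obtain ⟨E, hE⟩ : ∃ E, E + 1 = F := ⟨F - 1, by omega⟩
  have h5 := growP_iter m₀ E a hm₀ ham (by omega) j
  rw [hja] at h5
  have h6 : nTwo (n - k) ≤ nTwo a := nTwo_mono hka
  have hE2 : x / 2 - 2 < E := by
    have : (E : ℝ) + 1 = F := by exact_mod_cast hE
    linarith
  have hl2 : (0.69 : ℝ) < Real.log 2 := by
    have := Real.log_two_gt_d9
    linarith
  have hjR : (k : ℝ) ≤ 3 * j := by exact_mod_cast hjk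
  have hk0 : (0 : ℝ) < k := by exact_mod_cast (by omega : 0 < k)
  have hexp : Real.exp (k * x / 32) ≤ (2 : ℝ) ^ (j * E) := by
    have h7 : (2 : ℝ) ^ (j * E) = Real.exp (Real.log 2 * (j * E : ℕ)) := by
      rw [mul_comm (Real.log 2), Real.exp_nat_mul, Real.exp_log (by norm_num)]
    rw [h7]
    refine Real.exp_le_exp.2 ?_
    push_cast
    have h8 : (k : ℝ) / 3 * (x / 2 - 2) ≤ j * E := by
      refine mul_le_mul (by linarith) hE2.le (by linarith) (by positivity)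
    have h9 : 0.69 * ((k : ℝ) / 3 * (x / 2 - 2)) ≤ Real.log 2 * (j * E) := by
      refine mul_le_mul hl2.le h8 ?_ (by positivity)
      have : (0 : ℝ) ≤ x / 2 - 2 := by linarith
      positivity
    refine le_trans ?_ h9
    nlinarith [mul_pos hk0 (show (0 : ℝ) < x - 99 by linarith)]
  calc (nTwo (n - k) : ℝ) * Real.exp (k * x / 32) ≤ (nTwo a : ℝ) * (2 : ℝ) ^ (j * E) := by
        refine mul_le_mul (by exact_mod_cast h6) hexp (Real.exp_pos _).le (by positivity)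
    _ = ((2 ^ (j * E) * nTwo a : ℕ) : ℝ) := by push_cast; ring
    _ ≤ (nTwo n : ℝ) := by exact_mod_cast h5

end Pool.Agent.BdO
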