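import Pool.Agent.BdO.Defs
import Pool.Agent.NilS.SupT

/-!
MP_7fa120_al, bounded odd part. Many subgroups of order `3 * 2 ^ a` for `n = 3 mod 4`.

Proof. Let `P` be a 2-subgroup of `Perm (Fin n)`. The number of its fixed points is odd (`n` is odd).
(1) At least three fixed points: `P` moves only points outside a set of 3 points, so there are at most `n ^ 3 * nTwo (n - 3)` such `P`
(`two_support`).
(2) Exactly one fixed point `x`. The other `n - 1 = 2 mod 4` points are in orbits whose lengths are powers of two, at least 2, so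
there is an orbit `{a, b}` of length 2 (otherwise 4 divides `n - 1`). Choose one for every such `P` and let `c` be the 3-cycle
`(a b x)`. Every `p ∈ P` fixes `x` and preserves `{a, b}`, so `p c p⁻¹ = c` or `c⁻¹`. So `H = P ⊔ zpowers c` has order `3 * |P|` (`P` normalises
`zpowers c`, `P ⊓ zpowers c = ⊥`), its odd part is `3 ≤ K`, so it is counted by `nX K n`. Given `H`, the possible `P` are Sylow
2-subgroups of `H`; they are conjugate in `H` and their number divides the index `3`, so there are at most 3 of them. So there are at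
most `3 * nX K n` groups `P` of this kind.
-/

set_option autoImplicit false

namespace Pool.Agent.BdO

open Equiv Pool.Agent.NilS

/-- The group generated by `K` and the 3-cycle on `p`, `i`, `j` has order `3 * |K|`. -/
private theorem odd_ext {Ω : Type} [Finite Ω] [DecidableEq Ω] (K : Subgroup (Perm Ω)) (p i j : Ω)
    (hpi : p ≠ i) (hpj : p ≠ j) (hij : i ≠ j) (hp : ∀ k ∈ K, k p = p)
    (hk : ∀ k ∈ K, (k i = i ∧ k j = j) ∨ (k i = j ∧ k j = i)) :
    ∃ H : Subgroup (Perm Ω), K ≤ H ∧ Nat.card H = 3 * Nat.card K := by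
  obtain ⟨c, hc⟩ : ∃ c : Perm Ω, c = swap p i * swap p j := ⟨_, rfl⟩
  have hord : orderOf c = 3 := by
    have := Fintype.ofFinite Ω
    rw [hc]
    exact (Perm.isThreeCycle_swap_mul_swap_same hpi hpj hij).orderOf
  have hcp : c p = j := by
    rw [hc, Perm.mul_apply, swap_apply_left, swap_apply_of_ne_of_ne hpj.symm hij.symm]
  have hc3 : c ^ 3 = 1 := by
    rw [← hord]
    exact pow_orderOf_eq_one c
  have hcinv : c⁻¹ = swap p j * swap p i := by
    rw [hc, mul_inv_rev, swap_inv, swap_inv]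
  have hmem : ∀ z ∈ Subgroup.zpowers c, z = 1 ∨ z = c ∨ z = c⁻¹ := by
    intro z hz
    obtain ⟨n, hn⟩ := Subgroup.mem_zpowers_iff.1 hz
    rw [← zpow_mod_orderOf, hord] at hn
    have h1 : n % ((3 : ℕ) : ℤ) = 0 ∨ n % ((3 : ℕ) : ℤ) = 1 ∨ n % ((3 : ℕ) : ℤ) = 2 := by omega
    rcases h1 with h1 | h1 | h1
    · rw [h1, zpow_zero] at hn
      exact Or.inl hn.symm
    · rw [h1, zpow_one] at hn
      exact Or.inr (Or.inl hn.symm)
    · rw [h1] at hn
      refine Or.inr (Or.inr ?_)
      rw [← hn, eq_inv_iff_mul_eq_one, ← hc3]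
      group
  have hzp : ∀ z ∈ Subgroup.zpowers c, z p = p → z = 1 := by
    intro z hz h0
    rcases hmem z hz with h1 | h1 | h1
    · exact h1
    · rw [h1, hcp] at h0
      exact absurd h0.symm hpj
    · rw [h1, Perm.inv_eq_iff_eq, hcp] at h0
      exact absurd h0 hpj
  have hn : ∀ k ∈ K, ∀ z ∈ Subgroup.zpowers c, k * z * k⁻¹ ∈ Subgroup.zpowers c := by
    intro k hkK z hz
    have hA : k * swap p i = swap p (k i) * k := by rw [mul_swap_eq_swap_mul, hp k hkK]
    have hB : k * swap p j = swap p (k j) * k := by rw [mul_swap_eq_swap_mul, hp k hkK]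
    have h1 : k * c * k⁻¹ = swap p (k i) * swap p (k j) := by
      calc k * c * k⁻¹ = (k * swap p i) * swap p j * k⁻¹ := by rw [hc, mul_assoc k (swap p i)]
        _ = swap p (k i) * (k * swap p j) * k⁻¹ := by rw [hA, mul_assoc (swap p (k i))]
        _ = swap p (k i) * swap p (k j) := by rw [hB, ← mul_assoc, mul_inv_cancel_right]
    have h2 : k * c * k⁻¹ ∈ Subgroup.zpowers c := by
      rcases hk k hkK with h3 | h3
      · rw [h1, h3.1, h3.2, ← hc]
        exact Subgroup.mem_zpowers c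
      · rw [h1, h3.1, h3.2, ← hcinv]
        exact Subgroup.inv_mem _ (Subgroup.mem_zpowers c)
    obtain ⟨n, hn⟩ := Subgroup.mem_zpowers_iff.1 hz
    rw [← hn, ← conj_zpow]
    exact Subgroup.zpow_mem _ h2 n
  let H : Subgroup (Perm Ω) :=
    { carrier := {h | ∃ k ∈ K, ∃ z ∈ Subgroup.zpowers c, h = k * z}
      mul_mem' := by
        rintro _ _ ⟨k, hk1, z, hz, rfl⟩ ⟨k', hk', z', hz', rfl⟩
        refine ⟨k * k', K.mul_mem hk1 hk', (k'⁻¹ * z * k'⁻¹⁻¹) * z',
          Subgroup.mul_mem _ (hn _ (K.inv_mem hk') z hz) hz', by group⟩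
      one_mem' := ⟨1, K.one_mem, 1, Subgroup.one_mem _, by group⟩
      inv_mem' := by
        rintro _ ⟨k, hk1, z, hz, rfl⟩
        exact ⟨k⁻¹, K.inv_mem hk1, k * z⁻¹ * k⁻¹, hn _ hk1 _ (Subgroup.inv_mem _ hz), by group⟩ }
  have hH : ∀ h, h ∈ H ↔ ∃ k ∈ K, ∃ z ∈ Subgroup.zpowers c, h = k * z := fun h => Iff.rfl
  have hcardC : Nat.card (Subgroup.zpowers c) = 3 := by rw [Nat.card_zpowers, hord]
  refine ⟨H, fun k hk1 => (hH k).2 ⟨k, hk1, 1, Subgroup.one_mem _, by group⟩, ?_⟩
  have h1 : Function.Bijective (fun x : K × Subgroup.zpowers c =>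
      (⟨x.1.1 * x.2.1, (hH _).2 ⟨x.1.1, x.1.2, x.2.1, x.2.2, rfl⟩⟩ : H)) := by
    constructor
    · rintro ⟨⟨k, hk1⟩, ⟨z, hz⟩⟩ ⟨⟨k', hk'⟩, ⟨z', hz'⟩⟩ h
      have h2 : k * z = k' * z' := congrArg Subtype.val h
      have h3 : k'⁻¹ * k = z' * z⁻¹ := by
        rw [eq_mul_inv_iff_mul_eq, mul_assoc, h2]
        group
      have h4 : z' * z⁻¹ = 1 := by
        refine hzp _ (Subgroup.mul_mem _ hz' (Subgroup.inv_mem _ hz)) ?_
        rw [← h3]
        exact hp _ (K.mul_mem (K.inv_mem hk') hk1)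
      have h5 : z' = z := mul_inv_eq_one.1 h4
      subst h5
      have h6 : k = k' := mul_right_cancel h2
      subst h6
      rfl
    · rintro ⟨h, hh⟩
      obtain ⟨k, hk1, z, hz, rfl⟩ := (hH h).1 hh
      exact ⟨⟨⟨k, hk1⟩, ⟨z, hz⟩⟩, rfl⟩
  rw [← Nat.card_eq_of_bijective _ h1, Nat.card_prod, hcardC, mul_comm]

/-- the fixed points -/
private noncomputable def fp {n : ℕ} (P : Subgroup (Perm (Fin n))) : Finset (Fin n) := by
  classical exact Finset.univ.filter fun x => ∀ p ∈ P, p x = x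

private theorem mem_fp {n : ℕ} {P : Subgroup (Perm (Fin n))} {x : Fin n} :
    x ∈ fp P ↔ ∀ p ∈ P, p x = x := by
  classical
  unfold fp
  rw [Finset.mem_filter, and_iff_right (Finset.mem_univ x)]

private theorem isPGroup_of_two {n : ℕ} {P : Subgroup (Perm (Fin n))} (hP : Two P) : IsPGroup 2 P := by
  obtain ⟨k, hk⟩ := hP
  exact IsPGroup.of_card hk

private theorem fp_odd {n : ℕ} (hn : n % 4 = 3) {P : Subgroup (Perm (Fin n))} (hP : Two P) :
    (fp P).card % 2 = 1 := by
  have : Fact (Nat.Prime 2) := ⟨Nat.prime_two⟩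
  have h1 := (isPGroup_of_two hP).card_modEq_card_fixedPoints (Fin n)
  have h2 : Nat.card (MulAction.fixedPoints P (Fin n)) = (fp P).card := by
    have h3 : MulAction.fixedPoints P (Fin n) = ((fp P : Finset (Fin n)) : Set (Fin n)) := by
      ext x
      rw [MulAction.mem_fixedPoints, Finset.mem_coe, mem_fp]
      exact ⟨fun h p hp => h ⟨p, hp⟩, fun h p => h p.1 p.2⟩
    rw [h3]
    exact Set.ncard_coe_finset (fp P)
  rw [Nat.card_fin, h2] at h1
  unfold Nat.ModEq at h1
  omega

/-- an invariant pair -/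
private theorem exists_pair {n : ℕ} (hn : n % 4 = 3) {P : Subgroup (Perm (Fin n))} (hP : Two P) :
    ∃ i j : Fin n, i ≠ j ∧ ∀ k ∈ P, (k i = i ∧ k j = j) ∨ (k i = j ∧ k j = i) := by
  classical
  have : Fact (Nat.Prime 2) := ⟨Nat.prime_two⟩
  let act : MulAction P {s : Finset (Fin n) // s.card = 2} :=
    { smul := fun p s => ⟨s.1.map (p : Perm (Fin n)).toEmbedding, by rw [Finset.card_map]; exact s.2⟩
      one_smul := fun s => Subtype.ext (by
        show s.1.map (Equiv.refl (Fin n)).toEmbedding = s.1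
        exact Finset.map_refl)
      mul_smul := fun p q s => Subtype.ext (by
        show s.1.map ((p : Perm (Fin n)) * q).toEmbedding =
          (s.1.map (q : Perm (Fin n)).toEmbedding).map (p : Perm (Fin n)).toEmbedding
        rw [Finset.map_map]
        rfl) }
  have hcard : ¬ 2 ∣ Nat.card {s : Finset (Fin n) // s.card = 2} := by
    rw [Nat.card_eq_fintype_card, Fintype.card_finset_len, Fintype.card_fin, Nat.choose_two_right]
    obtain ⟨m, rfl⟩ : ∃ m, n = 4 * m + 3 := ⟨n / 4, by omega⟩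
    have h1 : (4 * m + 3) * (4 * m + 3 - 1) = 2 * (2 * (4 * m * m + 5 * m + 1) + 1) := by
      rw [show 4 * m + 3 - 1 = 4 * m + 2 by omega]
      ring
    rw [h1, Nat.mul_div_cancel_left _ (by norm_num)]
    omega
  obtain ⟨s, hs⟩ := (isPGroup_of_two hP).nonempty_fixed_point_of_prime_not_dvd_card
    {s : Finset (Fin n) // s.card = 2} hcard
  obtain ⟨i, j, hij, hsij⟩ := Finset.card_eq_two.1 s.2
  refine ⟨i, j, hij, fun k hk => ?_⟩
  have h1 : s.1.map k.toEmbedding = s.1 := congrArg Subtype.val (hs ⟨k, hk⟩)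
  have h2 : ∀ x ∈ s.1, k x ∈ s.1 := by
    intro x hx
    rw [← h1]
    exact Finset.mem_map_of_mem k.toEmbedding hx
  have h3 := h2 i (by rw [hsij]; simp)
  have h4 := h2 j (by rw [hsij]; simp)
  rw [hsij, Finset.mem_insert, Finset.mem_singleton] at h3 h4
  rcases h3 with h3 | h3
  · rcases h4 with h4 | h4
    · exact absurd (k.injective (h3.trans h4.symm)) hij
    · exact Or.inl ⟨h3, h4⟩
  · rcases h4 with h4 | h4
    · exact Or.inr ⟨h3, h4⟩
    · exact absurd (k.injective (h3.trans h4.symm)) hij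

/-- the group of order `3 * |P|` -/
private theorem exists_ext {n : ℕ} (hn : n % 4 = 3) {P : Subgroup (Perm (Fin n))} (hP : Two P)
    (hF : (fp P).card < 3) : ∃ H : Subgroup (Perm (Fin n)), P ≤ H ∧ Nat.card H = 3 * Nat.card P := by
  have h1 : (fp P).card = 1 := by
    have := fp_odd hn hP
    omega
  obtain ⟨x, hx⟩ := Finset.card_eq_one.1 h1
  obtain ⟨i, j, hij, hk⟩ := exists_pair hn hP
  have hxf : ∀ k ∈ P, k x = x := mem_fp.1 (by rw [hx]; exact Finset.mem_singleton_self x)
  have huniq : ∀ y, (∀ k ∈ P, k y = y) → y = x := by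
    intro y hy
    have h2 := mem_fp.2 hy
    rw [hx, Finset.mem_singleton] at h2
    exact h2
  have hpair : x ≠ i ∧ x ≠ j := by
    constructor
    · intro h
      subst h
      apply hij
      rw [eq_comm]
      refine huniq j fun k hkP => ?_
      rcases hk k hkP with h2 | h2
      · exact h2.2
      · exact absurd ((hxf k hkP).symm.trans h2.1) hij
    · intro h
      subst h
      apply hij
      refine huniq i fun k hkP => ?_
      rcases hk k hkP with h2 | h2
      · exact h2.1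
      · exact absurd (h2.2.symm.trans (hxf k hkP)) hij
  exact odd_ext P x i j hpair.1 hpair.2 hij hxf hk

/-- there are at most three such groups -/
private theorem card_syl {n : ℕ} (H : Subgroup (Perm (Fin n))) :
    Nat.card {P : Subgroup (Perm (Fin n)) // Two P ∧ P ≤ H ∧ Nat.card H = 3 * Nat.card P} ≤ 3 := by
  have : Fact (Nat.Prime 2) := ⟨Nat.prime_two⟩
  rcases isEmpty_or_nonempty
    {P : Subgroup (Perm (Fin n)) // Two P ∧ P ≤ H ∧ Nat.card H = 3 * Nat.card P} with hE | ⟨⟨P₀, hP₀⟩⟩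
  · rw [Nat.card_of_isEmpty]
    exact Nat.zero_le _
  obtain ⟨k, hk⟩ := hP₀.1
  have hH : Nat.card H = 3 * 2 ^ k := by rw [hP₀.2.2, hk]
  have hfac : (Nat.card H).factorization 2 = k := by
    rw [hH, Nat.factorization_mul (by norm_num) (by positivity), Nat.Prime.factorization_pow Nat.prime_two,
      Finsupp.add_apply, Finsupp.single_eq_same, Nat.factorization_eq_zero_of_not_dvd (by norm_num), zero_add]
  have hsub : ∀ P : {P : Subgroup (Perm (Fin n)) // Two P ∧ P ≤ H ∧ Nat.card H = 3 * Nat.card P},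
      Nat.card (P.1.subgroupOf H) = 2 ^ (Nat.card H).factorization 2 := by
    intro P
    have h1 : 3 * 2 ^ k = 3 * Nat.card P.1 := hH.symm.trans P.2.2.2
    rw [Nat.card_congr (Subgroup.subgroupOfEquivOfLe P.2.2.1).toEquiv, hfac]
    omega
  have hinj : Function.Injective (fun P : {P : Subgroup (Perm (Fin n)) //
      Two P ∧ P ≤ H ∧ Nat.card H = 3 * Nat.card P} => Sylow.ofCard (P.1.subgroupOf H) (hsub P)) := by
    intro P Q h
    have h1 : P.1.subgroupOf H = Q.1.subgroupOf H := by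
      have h2 := congrArg (fun S : Sylow 2 H => (S : Subgroup H)) h
      exact h2
    apply Subtype.ext
    rw [← Subgroup.map_subgroupOf_eq_of_le P.2.2.1, ← Subgroup.map_subgroupOf_eq_of_le Q.2.2.1, h1]
  refine (Nat.card_le_card_of_injective _ hinj).trans ?_
  have h1 := (Sylow.ofCard (P₀.subgroupOf H) (hsub ⟨P₀, hP₀⟩)).card_dvd_index
  have h2 : (P₀.subgroupOf H).index = 3 := by
    have h3 := (P₀.subgroupOf H).card_mul_index
    rw [hsub ⟨P₀, hP₀⟩, hfac, hH, mul_comm] at h3
    exact Nat.eq_of_mul_eq_mul_right (by positivity) h3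
  have h3 : ((Sylow.ofCard (P₀.subgroupOf H) (hsub ⟨P₀, hP₀⟩) : Sylow 2 H) : Subgroup H).index = 3 := h2
  rw [h3] at h1
  exact Nat.le_of_dvd (by norm_num) h1

/-- a bound by the fibres -/
private theorem card_le_fib {α β : Type} [Finite α] [Finite β] (g : α → β) (m : ℕ)
    (h : ∀ b, Nat.card {a // g a = b} ≤ m) : Nat.card α ≤ m * Nat.card β := by
  have : Fintype β := Fintype.ofFinite β
  rw [Nat.card_congr (Equiv.sigmaFiberEquiv g).symm, Nat.card_sigma]
  refine (Finset.sum_le_card_nsmul _ _ m fun b _ => h b).trans ?_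
  rw [Finset.card_univ, ← Nat.card_eq_fintype_card, smul_eq_mul, mul_comm]

private theorem one_fixed {n K : ℕ} (hn : n % 4 = 3) (hK : 3 ≤ K) :
    Nat.card {P : {P : Subgroup (Perm (Fin n)) // Two P} // (fp P.1).card < 3} ≤ 3 * nX K n := by
  have hex : ∀ P : {P : {P : Subgroup (Perm (Fin n)) // Two P} // (fp P.1).card < 3},
      ∃ H : {H : Subgroup (Perm (Fin n)) // Bdd K H ∧ ¬ Two H}, P.1.1 ≤ H.1 ∧
        Nat.card H.1 = 3 * Nat.card P.1.1 := by
    intro P
    obtain ⟨H, h1, h2⟩ := exists_ext hn P.1.2 P.2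
    obtain ⟨k, hk⟩ := P.1.2
    refine ⟨⟨H, ⟨k, 3, by rw [h2, hk, mul_comm], by decide, hK⟩, ?_⟩, h1, h2⟩
    rintro ⟨j, hj⟩
    have h3 : 3 ∣ 2 ^ j := by
      rw [← hj, h2]
      exact Dvd.intro _ rfl
    have h4 := Nat.prime_three.dvd_of_dvd_pow h3
    omega
  choose g hg1 hg2 using hex
  refine card_le_fib g 3 fun H => ?_
  refine (Nat.card_le_card_of_injective (fun a : {a // g a = H} => (⟨a.1.1.1, a.1.1.2, ?_, ?_⟩ :
    {P : Subgroup (Perm (Fin n)) // Two P ∧ P ≤ H.1 ∧ Nat.card H.1 = 3 * Nat.card P})) ?_).trans (card_syl H.1)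
  · have h := hg1 a.1
    rw [a.2] at h
    exact h
  · have h := hg2 a.1
    rw [a.2] at h
    exact h
  · intro a b h
    apply Subtype.ext
    apply Subtype.ext
    apply Subtype.ext
    exact congrArg (fun z : {P : Subgroup (Perm (Fin n)) // Two P ∧ P ≤ H.1 ∧
      Nat.card H.1 = 3 * Nat.card P} => z.1) h

private theorem three_fixed (n : ℕ) :
    Nat.card {P : {P : Subgroup (Perm (Fin n)) // Two P} // ¬ (fp P.1).card < 3} ≤ n ^ 3 * nTwo (n - 3) := by
  classical
  have hex : ∀ P : {P : {P : Subgroup (Perm (Fin n)) // Two P} // ¬ (fp P.1).card < 3},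
      ∃ D : {D : Finset (Fin n) // D.card = 3}, D.1 ⊆ fp P.1.1 := by
    intro P
    obtain ⟨D, h1, h2⟩ := Finset.exists_subset_card_eq (not_lt.1 P.2)
    exact ⟨⟨D, h2⟩, h1⟩
  choose g hg using hex
  have h1 : Nat.card {D : Finset (Fin n) // D.card = 3} ≤ n ^ 3 := by
    rw [Nat.card_eq_fintype_card, Fintype.card_finset_len, Fintype.card_fin]
    have h2 := Nat.descFactorial_eq_factorial_mul_choose n 3
    have h3 := Nat.descFactorial_le_pow n 3
    rw [h2] at h3
    exact (Nat.le_mul_of_pos_left _ (Nat.factorial_pos 3)).trans h3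
  refine (card_le_fib g (nTwo (n - 3)) fun D => ?_).trans ?_
  · have h2 := two_support n (D.1)ᶜ
    rw [Finset.card_compl, Fintype.card_fin, D.2] at h2
    refine (Nat.card_le_card_of_injective (fun a : {a // g a = D} => (⟨a.1.1.1, a.1.1.2, ?_⟩ :
      {H : Subgroup (Perm (Fin n)) // Two H ∧ ∀ h ∈ H, ∀ x, x ∉ (D.1)ᶜ → h x = x})) ?_).trans h2
    · intro h hh x hx
      have h3 := hg a.1
      rw [a.2] at h3
      rw [Finset.mem_compl, not_not] at hx
      exact mem_fp.1 (h3 hx) h hh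
    · intro a b h
      apply Subtype.ext
      apply Subtype.ext
      apply Subtype.ext
      exact congrArg (fun z : {H : Subgroup (Perm (Fin n)) // Two H ∧ ∀ h ∈ H, ∀ x, x ∉ (D.1)ᶜ → h x = x} => z.1) h
  · rw [mul_comm]
    exact Nat.mul_le_mul_right _ h1

theorem odd_low {n K : ℕ} (hn : n % 4 = 3) (hK : 3 ≤ K) : nTwo n ≤ 3 * nX K n + n ^ 3 * nTwo (n - 3) := by
  classical
  have h1 := one_fixed (K := K) hn hK
  have h2 := three_fixed n
  have h3 : nTwo n = Nat.card {P : {P : Subgroup (Perm (Fin n)) // Two P} // (fp P.1).card < 3} +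
      Nat.card {P : {P : Subgroup (Perm (Fin n)) // Two P} // ¬ (fp P.1).card < 3} := by
    rw [← Nat.card_sum]
    exact Nat.card_congr (Equiv.sumCompl _).symm
  omega

end Pool.Agent.BdO
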