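import Pool.Agent.BdO.GrowP

/-!
MP_7fa120_al, bounded odd part. The sum `red n q` compared to `nTwo n`.

Proof. Let `n` be large and `k ∈ Icc 2 (n / 2)`, `q ≤ k`. By `grow_exp` the summand is at most
`n ^ k * exp (- k n ^ (7/8) / 32) * nTwo n`, and `n ^ k = exp (k log n) ≤ exp (k n ^ (7/8) / 128)` for large `n`, so it is at most
`exp (- k n ^ (7/8) (1 / 32 - 1 / 128)) * nTwo n ≤ exp (- (max 2 q) n ^ (7/8) * 3 / 128) * nTwo n`; there are at most
`n ≤ exp (n ^ (7/8) / 128) ≤ exp ((max 2 q) n ^ (7/8) / 128)` summands, and `3 / 128 - 1 / 128 = 1 / 64`.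
-/

set_option autoImplicit false

namespace Pool.Agent.BdO

open Equiv Pool.Agent.NilS

theorem red_le : ∃ n₀ : ℕ, ∀ n : ℕ, n₀ ≤ n → ∀ q : ℕ,
    (red n q : ℝ) ≤ nTwo n * Real.exp (-((max 2 q : ℕ) * (n : ℝ) ^ (7 / 8 : ℝ) / 64)) := by
  obtain ⟨n₁, h₁⟩ := grow_exp
  have hlog : ∀ᶠ x : ℝ in Filter.atTop, Real.log x ≤ x ^ (7 / 8 : ℝ) / 128 := by
    have h2 := (isLittleO_log_rpow_atTop (r := 7 / 8) (by norm_num)).def (c := 1 / 128) (by norm_num)
    filter_upwards [h2, Filter.eventually_ge_atTop (1 : ℝ)] with x hx hx1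
    rw [Real.norm_eq_abs, Real.norm_eq_abs, abs_of_nonneg (Real.log_nonneg hx1),
      abs_of_nonneg (Real.rpow_nonneg (by linarith) _)] at hx
    linarith
  obtain ⟨n₂, h₂⟩ := Filter.eventually_atTop.1 (tendsto_natCast_atTop_atTop.eventually hlog)
  refine ⟨max n₁ (max n₂ 1), fun n hn q => ?_⟩
  have hn₁ : n₁ ≤ n := le_trans (le_max_left _ _) hn
  have hn₂ : n₂ ≤ n := le_trans (le_trans (le_max_left _ _) (le_max_right _ _)) hn
  have hn₃ : 1 ≤ n := le_trans (le_trans (le_max_right _ _) (le_max_right _ _)) hn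
  have hlogn := h₂ n hn₂
  have hn0 : (0 : ℝ) < n := by exact_mod_cast hn₃
  set a : ℝ := (n : ℝ) ^ (7 / 8 : ℝ) with ha
  have ha0 : 0 ≤ a := Real.rpow_nonneg hn0.le _
  set M : ℕ := max 2 q with hM
  have hM1 : (1 : ℝ) ≤ M := by
    have h3 : 1 ≤ M := le_trans (by norm_num) (le_max_left 2 q)
    exact_mod_cast h3
  have hterm : ∀ k ∈ (Finset.Icc 2 (n / 2)).filter (fun k => q ≤ k),
      ((n ^ k * nTwo (n - k) : ℕ) : ℝ) ≤ nTwo n * Real.exp (-(3 * (M * a) / 128)) := by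
    intro k hk
    rw [Finset.mem_filter, Finset.mem_Icc] at hk
    obtain ⟨⟨hk2, hkn⟩, hq⟩ := hk
    have h4 := h₁ n hn₁ k hk2 (by omega)
    have hMk : (M : ℝ) ≤ k := by
      have h5 : M ≤ k := max_le hk2 hq
      exact_mod_cast h5
    have hk0 : (0 : ℝ) ≤ k := Nat.cast_nonneg k
    have h6 : (n : ℝ) ^ k ≤ Real.exp (k * (a / 128)) := by
      have h7 : (n : ℝ) ^ k = Real.exp (k * Real.log n) := by
        rw [Real.exp_nat_mul, Real.exp_log hn0]
      rw [h7]
      exact Real.exp_le_exp.2 (mul_le_mul_of_nonneg_left hlogn hk0)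
    have h8 : (nTwo (n - k) : ℝ) ≤ nTwo n * Real.exp (-(k * a / 32)) := by
      rw [Real.exp_neg, ← div_eq_mul_inv, le_div_iff₀ (Real.exp_pos _)]
      exact h4
    have h9 : (0 : ℝ) ≤ nTwo n := Nat.cast_nonneg _
    push_cast
    calc (n : ℝ) ^ k * nTwo (n - k) ≤ Real.exp (k * (a / 128)) * (nTwo n * Real.exp (-(k * a / 32))) := by
          refine mul_le_mul h6 h8 (Nat.cast_nonneg _) (Real.exp_pos _).le
      _ = nTwo n * Real.exp (-(3 * (k * a) / 128)) := by
          rw [mul_left_comm, ← Real.exp_add]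
          congr 2
          ring
      _ ≤ nTwo n * Real.exp (-(3 * (M * a) / 128)) := by
          refine mul_le_mul_of_nonneg_left (Real.exp_le_exp.2 ?_) h9
          have h10 : (M : ℝ) * a ≤ k * a := mul_le_mul_of_nonneg_right hMk ha0
          linarith
  have hcard : (((Finset.Icc 2 (n / 2)).filter (fun k => q ≤ k)).card : ℝ) ≤ Real.exp (M * a / 128) := by
    have h11 : ((Finset.Icc 2 (n / 2)).filter (fun k => q ≤ k)).card ≤ n := by
      refine (Finset.card_filter_le _ _).trans ?_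
      rw [Nat.card_Icc]
      omega
    have h12 : (((Finset.Icc 2 (n / 2)).filter (fun k => q ≤ k)).card : ℝ) ≤ n := by exact_mod_cast h11
    refine h12.trans ?_
    rw [← Real.exp_log hn0]
    refine Real.exp_le_exp.2 ?_
    have h13 : a ≤ M * a := le_mul_of_one_le_left ha0 hM1
    linarith
  have hsum : (red n q : ℝ) ≤
      (((Finset.Icc 2 (n / 2)).filter (fun k => q ≤ k)).card : ℝ) * (nTwo n * Real.exp (-(3 * (M * a) / 128))) := by
    unfold red
    rw [Nat.cast_sum, ← nsmul_eq_mul]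
    exact Finset.sum_le_card_nsmul _ _ _ hterm
  refine hsum.trans ?_
  have h14 : (0 : ℝ) ≤ nTwo n * Real.exp (-(3 * (M * a) / 128)) :=
    mul_nonneg (Nat.cast_nonneg _) (Real.exp_pos _).le
  refine (mul_le_mul_of_nonneg_right hcard h14).trans (le_of_eq ?_)
  rw [mul_left_comm, ← Real.exp_add]
  congr 2
  ring

end Pool.Agent.BdO
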