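import Pool.Agent.BdO.Cases
import Pool.Agent.BdO.RedL
import Pool.Agent.BdO.AnS
import Pool.Agent.BdO.AnA
import Pool.Agent.BdO.AnM
import Pool.Agent.BdO.OddLow
import Pool.Agent.NilS.Main

/-!
MP_7fa120_al, bounded odd part. The main theorem.
-/

set_option autoImplicit false

namespace Pool.Agent.BdO

open Equiv Filter Topology Pool.Agent.NilS

theorem sig_small (C : ℕ) : ∀ᶠ m : ℕ in atTop, C * sig m ≤ m := by
  have h1 : Tendsto (fun m : ℕ => (m : ℝ) ^ (5 / 6 : ℝ)) atTop atTop :=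
    (tendsto_rpow_atTop (by norm_num)).comp tendsto_natCast_atTop_atTop
  filter_upwards [h1.eventually_ge_atTop (2 * C : ℝ), eventually_ge_atTop 1] with m hm hm1
  have hm0 : (1 : ℝ) ≤ m := by exact_mod_cast hm1
  have h2 : (1 : ℝ) ≤ (m : ℝ) ^ (1 / 6 : ℝ) := Real.one_le_rpow hm0 (by norm_num)
  have h3 : (m : ℝ) ^ (1 / 6 : ℝ) * (m : ℝ) ^ (5 / 6 : ℝ) = m := by
    rw [← Real.rpow_add (by linarith)]
    norm_num
  have h4 : ((sig m : ℕ) : ℝ) ≤ 2 * (m : ℝ) ^ (1 / 6 : ℝ) := by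
    unfold sig
    push_cast
    have := Nat.floor_le (show (0 : ℝ) ≤ (m : ℝ) ^ (1 / 6 : ℝ) by positivity)
    linarith
  have h5 : (C : ℝ) * sig m ≤ m := by
    calc (C : ℝ) * sig m ≤ C * (2 * (m : ℝ) ^ (1 / 6 : ℝ)) := by gcongr
      _ = (m : ℝ) ^ (1 / 6 : ℝ) * (2 * C) := by ring
      _ ≤ (m : ℝ) ^ (1 / 6 : ℝ) * (m : ℝ) ^ (5 / 6 : ℝ) := by gcongr
      _ = m := h3
  exact_mod_cast h5

theorem nX_even (K : ℕ) (hK : 1 ≤ K) : Tendsto (fun n : ℕ => (nX K (2 * n) : ℝ) / nTwo (2 * n)) atTop (𝓝 0) := by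
  set J := Nat.log 2 K.factorial with hJ
  obtain ⟨n₀, hn₀⟩ := red_le
  have hlim := ((an_S (2 * J)).add (an_A K J hK)).add (an_M K J hK)
  rw [add_zero, add_zero] at hlim
  have h2n : Tendsto (fun n : ℕ => 2 * n) atTop atTop :=
    tendsto_atTop_mono (fun n => by simp only [id]; omega) tendsto_id
  have hlim2 := hlim.comp h2n
  refine squeeze_zero' (Eventually.of_forall fun n => by positivity) ?_ hlim2
  have e1 := h2n.eventually (sig_small (2 * J))
  have e2 := h2n.eventually (eventually_ge_atTop n₀)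
  filter_upwards [e1, e2] with n h1 h2
  simp only [Function.comp_apply]
  set m := 2 * n with hm
  have hpos : (0 : ℝ) < nTwo m := by
    have := one_le_nTwo m
    exact_mod_cast this
  have hσ : 1 ≤ sig m := by unfold sig; omega
  have hc := cases_even (n := m) (by rw [hm]; exact even_two_mul n) K (sig m) (bb m) hσ h1
  rw [← hJ] at hc
  rw [div_le_iff₀ hpos]
  refine hc.trans ?_
  rw [add_mul, add_mul]
  refine add_le_add (add_le_add ?_ ?_) ?_
  · have g1 := hn₀ m h2 2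
    have g2 : (nSub (2 * J * sig m) : ℝ) ≤ (2 : ℝ) ^ ((2 * J * sig m) ^ 4) := by exact_mod_cast nSub_le _
    calc (m : ℝ) ^ (2 * J * sig m) * (nSub (2 * J * sig m) : ℝ) ^ 2 * red m 2
        ≤ (m : ℝ) ^ (2 * J * sig m) * ((2 : ℝ) ^ ((2 * J * sig m) ^ 4)) ^ 2 *
          (nTwo m * Real.exp (-((max 2 2 : ℕ) * (m : ℝ) ^ (7 / 8 : ℝ) / 64))) := by gcongr
      _ = _ := by
          norm_num
          ring
  · rw [Finset.sum_mul]
    refine Finset.sum_le_sum fun s _ => ?_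
    have g1 := hn₀ m h2 (s / K)
    calc (m : ℝ) ^ (4 * s) * (2 * s : ℝ) ^ (2 * s * bb m) * (m : ℝ) ^ (m * J) * red m (s / K)
        ≤ (m : ℝ) ^ (4 * s) * (2 * s : ℝ) ^ (2 * s * bb m) * (m : ℝ) ^ (m * J) *
          (nTwo m * Real.exp (-((max 2 (s / K) : ℕ) * (m : ℝ) ^ (7 / 8 : ℝ) / 64))) := by gcongr
      _ = _ := by ring
  · apply le_of_eq
    ring

theorem two_bdd {K : ℕ} (hK : 1 ≤ K) {Ω : Type} {H : Subgroup (Perm Ω)} (h : Two H) : Bdd K H := by
  obtain ⟨k, hk⟩ := h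
  exact ⟨k, 1, by rw [hk, mul_one], odd_one, hK⟩

theorem nB_eq {K : ℕ} (hK : 1 ≤ K) (n : ℕ) : nB K n = nTwo n + nX K n := by
  classical
  unfold nB nTwo nX
  have e : {H : Subgroup (Perm (Fin n)) // Bdd K H} ≃
      {H : Subgroup (Perm (Fin n)) // Two H} ⊕ {H : Subgroup (Perm (Fin n)) // Bdd K H ∧ ¬ Two H} := by
    refine
      { toFun := fun H => if h : Two H.1 then Sum.inl ⟨H.1, h⟩ else Sum.inr ⟨H.1, H.2, h⟩
        invFun := fun x => Sum.elim (fun H => ⟨H.1, two_bdd hK H.2⟩) (fun H => ⟨H.1, H.2.1⟩) x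
        left_inv := ?_
        right_inv := ?_ }
    · intro H
      by_cases h : Two H.1 <;> simp [h]
    · rintro (H | H)
      · simp [H.2]
      · simp [H.2.2]
  rw [Nat.card_congr e, Nat.card_sum]

theorem nB_pos {K : ℕ} (hK : 1 ≤ K) (n : ℕ) : (0 : ℝ) < nB K n := by
  have h1 := one_le_nTwo n
  have h2 := nB_eq hK n
  have : 0 < nB K n := by omega
  exact_mod_cast this

theorem nTwo_le_nB {K : ℕ} (hK : 1 ≤ K) (n : ℕ) : (nTwo n : ℝ) ≤ nB K n := by
  have h2 := nB_eq hK n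
  have : nTwo n ≤ nB K n := by omega
  exact_mod_cast this

theorem dens_two (K : ℕ) (hK : 1 ≤ K) (a : ℕ) : Tendsto (fun n : ℕ => dens K n (2 ^ a)) atTop (𝓝 1) := by
  have h1 := (NilS.small_tendsto' (2 ^ a * K)).const_sub 1
  rw [sub_zero] at h1
  refine tendsto_of_tendsto_of_tendsto_of_le_of_le h1 tendsto_const_nhds (fun n => ?_) (fun n => ?_)
  · have h0 := nB_pos hK n
    have h6 : (nB K n : ℝ) ≤
        (Nat.card {H : Subgroup (Perm (Fin n)) // Bdd K H ∧ 2 ^ a ∣ Nat.card H} : ℝ) +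
          (n.factorial : ℝ) ^ (2 ^ a * K) := by
      have g1 := AbS.card_small_le n (2 ^ a * K)
      have g2 : nB K n ≤ Nat.card {H : Subgroup (Perm (Fin n)) // Bdd K H ∧ 2 ^ a ∣ Nat.card H} +
          Nat.card {H : Subgroup (Perm (Fin n)) // Nat.card H ≤ 2 ^ a * K} := by
        classical
        rw [← Nat.card_sum]
        unfold nB
        refine Nat.card_le_card_of_injective (fun H => if h : 2 ^ a ∣ Nat.card H.1 then
          Sum.inl ⟨H.1, H.2, h⟩ else Sum.inr ⟨H.1, ?_⟩) ?_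
        · obtain ⟨b, k, hk, _, hkK⟩ := H.2
          have hba : b < a := by
            by_contra hc
            apply h
            rw [hk]
            exact Dvd.dvd.mul_right (pow_dvd_pow 2 (by omega)) k
          rw [hk]
          exact Nat.mul_le_mul (Nat.pow_le_pow_right (by norm_num) hba.le) hkK
        · intro H K' hHK
          dsimp only at hHK
          apply Subtype.ext
          by_cases h : 2 ^ a ∣ Nat.card H.1 <;> by_cases h' : 2 ^ a ∣ Nat.card K'.1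
          · rw [dif_pos h, dif_pos h'] at hHK
            exact Subtype.mk.inj (Sum.inl.inj hHK)
          · rw [dif_pos h, dif_neg h'] at hHK
            cases hHK
          · rw [dif_neg h, dif_pos h'] at hHK
            cases hHK
          · rw [dif_neg h, dif_neg h'] at hHK
            exact Subtype.mk.inj (Sum.inr.inj hHK)
      exact_mod_cast g2.trans (Nat.add_le_add_left g1 _)
    have h3 : (0 : ℝ) < nTwo n := by
      have := one_le_nTwo n
      exact_mod_cast this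
    change 1 - (n.factorial : ℝ) ^ (2 ^ a * K) / (nTwo n : ℝ) ≤
      (Nat.card {H : Subgroup (Perm (Fin n)) // Bdd K H ∧ 2 ^ a ∣ Nat.card H} : ℝ) / (nB K n : ℝ)
    have h7 : (n.factorial : ℝ) ^ (2 ^ a * K) / (nB K n : ℝ) ≤ (n.factorial : ℝ) ^ (2 ^ a * K) / (nTwo n : ℝ) :=
      div_le_div_of_nonneg_left (by positivity) h3 (nTwo_le_nB hK n)
    have h8 : 1 ≤ (Nat.card {H : Subgroup (Perm (Fin n)) // Bdd K H ∧ 2 ^ a ∣ Nat.card H} : ℝ) / (nB K n : ℝ) +
          (n.factorial : ℝ) ^ (2 ^ a * K) / (nB K n : ℝ) := by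
      rw [← add_div, le_div_iff₀ h0, one_mul]
      exact h6
    linarith
  · unfold dens
    refine div_le_one_of_le₀ ?_ (by positivity)
    have : Nat.card {H : Subgroup (Perm (Fin n)) // Bdd K H ∧ 2 ^ a ∣ Nat.card H} ≤
        Nat.card {H : Subgroup (Perm (Fin n)) // Bdd K H} := by
      refine Nat.card_le_card_of_injective (fun H => ⟨H.1, H.2.1⟩) fun H K' hHK => ?_
      exact Subtype.ext (Subtype.mk.inj hHK)
    exact Nat.cast_le.2 this

/-- The groups whose order is divisible by `m`, not a power of two, are not 2-groups. -/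
theorem card_dvd_le (K n m : ℕ) (hm : ∀ a : ℕ, m ≠ 2 ^ a) :
    Nat.card {H : Subgroup (Perm (Fin n)) // Bdd K H ∧ m ∣ Nat.card H} ≤ nX K n := by
  unfold nX
  refine Nat.card_le_card_of_injective (fun H => ⟨H.1, H.2.1, ?_⟩) fun H K' hHK => ?_
  · rintro ⟨k, hk⟩
    have h7 := H.2.2
    rw [hk, Nat.dvd_prime_pow Nat.prime_two] at h7
    obtain ⟨a, _, ha⟩ := h7
    exact hm a ha
  · exact Subtype.ext (Subtype.mk.inj hHK)

theorem dens_even (K : ℕ) (hK : 1 ≤ K) (m : ℕ) (hm : ∀ a : ℕ, m ≠ 2 ^ a) :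
    Tendsto (fun n : ℕ => dens K (2 * n) m) atTop (𝓝 0) := by
  refine squeeze_zero (fun n => by unfold dens; positivity) (fun n => ?_) (nX_even K hK)
  change (Nat.card {H : Subgroup (Perm (Fin (2 * n))) // Bdd K H ∧ m ∣ Nat.card H} : ℝ) / (nB K (2 * n) : ℝ) ≤ _
  have h3 : (0 : ℝ) < nTwo (2 * n) := by
    have := one_le_nTwo (2 * n)
    exact_mod_cast this
  have h1 : (Nat.card {H : Subgroup (Perm (Fin (2 * n))) // Bdd K H ∧ m ∣ Nat.card H} : ℝ) ≤ nX K (2 * n) := by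
    exact_mod_cast card_dvd_le K (2 * n) m hm
  have h2 := nTwo_le_nB hK (2 * n)
  gcongr

/-- The proportion of the groups which are not 2-groups along `n = 3 mod 4`. -/
theorem nX_odd (K : ℕ) (hK : 3 ≤ K) (ε : ℝ) (hε : 0 < ε) :
    ∀ᶠ n : ℕ in atTop, n % 4 = 3 → (1 / 4 - ε) * (nB K n : ℝ) ≤ nX K n := by
  obtain ⟨n₀, hn₀⟩ := grow_exp
  have h1 : Tendsto (fun n : ℕ => (n : ℝ) ^ 3 * Real.exp (-(3 * (n : ℝ) ^ (7 / 8 : ℝ) / 32))) atTop (𝓝 0) := by
    have g1 : Tendsto (fun n : ℕ => (3 / 32 : ℝ) * (n : ℝ) ^ (7 / 8 : ℝ)) atTop atTop :=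
      ((tendsto_rpow_atTop (by norm_num)).comp tendsto_natCast_atTop_atTop).const_mul_atTop (by norm_num)
    have g2 := ((Real.tendsto_pow_mul_exp_neg_atTop_nhds_zero 4).comp g1).const_mul ((32 / 3 : ℝ) ^ 4)
    rw [mul_zero] at g2
    refine squeeze_zero' (Eventually.of_forall fun n => by positivity) ?_ g2
    filter_upwards [eventually_ge_atTop 1] with n hn
    simp only [Function.comp_apply]
    have hn0 : (1 : ℝ) ≤ n := by exact_mod_cast hn
    have g3 : (n : ℝ) ^ 3 ≤ ((n : ℝ) ^ (7 / 8 : ℝ)) ^ 4 := by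
      rw [← Real.rpow_natCast ((n : ℝ) ^ (7 / 8 : ℝ)) 4, ← Real.rpow_mul (by linarith), ← Real.rpow_natCast (n : ℝ) 3]
      apply Real.rpow_le_rpow_of_exponent_le hn0
      norm_num
    calc (n : ℝ) ^ 3 * Real.exp (-(3 * (n : ℝ) ^ (7 / 8 : ℝ) / 32))
        ≤ ((n : ℝ) ^ (7 / 8 : ℝ)) ^ 4 * Real.exp (-(3 * (n : ℝ) ^ (7 / 8 : ℝ) / 32)) := by gcongr
      _ = (32 / 3 : ℝ) ^ 4 * ((3 / 32 * (n : ℝ) ^ (7 / 8 : ℝ)) ^ 4 * Real.exp (-(3 / 32 * (n : ℝ) ^ (7 / 8 : ℝ)))) := by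
          rw [mul_pow, ← mul_assoc, ← mul_assoc]
          norm_num
          ring_nf
          simp
  filter_upwards [h1.eventually (gt_mem_nhds hε), eventually_ge_atTop n₀, eventually_ge_atTop 6] with n hn1 hn2 hn6 hn3
  have h2 := odd_low hn3 hK
  have h2' : (nTwo n : ℝ) ≤ 3 * nX K n + (n : ℝ) ^ 3 * nTwo (n - 3) := by exact_mod_cast h2
  have h3 := hn₀ n hn2 3 (by norm_num) (by omega)
  have h4 : (n : ℝ) ^ 3 * nTwo (n - 3) ≤ ε * nTwo n := by
    have g1 : (nTwo (n - 3) : ℝ) ≤ nTwo n * Real.exp (-(3 * (n : ℝ) ^ (7 / 8 : ℝ) / 32)) := by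
      rw [Real.exp_neg, ← div_eq_mul_inv, le_div_iff₀ (Real.exp_pos _)]
      exact_mod_cast h3
    calc (n : ℝ) ^ 3 * nTwo (n - 3) ≤ (n : ℝ) ^ 3 * (nTwo n * Real.exp (-(3 * (n : ℝ) ^ (7 / 8 : ℝ) / 32))) := by gcongr
      _ = ((n : ℝ) ^ 3 * Real.exp (-(3 * (n : ℝ) ^ (7 / 8 : ℝ) / 32))) * nTwo n := by ring
      _ ≤ ε * nTwo n := by gcongr
  have h5 : (nB K n : ℝ) = nTwo n + nX K n := by exact_mod_cast nB_eq (by omega) n
  have h6 : (0 : ℝ) ≤ nTwo n := by positivity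
  have h7 : (0 : ℝ) ≤ nX K n := by positivity
  rw [h5]
  nlinarith

theorem no_limit (K : ℕ) (hK : 3 ≤ K) :
    ∃ r : ℕ, r.Prime ∧ r ≠ 2 ∧ r ≤ K ∧ ¬ ∃ L : ℝ, Tendsto (fun n : ℕ => dens K n r) atTop (𝓝 L) := by
  classical
  by_contra hcon
  push Not at hcon
  have h2n : Tendsto (fun n : ℕ => 2 * n) atTop atTop :=
    tendsto_atTop_mono (fun n => by simp only [id]; omega) tendsto_id
  have hz : ∀ r : ℕ, r.Prime → r ≠ 2 → r ≤ K → Tendsto (fun n : ℕ => dens K n r) atTop (𝓝 0) := by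
    intro r hr hr2 hrK
    obtain ⟨L, hL⟩ := hcon r hr hr2 hrK
    have h1 := dens_even K (by omega) r (fun a ha => by
      rcases a with _ | a
      · rw [pow_zero] at ha
        exact hr.one_lt.ne' ha
      · have h2 : 2 ∣ r := by rw [ha, pow_succ]; exact dvd_mul_left 2 _
        exact hr2 ((Nat.prime_dvd_prime_iff_eq Nat.prime_two hr).1 h2).symm)
    have h3 := tendsto_nhds_unique (hL.comp h2n) h1
    rw [h3] at hL
    exact hL
  set T := (Finset.range (K + 1)).filter (fun r => r.Prime ∧ r ≠ 2) with hT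
  have hsum : Tendsto (fun n : ℕ => ∑ r ∈ T, dens K n r) atTop (𝓝 0) := by
    have := tendsto_finsetSum T (f := fun r (n : ℕ) => dens K n r) (a := fun _ => (0 : ℝ)) (x := atTop)
      (fun r hr => by
        rw [hT, Finset.mem_filter, Finset.mem_range] at hr
        exact hz r hr.2.1 hr.2.2 (by omega))
    simpa using this
  have hle : ∀ n : ℕ, (nX K n : ℝ) ≤ (∑ r ∈ T, dens K n r) * nB K n := by
    intro n
    have h0 := nB_pos (K := K) (by omega) n
    rw [Finset.sum_mul]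
    have h1 : ∀ r ∈ T, dens K n r * nB K n =
        (Nat.card {H : Subgroup (Perm (Fin n)) // Bdd K H ∧ r ∣ Nat.card H} : ℝ) := by
      intro r _
      change (Nat.card {H : Subgroup (Perm (Fin n)) // Bdd K H ∧ r ∣ Nat.card H} : ℝ) / (nB K n : ℝ) * nB K n = _
      rw [div_mul_cancel₀ _ h0.ne']
    rw [Finset.sum_congr rfl h1]
    have h2 : nX K n ≤ ∑ r ∈ T, Nat.card {H : Subgroup (Perm (Fin n)) // Bdd K H ∧ r ∣ Nat.card H} := by
      have hfin : ∀ (p : Subgroup (Perm (Fin n)) → Prop) [DecidablePred p],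
          Nat.card {H // p H} = (Finset.univ.filter p).card := by
        intro p _
        rw [Nat.card_eq_fintype_card, Fintype.card_subtype]
      unfold nX
      rw [hfin]
      refine (Finset.card_le_card (t := T.biUnion (fun r =>
        Finset.univ.filter (fun H : Subgroup (Perm (Fin n)) => Bdd K H ∧ r ∣ Nat.card H))) ?_).trans ?_
      · intro H hH
        rw [Finset.mem_filter] at hH
        obtain ⟨_, hB, h2⟩ := hH
        rw [Finset.mem_biUnion]
        obtain ⟨a, k, hk, hkodd, hkK⟩ := hB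
        have hk1 : k ≠ 1 := by
          rintro rfl
          exact h2 ⟨a, by rw [hk, mul_one]⟩
        obtain ⟨r, hr, hrk⟩ := Nat.exists_prime_and_dvd hk1
        have hk0 : 0 < k := hkodd.pos
        refine ⟨r, ?_, ?_⟩
        · rw [hT, Finset.mem_filter, Finset.mem_range]
          refine ⟨by have := Nat.le_of_dvd hk0 hrk; omega, hr, ?_⟩
          rintro rfl
          exact (Nat.not_even_iff_odd.2 hkodd) (even_iff_two_dvd.2 hrk)
        · rw [Finset.mem_filter]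
          exact ⟨Finset.mem_univ _, ⟨a, k, hk, hkodd, hkK⟩, by rw [hk]; exact hrk.mul_left _⟩
      · refine Finset.card_biUnion_le.trans (Finset.sum_le_sum fun r _ => ?_)
        rw [hfin]
    exact_mod_cast h2
  have h1 := nX_odd K hK (1 / 8) (by norm_num)
  have h2 := hsum.eventually (gt_mem_nhds (show (0 : ℝ) < 1 / 8 by norm_num))
  obtain ⟨N, hN⟩ := eventually_atTop.1 (h1.and h2)
  have h3 := hN (4 * N + 3) (by omega)
  have h4 := h3.1 (by omega)
  have h5 := h3.2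
  have h6 := hle (4 * N + 3)
  have h7 := nB_pos (K := K) (by omega) (4 * N + 3)
  have h8 : (∑ r ∈ T, dens K (4 * N + 3) r) * nB K (4 * N + 3) < 1 / 8 * nB K (4 * N + 3) :=
    mul_lt_mul_of_pos_right h5 h7
  linarith

end Pool.Agent.BdO
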