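import Mathlib

/-!
MP_7fa120_al, bounded odd part. The two parameters.
-/

set_option autoImplicit false

namespace Pool.Agent.BdO

/-- The threshold for the number of moved points. -/
noncomputable def sig (n : ℕ) : ℕ := ⌊(n : ℝ) ^ (1 / 6 : ℝ)⌋₊ + 1

/-- The threshold for the number of commutators. -/
noncomputable def bb (n : ℕ) : ℕ := ⌊(n : ℝ) ^ (3 / 4 : ℝ)⌋₊

end Pool.Agent.BdO
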